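import Mathlib

/-!
The series `1 / sqrt ((1 - X)^2 - 4 c X^3)` and truncated hypergeometric sums.
-/

namespace Pool.Agent.Lib.MP_2eac29_nt

open Finset hiding mk

theorem poly_two_point (G : Polynomial ℤ) (x : ℤ) :
    x ^ 2 ∣ 2 * G.eval x - G.eval (2 * x) - G.eval 0 := by
  induction G using Polynomial.induction_on' with
  | add P Q h1 h2 =>
    simp only [Polynomial.eval_add]
    exact (dvd_add h1 h2).trans (dvd_of_eq (by ring))
  | monomial n a =>
    simp only [Polynomial.eval_monomial]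
    rcases n with _ | _ | n
    · simp [show 2 * a - a - a = 0 by ring]
    · simp [show 2 * (a * x) - a * (2 * x) = 0 by ring]
    · exact ⟨2 * a * x ^ n - a * 2 ^ (n + 2) * x ^ n, by ring⟩

theorem term_cong {p j : ℕ} (hp : p.Prime) (hj : j < p) :
    (p : ℤ) ^ 2 ∣ ((2 * j).choose j : ℤ) * (2 * ((p - 1 - j).choose (2 * j) : ℤ) -
      ((2 * p - 1 - j).choose (2 * j) : ℤ) - ((3 * j).choose j : ℤ)) := by
  have h := poly_two_point ((descPochhammer ℤ (2 * j)).comp
    (Polynomial.X - Polynomial.C ((j + 1 : ℕ) : ℤ))) p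
  simp only [Polynomial.eval_comp, Polynomial.eval_sub, Polynomial.eval_X, Polynomial.eval_C] at h
  have e1 : (p : ℤ) - ((j + 1 : ℕ) : ℤ) = ((p - 1 - j : ℕ) : ℤ) := by omega
  have e2 : 2 * (p : ℤ) - ((j + 1 : ℕ) : ℤ) = ((2 * p - 1 - j : ℕ) : ℤ) := by omega
  have e3 := ascPochhammer_eval_neg_eq_descPochhammer ℤ (0 - ((j + 1 : ℕ) : ℤ)) (2 * j)
  rw [pow_mul, neg_one_sq, one_pow, one_mul, zero_sub, neg_neg,
    ascPochhammer_nat_eq_natCast_ascFactorial, Nat.ascFactorial_eq_factorial_mul_choose] at e3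
  rw [e1, e2, zero_sub, ← e3, descPochhammer_eval_eq_descFactorial,
    descPochhammer_eval_eq_descFactorial, Nat.descFactorial_eq_factorial_mul_choose,
    Nat.descFactorial_eq_factorial_mul_choose, show j + 2 * j = 3 * j by ring,
    Nat.choose_symm_of_eq_add (show 3 * j = 2 * j + j by ring),
    ← Nat.choose_mul_factorial_mul_factorial (show j ≤ 2 * j by omega),
    show 2 * j - j = j by omega] at h
  have cop : IsCoprime ((p : ℤ) ^ 2) ((j.factorial : ℤ) ^ 2) := by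
    refine IsCoprime.pow (Nat.isCoprime_iff_coprime.2 ?_)
    rw [Nat.Prime.coprime_iff_not_dvd hp, hp.dvd_factorial]; omega
  refine cop.dvd_of_dvd_mul_left ?_
  refine h.trans (dvd_of_eq ?_)
  push_cast; ring

open PowerSeries

variable {O : Type} [CommRing O]

/-- the functional `2 F_(p-1) - F_(2p-1)` -/
noncomputable def Lam (p : ℕ) : O⟦X⟧ →ₗ[O] O := (2 : O) • coeff (p - 1) - coeff (2 * p - 1)

theorem Lam_apply (p : ℕ) (F : O⟦X⟧) : Lam p F = 2 * coeff (p - 1) F - coeff (2 * p - 1) F := by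
  simp [Lam]

theorem Lam_C_mul (p : ℕ) (a : O) (F : O⟦X⟧) : Lam p (C a * F) = a * Lam p F := by
  rw [← smul_eq_C_mul, map_smul, smul_eq_mul]

theorem Lam_X_pow {p : ℕ} (hp : 0 < p) (F : O⟦X⟧) : Lam p (X ^ (2 * p) * F) = 0 := by
  rw [Lam_apply, coeff_X_pow_mul', coeff_X_pow_mul', if_neg (by omega), if_neg (by omega)]
  simp

theorem Lam_der {p : ℕ} (hp : 0 < p) (F : O⟦X⟧) :
    Lam p (derivative O F) = 2 * p * (coeff p F - coeff (2 * p) F) := by
  obtain ⟨n, rfl⟩ := Nat.exists_eq_succ_of_ne_zero hp.ne'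
  rw [Lam_apply, coeff_derivative, coeff_derivative, show 2 * n.succ - 1 = 2 * n + 1 by omega,
    Nat.succ_sub_one, show 2 * n.succ = 2 * n + 1 + 1 by omega, Nat.succ_eq_add_one]
  push_cast; ring

theorem Lam_subst {p : ℕ} (hp : p.Prime) (c : O) (σ : O⟦X⟧ →ₐ[O] O⟦X⟧)
    (hσ : σ X = C c * X ^ 3 * mk 1 ^ 2)
    (hσ' : ∀ F : Polynomial O, σ F = F.aeval (C c * X ^ 3 * mk 1 ^ 2 : O⟦X⟧)) (a : ℕ → O) :
    (p : O) ^ 2 ∣ Lam p (mk 1 * σ (mk fun j => a j * ((2 * j).choose j : O))) -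
      ∑ j ∈ range p, a j * (((2 * j).choose j * (3 * j).choose j : ℕ) : O) * c ^ j := by
  rw [eq_X_pow_mul_shift_add_trunc p (mk fun j => a j * ((2 * j).choose j : O)), map_add σ, map_mul σ,
    map_pow, hσ, hσ', Polynomial.aeval_def, eval₂_trunc_eq_sum_range, mul_add, map_add,
    show ∀ U : O⟦X⟧, mk 1 * ((C c * X ^ 3 * mk 1 ^ 2) ^ p * U) =
      X ^ (2 * p) * (mk 1 * (C c * X * mk 1 ^ 2) ^ p * U) from fun U => by ring,
    Lam_X_pow hp.pos, zero_add, mul_sum, map_sum, ← sum_sub_distrib]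
  refine dvd_sum fun j hj => ?_
  rw [mem_range] at hj
  have e : ∀ n, j ≤ n → coeff n (X ^ (3 * j) * (mk 1 : O⟦X⟧) ^ (2 * j + 1)) =
      ((n - j).choose (2 * j) : O) := by
    intro n hn
    rw [coeff_X_pow_mul', mk_one_pow_eq_mk_choose_add, coeff_mk]
    split_ifs with h
    · rw [show 2 * j + (n - 3 * j) = n - j by omega]
    · rw [Nat.choose_eq_zero_of_lt (by omega), Nat.cast_zero]
  rw [coeff_mk, algebraMap_eq, show mk 1 * (C (a j * ((2 * j).choose j : O)) *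
      (C c * X ^ 3 * mk 1 ^ 2) ^ j) = C (a j * ((2 * j).choose j : O) * c ^ j) *
      (X ^ (3 * j) * (mk 1 : O⟦X⟧) ^ (2 * j + 1)) by rw [map_mul C _ (c ^ j), map_pow]; ring,
    Lam_C_mul, Lam_apply, e _ (by omega), e _ (by omega)]
  obtain ⟨z, hz⟩ := term_cong hp hj
  have := congrArg (Int.castRingHom O) hz
  simp only [map_mul, map_sub, map_pow, map_natCast, map_ofNat] at this
  refine ⟨a j * c ^ j * Int.castRingHom O z, ?_⟩
  push_cast
  linear_combination a j * c ^ j * this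

theorem exists_series [IsDomain O] [CharZero O] {p : ℕ} (hp : p.Prime) (c : O) :
    ∃ E θ : O⟦X⟧, E ^ 2 * (C (-4 * c) * X ^ 3 + (1 - X) ^ 2) = 1 ∧ constantCoeff E = 1 ∧
      (C (-4 * c) * X ^ 3 + (1 - X) ^ 2) * θ = 2 * C c * X ^ 3 * E ∧
      (p : O) ^ 2 ∣ Lam p E -
        ∑ j ∈ range p, (((2 * j).choose j * (3 * j).choose j : ℕ) : O) * c ^ j ∧
      (p : O) ^ 2 ∣ Lam p θ -
        ∑ j ∈ range p, (j : O) * (((2 * j).choose j * (3 * j).choose j : ℕ) : O) * c ^ j := by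
  have hz : HasSubst (C c * X ^ 3 * mk 1 ^ 2 : O⟦X⟧) := HasSubst.of_constantCoeff_zero' (by simp)
  obtain ⟨σ, hσ, hσ'⟩ : ∃ σ : O⟦X⟧ →ₐ[O] O⟦X⟧, σ X = C c * X ^ 3 * mk 1 ^ 2 ∧
      ∀ F : Polynomial O, σ F = F.aeval (C c * X ^ 3 * mk 1 ^ 2 : O⟦X⟧) :=
    ⟨substAlgHom hz, substAlgHom_X hz, substAlgHom_coe hz⟩
  set F : O⟦X⟧ := mk fun j => 1 * ((2 * j).choose j : O) with hF
  set G : O⟦X⟧ := mk fun j => j * ((2 * j).choose j : O) with hG
  have e1 : X * derivative O F = G := by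
    ext n
    rcases n with _ | n
    · simp [hG]
    · rw [coeff_succ_X_mul, coeff_derivative, hF, hG, coeff_mk, coeff_mk]; push_cast; ring
  have e2 : derivative O F = 4 * G + 2 * F := by
    ext n
    have := congrArg (Nat.cast : ℕ → O) (Nat.succ_mul_centralBinom_succ n)
    simp only [Nat.centralBinom_eq_two_mul_choose] at this
    rw [coeff_derivative, map_add, show (4 : O⟦X⟧) = C 4 by simp only [map_ofNat],
      show (2 : O⟦X⟧) = C 2 by simp only [map_ofNat], coeff_C_mul, coeff_C_mul, hF, hG, coeff_mk,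
      coeff_mk, coeff_mk]
    push_cast at this ⊢
    linear_combination this
  have F0 : constantCoeff F = 1 := by simp [hF]
  have e3 : F ^ 2 * (1 - 4 * X) = 1 := by
    refine derivative.ext ?_ (by simp [F0])
    rw [Derivation.leibniz, Derivation.leibniz_pow, map_sub, derivative_one,
      show (4 : O⟦X⟧) * X = C 4 * X by simp only [map_ofNat], Derivation.leibniz, derivative_X,
      derivative_C]
    simp only [smul_eq_mul, nsmul_eq_mul, map_ofNat]
    push_cast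
    linear_combination (2 * F) * e2 - 8 * F * e1
  have e4 : (1 - 4 * X) * G = 2 * X * F := by linear_combination X * e2 - e1
  have f3 := congrArg σ e3
  have f4 := congrArg σ e4
  simp only [map_mul, map_pow, map_sub, map_one, map_ofNat, hσ] at f3 f4
  have v := mk_one_mul_one_sub_eq_one O
  refine ⟨mk 1 * σ F, mk 1 * σ G, ?_, ?_, ?_, ?_, Lam_subst hp c σ hσ hσ' _⟩
  · simp only [map_mul, map_neg, map_ofNat]
    linear_combination f3 + σ F ^ 2 * (mk 1 * (1 - X) + 1) * v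
  · rw [eq_X_pow_mul_shift_add_trunc 1 F, map_add σ, map_mul σ, map_pow, hσ, hσ']
    simp [hF]
  · simp only [map_mul, map_neg, map_ofNat]
    have v2 : (mk 1 : O⟦X⟧) ^ 2 * (1 - X) ^ 2 = 1 := by rw [← mul_pow, v, one_pow]
    linear_combination mk 1 * (1 - X) ^ 2 * f4 +
      (mk 1 * (4 * C c * X ^ 3 * σ G + 2 * C c * X ^ 3 * σ F)) * v2
  · simpa only [hF, one_mul] using Lam_subst hp c σ hσ hσ' (fun _ => 1)

end Pool.Agent.Lib.MP_2eac29_nt
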