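import Mathlib

/-!
Polynomial identities in characteristic `p` for the cubic `g X^3 + (1 - X)^2`.
-/

namespace Pool.Agent.Lib.MP_2eac29_nt

open Polynomial

noncomputable def DD {R : Type} [CommRing R] (g : R) : R[X] := C g * X ^ 3 + (1 - X) ^ 2

section
variable {R : Type} [CommRing R]

theorem DD_map {S : Type} [CommRing S] (f : R →+* S) (g : R) : (DD g).map f = DD (f g) := by
  simp [DD]

theorem DD_der (g : R) : derivative (DD g) = 3 * C g * X ^ 2 + 2 * X - 2 := by
  simp only [DD, derivative_add, derivative_mul, derivative_C, derivative_X_pow, derivative_sq,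
    derivative_sub, derivative_one, derivative_X, map_natCast, map_ofNat]
  push_cast
  ring

theorem DD_deg_le (g : R) : (DD g).natDegree ≤ 3 := by unfold DD; compute_degree

theorem DD_eq (g : R) : DD g = C g * X ^ 3 + X ^ 2 - 2 * X + 1 := by unfold DD; ring

theorem DD_c3 (g : R) : (DD g).coeff 3 = g := by
  rw [DD_eq]; simp [coeff_X, coeff_one]

theorem DD_c0 (g : R) : (DD g).coeff 0 = 1 := by
  rw [DD_eq]; simp

theorem DD_deg {g : R} (hg : g ≠ 0) : (DD g).natDegree = 3 :=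
  natDegree_eq_of_le_of_coeff_ne_zero (DD_deg_le g) (by rwa [DD_c3])

theorem DD_ne [Nontrivial R] (g : R) : DD g ≠ 0 := fun h => by
  have := DD_c0 g
  rw [h] at this
  simp at this

end

variable {k : Type} [Field k]

theorem DD_sep {g : k} (hg : g ≠ 0) (hΔ : 27 * g + 4 ≠ 0) :
    IsCoprime (DD g) (derivative (DD g)) := by
  have h0 := mul_ne_zero hg hΔ
  refine ⟨C (g * (27 * g + 4))⁻¹ * (4 + 30 * C g + 27 * C g ^ 2 + (6 * C g + 36 * C g ^ 2) * X),
    C (g * (27 * g + 4))⁻¹ * (2 + 13 * C g + (-2 - 14 * C g - 9 * C g ^ 2) * X +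
      (-2 * C g - 12 * C g ^ 2) * X ^ 2), ?_⟩
  have : C (g * (27 * g + 4))⁻¹ * (C g * (27 * C g + 4)) = 1 := by
    rw [show (C g * (27 * C g + 4) : k[X]) = C (g * (27 * g + 4)) by
      simp only [map_add, map_mul, map_ofNat], ← C_mul, inv_mul_cancel₀ h0, C_1]
  rw [DD_der, DD]
  linear_combination this

theorem par_aux {g : k} (hg : g ≠ 0) {S T : k[X]} {n : ℕ} (h : DD g * S ^ 2 = T) (hT : T ≠ 0)
    (hn : T.natDegree = 2 * n) : False := by
  have hS : S ≠ 0 := by rintro rfl; apply hT; rw [← h]; simp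
  rw [← h, natDegree_mul (DD_ne g) (pow_ne_zero _ hS), DD_deg hg, natDegree_pow] at hn
  omega

variable {p : ℕ} [hp : Fact p.Prime] [CharP k p]

omit hp in
theorem coeff_eq_zero_of_der {F : k[X]} {i : ℕ} (h : (derivative F).coeff i = 0)
    (hi : ¬ p ∣ i + 1) : F.coeff (i + 1) = 0 := by
  rw [coeff_derivative] at h
  refine (mul_eq_zero.1 h).resolve_right fun h0 => hi ?_
  rw [← CharP.cast_eq_zero_iff k p]
  exact_mod_cast h0

theorem shape_of_der {F : k[X]} (h : derivative F = 0) (hd : F.natDegree ≤ p) :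
    F = C (F.coeff 0) + C (F.coeff p) * X ^ p := by
  have p0 := hp.out.pos
  ext i
  rw [coeff_add, coeff_C, coeff_C_mul_X_pow]
  by_cases h0 : i = 0
  · subst h0; simp [p0.ne]
  by_cases h1 : i = p
  · subst h1; simp [h0]
  rw [if_neg h0, if_neg h1, add_zero]
  by_cases h2 : p < i
  · exact coeff_eq_zero_of_natDegree_lt (by omega)
  obtain ⟨j, rfl⟩ := Nat.exists_eq_succ_of_ne_zero h0
  refine coeff_eq_zero_of_der (p := p) (by rw [h, coeff_zero]) fun hh => ?_
  have := Nat.le_of_dvd (by omega) hh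
  omega

theorem frob_one {g g' : k} (hg : g ≠ 0) {A B S : k[X]} (dA : A.natDegree ≤ p)
    (dB : B.natDegree ≤ p) (hB : B ≠ 0) (hW : derivative A * B = A * derivative B)
    (hc : DD g * S ^ 2 = B * (C g' * A ^ 3 + B * (B - A) ^ 2))
    (h0 : ∃ A2 B2 : k[X], B2.coeff 0 ≠ 0 ∧ A2.coeff 0 = 0 ∧ A * B2 = A2 * B) :
    ∃ a b c : k, b ≠ 0 ∧ A = C a * X ^ p ∧ B = C b + C c * X ^ p := by
  have hA : A ≠ 0 := by
    rintro rfl
    refine par_aux hg hc (n := 2 * B.natDegree) ?_ ?_
    · simpa using hB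
    · rw [show B * (C g' * 0 ^ 3 + B * (B - 0) ^ 2) = B ^ 4 by ring, natDegree_pow]; ring
  obtain ⟨A1, B1, M, hc1, rfl, rfl⟩ := UniqueFactorizationMonoid.exists_reduced_factors' A B hB
  have hM : M ≠ 0 := left_ne_zero_of_mul hB
  have hA1 : A1 ≠ 0 := right_ne_zero_of_mul hA
  have hB1 : B1 ≠ 0 := right_ne_zero_of_mul hB
  have cop := hc1.isCoprime
  have hW1 : derivative A1 * B1 = A1 * derivative B1 := by
    apply mul_left_cancel₀ (mul_ne_zero hM hM)
    simp only [derivative_mul] at hW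
    linear_combination hW
  have a1 : derivative A1 = 0 :=
    dvd_derivative_iff.1 (cop.dvd_of_dvd_mul_right ⟨_, hW1⟩)
  have b1 : derivative B1 = 0 := by
    rw [a1, zero_mul] at hW1
    exact (mul_eq_zero.1 hW1.symm).resolve_left hA1
  rw [natDegree_mul hM hA1] at dA
  rw [natDegree_mul hM hB1] at dB
  have sa := shape_of_der a1 (by omega)
  have sb := shape_of_der b1 (by omega)
  obtain ⟨A2, B2, k1, k2, k3⟩ := h0
  have k4 : A1 * B2 = A2 * B1 := by
    apply mul_left_cancel₀ hM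
    linear_combination k3
  have a0 : A1.coeff 0 = 0 := by
    have := congrArg (fun F => coeff F 0) k4
    simp only [mul_coeff_zero, k2, zero_mul] at this
    exact (mul_eq_zero.1 this).resolve_right k1
  have b0 : B1.coeff 0 ≠ 0 := by
    intro h
    obtain ⟨u, v, huv⟩ := cop
    have := congrArg (fun F => coeff F 0) huv
    simp [a0, h] at this
  rw [a0, C_0, zero_add] at sa
  have ap : A1.coeff p ≠ 0 := by
    intro h; rw [h, C_0, zero_mul] at sa; exact hA1 sa
  have := le_natDegree_of_ne_zero ap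
  have m0 : M = C (M.coeff 0) := eq_C_of_natDegree_eq_zero (by omega)
  have m1 : M.coeff 0 ≠ 0 := by intro h; rw [h, C_0] at m0; exact hM m0
  refine ⟨M.coeff 0 * A1.coeff p, M.coeff 0 * B1.coeff 0, M.coeff 0 * B1.coeff p,
    mul_ne_zero m1 b0, ?_, ?_⟩
  · rw [C_mul, mul_assoc, ← sa, ← m0]
  · rw [C_mul, C_mul, mul_assoc, ← mul_add, ← sb, ← m0]

theorem frob_two [PerfectRing k p] {h : ℕ} (hh : p = 2 * h + 1) {g g' a c : k} (hg : g ≠ 0)
    (hΔ : 27 * g + 4 ≠ 0) {S : k[X]}
    (hc : DD g * S ^ 2 = (1 + C c * X ^ p) * (C g' * (C a * X ^ p) ^ 3 +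
      (1 + C c * X ^ p) * ((1 + C c * X ^ p) - C a * X ^ p) ^ 2)) (h0 : S.coeff 0 = 1) :
    a = 1 ∧ c = 0 ∧ g' = g ^ p ∧ S = DD g ^ h := by
  have hp2 : p ≠ 2 := by omega
  have h2 : (2 : k) ≠ 0 := fun h2 => hp2 ((Nat.prime_dvd_prime_iff_eq hp.out Nat.prime_two).1
    ((CharP.cast_eq_zero_iff k p 2).1 (by exact_mod_cast h2)))
  obtain ⟨α, rfl⟩ := surjective_frobenius k p a
  obtain ⟨β, rfl⟩ := surjective_frobenius k p c
  obtain ⟨γ, rfl⟩ := surjective_frobenius k p g'
  simp only [frobenius_def] at hc ⊢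
  set Ψ : k[X] := (1 + C β * X) * (C γ * (C α * X) ^ 3 +
      (1 + C β * X) * ((1 + C β * X) - C α * X) ^ 2) with hΨ
  have e : DD g * S ^ 2 = Ψ ^ p := by
    rw [hc, hΨ]
    simp only [← frobenius_def, map_mul, map_add, map_sub, map_pow, map_one]
    simp only [frobenius_def, C_pow]
  have sq : Squarefree (DD g) := Separable.squarefree (DD_sep hg hΔ)
  obtain ⟨M, hM⟩ : DD g ∣ Ψ := (sq.dvd_pow_iff_dvd hp.out.ne_zero).1 ⟨_, e.symm⟩
  have e2 : S ^ 2 = (DD g ^ h) ^ 2 * M ^ p := by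
    apply mul_left_cancel₀ (DD_ne g)
    rw [e, hM, mul_pow, hh]; ring
  obtain ⟨S1, hS1⟩ : DD g ^ h ∣ S :=
    (IsIntegrallyClosed.pow_dvd_pow_iff two_ne_zero).1 ⟨_, e2⟩
  have e3 : S1 ^ 2 = M ^ p := by
    apply mul_left_cancel₀ (pow_ne_zero 2 (pow_ne_zero h (DD_ne g)))
    rw [← e2, hS1]; ring
  have Ψ0 : Ψ.coeff 0 = 1 := by simp [hΨ, coeff_zero_eq_eval_zero]
  have M0 : M.coeff 0 = 1 := by
    rw [hM, mul_coeff_zero, DD_c0, one_mul] at Ψ0; exact Ψ0
  have hM0 : M ≠ 0 := by rintro rfl; simp at M0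
  have dΨ : Ψ.natDegree ≤ 4 := by rw [hΨ]; compute_degree
  rw [hM, natDegree_mul (DD_ne g) hM0, DD_deg hg] at dΨ
  have d3 := congrArg natDegree e3
  rw [natDegree_pow, natDegree_pow] at d3
  have dM : M.natDegree = 0 := by
    by_contra hne
    rw [show M.natDegree = 1 by omega] at d3
    omega
  have M1 : M = 1 := by rw [eq_C_of_natDegree_eq_zero dM, M0, C_1]
  rw [M1, mul_one] at hM
  have S0 : S1.coeff 0 = 1 := by
    rw [hS1, mul_coeff_zero, coeff_zero_eq_eval_zero, eval_pow, ← coeff_zero_eq_eval_zero, DD_c0,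
      one_pow, one_mul] at h0
    exact h0
  have S11 : S1 = 1 := by
    rw [dM] at d3
    rw [eq_C_of_natDegree_eq_zero (show S1.natDegree = 0 by omega), S0, C_1]
  have eΨ : Ψ = C (β * γ * α ^ 3 + β ^ 2 * (β - α) ^ 2) * X ^ 4 +
      C (γ * α ^ 3 + 2 * (2 * β - α) * β * (β - α)) * X ^ 3 +
      C ((2 * β - α) ^ 2 + 2 * β * (β - α)) * X ^ 2 + C (2 * (2 * β - α)) * X + 1 := by
    rw [hΨ]; simp only [map_add, map_mul, map_pow, map_sub, map_ofNat]; ring
  rw [eΨ, DD_eq] at hM
  have c1 := congrArg (fun F => coeff F 1) hM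
  have c2 := congrArg (fun F => coeff F 2) hM
  have c3 := congrArg (fun F => coeff F 3) hM
  have c4 := congrArg (fun F => coeff F 4) hM
  simp only [coeff_add, coeff_sub, coeff_C_mul_X_pow, coeff_C_mul_X, coeff_X_pow, coeff_one,
    coeff_ofNat_mul, coeff_X] at c1 c2 c3 c4
  norm_num at c1 c2 c3 c4
  have f1 : 2 * β - α = -1 := by
    apply mul_left_cancel₀ h2; linear_combination c1
  have f2 : β * (β - α) = 0 := by
    apply mul_left_cancel₀ h2; linear_combination c2 - (2 * β - α - 1) * f1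
  have f3 : γ * α ^ 3 = g := by linear_combination c3 - 2 * (2 * β - α) * f2
  have f4 : β = 0 := by
    apply mul_left_cancel₀ hg
    linear_combination c4 - β * f3 - β * (β - α) * f2
  have f5 : α = 1 := by linear_combination 2 * f4 - f1
  subst f4 f5
  refine ⟨one_pow _, zero_pow hp.out.ne_zero, by rw [← f3]; simp, by rw [hS1, S11, mul_one]⟩

theorem frob_shape [PerfectRing k p] {h : ℕ} (hh : p = 2 * h + 1) {g g' : k} (hg : g ≠ 0)
    (hΔ : 27 * g + 4 ≠ 0) {A B S : k[X]} (dA : A.natDegree ≤ p)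
    (dB : B.natDegree ≤ p) (hB : B ≠ 0) (hW : derivative A * B = A * derivative B)
    (hc : DD g * S ^ 2 = B * (C g' * A ^ 3 + B * (B - A) ^ 2))
    (h0 : ∃ A2 B2 : k[X], B2.coeff 0 ≠ 0 ∧ A2.coeff 0 = 0 ∧ A * B2 = A2 * B)
    (h1 : S.coeff 0 = B.coeff 0 ^ 2) :
    ∃ b : k, b ≠ 0 ∧ A = C b * X ^ p ∧ B = C b ∧ g' = g ^ p ∧ S = C (b ^ 2) * DD g ^ h := by
  obtain ⟨a, b, c, hb, rfl, rfl⟩ := frob_one hg dA dB hB hW hc h0
  have p0 := hp.out.pos
  have bi : C b * C b⁻¹ = 1 := by rw [← C_mul, mul_inv_cancel₀ hb, C_1]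
  have := frob_two hh (g' := g') (a := a * b⁻¹) (c := c * b⁻¹) hg hΔ (S := C (b⁻¹ ^ 2) * S) (by
    apply mul_left_cancel₀ (pow_ne_zero 4 (C_ne_zero.2 hb))
    simp only [C_mul, C_pow]
    have e1 : C b * (1 + C c * C b⁻¹ * X ^ p) = C b + C c * X ^ p := by
      linear_combination C c * X ^ p * bi
    have e2 : C b * (C a * C b⁻¹ * X ^ p) = C a * X ^ p := by
      linear_combination C a * X ^ p * bi
    have e3 : C b ^ 2 * (C b⁻¹ ^ 2 * S) = S := by
      linear_combination (C b * C b⁻¹ + 1) * S * bi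
    rw [← e1, ← e2, ← e3] at hc
    linear_combination hc) (by
    rw [coeff_C_mul, h1]
    simp [p0.ne, hb])
  obtain ⟨f1, f2, f3, f4⟩ := this
  have g1 : a = b := by field_simp at f1; exact f1
  have g2 : c = 0 := by simpa [hb] using f2
  refine ⟨b, hb, by rw [g1], by rw [g2]; simp, f3, ?_⟩
  rw [← f4, ← mul_assoc, ← C_mul, ← mul_pow, mul_inv_cancel₀ hb]; simp

theorem DD_pow_char (g : k) :
    DD g ^ p = C (g ^ p) * X ^ (3 * p) + X ^ (2 * p) - 2 * X ^ p + 1 := by
  rw [DD, add_pow_char, mul_pow, ← pow_mul, ← pow_mul, mul_comm 2 p, pow_mul (1 - X),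
    sub_pow_char, one_pow, C_pow]
  ring

theorem second_kind {h : ℕ} (hh : p = 2 * h + 1) (h1 : 1 ≤ h) {g n c : k} {Δ : k[X]}
    (dΔ : Δ.natDegree + 2 ≤ p)
    (e : 2 * DD g * derivative Δ + derivative (DD g) * Δ = -2 * (C n * X + C c)) :
    (DD g ^ (h + 1) * Δ).coeff (2 * p) * (DD g ^ h).coeff (p - 1) = 2 * n * g ^ (p - 1) ∧
    (n = 0 → c = 0 → (DD g ^ h).coeff (p - 1) ≠ 0 → Δ = 0) := by
  have hp2 : p ≠ 2 := by omega
  have h2 : (2 : k) ≠ 0 := fun h2 => hp2 ((Nat.prime_dvd_prime_iff_eq hp.out Nat.prime_two).1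
    ((CharP.cast_eq_zero_iff k p 2).1 (by exact_mod_cast h2)))
  have pk : (2 * h + 1 : k) = 0 := by
    have := CharP.cast_eq_zero k p
    rw [hh] at this; exact_mod_cast this
  set H := DD g ^ h with hH
  set G := DD g ^ (h + 1) * Δ with hG
  have dH : H.natDegree ≤ 3 * h := by
    rw [hH, mul_comm]; exact natDegree_pow_le.trans (Nat.mul_le_mul_left _ (DD_deg_le g))
  have cH : H.coeff (3 * h) = g ^ h := by
    rw [hH, mul_comm, coeff_pow_of_natDegree_le (DD_deg_le g), DD_c3]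
  have dG : G.natDegree ≤ 3 * (h + 1) + (p - 2) := by
    refine natDegree_mul_le.trans (add_le_add ?_ (by omega))
    rw [mul_comm]; exact natDegree_pow_le.trans (Nat.mul_le_mul_left _ (DD_deg_le g))
  have eG : derivative G = -((C n * X + C c) * H) := by
    apply mul_left_cancel₀ (C_ne_zero.2 h2)
    have : (C (2 : k)) * C ((h : k) + 1) = 1 := by
      rw [← C_mul, ← C_1]; congr 1; linear_combination pk
    rw [hG, derivative_mul, derivative_pow_succ, ← hH, pow_succ, ← hH]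
    rw [show C (2 : k) = 2 by simp only [map_ofNat]] at this ⊢
    linear_combination H * e + H * derivative (DD g) * Δ * this
  have eP : G * H = (C (g ^ p) * X ^ (3 * p) + X ^ (2 * p) - 2 * X ^ p + 1) * Δ := by
    rw [← DD_pow_char, hG, hH, hh]; ring
  have cP : ∀ j, 1 ≤ j → j ≤ 3 → (G * H).coeff (j * p - 1) = 0 := by
    intro j j1 j3
    have aux : ∀ i, (X ^ (i * p) * Δ).coeff (j * p - 1) = 0 := by
      intro i
      rw [coeff_X_pow_mul']
      split_ifs with hi
      · refine coeff_eq_zero_of_natDegree_lt ?_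
        have : i < j := by
          by_contra hij
          have := Nat.mul_le_mul_right p (not_lt.1 hij)
          have : 1 * p ≤ j * p := Nat.mul_le_mul_right p j1
          omega
        have := Nat.mul_le_mul_right p (Nat.succ_le_of_lt this)
        rw [Nat.succ_mul] at this
        omega
      · rfl
    have a0 := aux 0
    have a1 := aux 1
    rw [zero_mul, pow_zero, one_mul] at a0
    rw [one_mul] at a1
    rw [eP, add_mul, sub_mul, add_mul, mul_assoc, mul_assoc, one_mul, coeff_add, coeff_sub,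
      coeff_add, coeff_C_mul, coeff_ofNat_mul, aux 3, aux 2, a1, a0]
    simp
  have vG : ∀ i, 3 * h + 2 < i → i ≠ 2 * p → G.coeff i = 0 := by
    intro i hi h2p
    by_cases hb : G.natDegree < i
    · exact coeff_eq_zero_of_natDegree_lt hb
    obtain ⟨j, rfl⟩ := Nat.exists_eq_succ_of_ne_zero (show i ≠ 0 by omega)
    refine coeff_eq_zero_of_der (p := p) ?_ ?_
    · rw [eG, coeff_neg, neg_eq_zero]
      refine coeff_eq_zero_of_natDegree_lt (lt_of_le_of_lt natDegree_mul_le ?_)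
      have : (C n * X + C c).natDegree ≤ 1 := natDegree_linear_le
      omega
    · rintro ⟨m, hm⟩
      rcases Nat.lt_or_ge m 2 with h3 | h3
      · have := Nat.mul_le_mul_left p (Nat.le_of_lt_succ h3)
        omega
      · rcases Nat.eq_or_lt_of_le h3 with h4 | h4
        · subst h4; omega
        · have := Nat.mul_le_mul_left p (Nat.succ_le_of_lt h4)
          omega
  set G1 := G - C (G.coeff (2 * p)) * X ^ (2 * p) with hG1
  have dG1 : G1.natDegree ≤ 3 * h + 2 := by
    rw [natDegree_le_iff_coeff_eq_zero]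
    intro i hi
    rw [hG1, coeff_sub, coeff_C_mul_X_pow]
    split_ifs with h3
    · rw [h3, sub_self]
    · rw [vG i hi h3, sub_zero]
  have cG1 : G1.coeff (3 * h + 2) = -2 * n * g ^ h := by
    rw [hG1, coeff_sub, coeff_C_mul_X_pow, if_neg (by omega), sub_zero]
    have := congrArg (fun F => coeff F (3 * h + 1)) eG
    simp only [coeff_derivative, coeff_neg] at this
    rw [add_comm (3 * h) 1, coeff_mul_add_eq_of_natDegree_le natDegree_linear_le dH, cH] at this
    simp only [coeff_add, coeff_C_mul_X, coeff_C] at this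
    norm_num at this
    rw [show 1 + 3 * h + 1 = 3 * h + 2 by ring] at this
    linear_combination 2 * this - 3 * G.coeff (3 * h + 2) * pk
  have sG : G = C (G.coeff (2 * p)) * X ^ (2 * p) + G1 := by rw [hG1]; ring
  have main : G.coeff (2 * p) * H.coeff (p - 1) = 2 * n * g ^ (p - 1) := by
    have := cP 3 (by norm_num) le_rfl
    rw [sG, add_mul, coeff_add, mul_assoc, coeff_C_mul, coeff_X_pow_mul', if_pos (by omega),
      show 3 * p - 1 - 2 * p = p - 1 by omega, show 3 * p - 1 = 3 * h + 2 + 3 * h by omega,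
      coeff_mul_add_eq_of_natDegree_le dG1 dH, cG1, cH] at this
    rw [show p - 1 = h + h by omega] at this ⊢
    linear_combination this
  refine ⟨main, ?_⟩
  rintro rfl rfl hne
  rw [mul_zero, zero_mul] at main
  have z2 := (mul_eq_zero.1 main).resolve_right hne
  simp only [C_0, zero_mul, add_zero, neg_zero] at eG
  have dG' : G.natDegree ≤ p := by
    rw [natDegree_le_iff_coeff_eq_zero]
    intro i hi
    by_cases h3 : 3 * h + 2 < i
    · by_cases h4 : i = 2 * p
      · rw [h4, z2]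
      · exact vG i h3 h4
    obtain ⟨j, rfl⟩ := Nat.exists_eq_succ_of_ne_zero (show i ≠ 0 by omega)
    refine coeff_eq_zero_of_der (p := p) (by rw [eG, coeff_zero]) ?_
    rintro ⟨m, hm⟩
    rcases Nat.lt_or_ge m 2 with h4 | h4
    · have := Nat.mul_le_mul_left p (Nat.le_of_lt_succ h4)
      omega
    · have := Nat.mul_le_mul_left p h4
      omega
  have sh := shape_of_der eG dG'
  have c1 := cP 1 le_rfl (by norm_num)
  have c2 := cP 2 (by norm_num) (by norm_num)
  rw [sh, add_mul, coeff_add, coeff_C_mul, mul_assoc, coeff_C_mul, coeff_X_pow_mul'] at c1 c2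
  rw [if_neg (by omega), mul_zero, add_zero, one_mul] at c1
  have z0 := (mul_eq_zero.1 c1).resolve_right hne
  rw [if_pos (by omega), z0, zero_mul, zero_add, show 2 * p - 1 - p = p - 1 by omega] at c2
  have z1 := (mul_eq_zero.1 c2).resolve_right hne
  rw [z0, z1, C_0, zero_mul, add_zero] at sh
  exact (mul_eq_zero.1 sh).resolve_left (pow_ne_zero _ (DD_ne g))

end Pool.Agent.Lib.MP_2eac29_nt
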