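import Pool.Agent.Lib.MP_2eac29_nt.Series

/-!
Two explicit generators give the congruences for the truncated sums.
-/

namespace Pool.Agent.Lib.MP_2eac29_nt

open Polynomial Par

variable {p : ℕ} {O k : Type} [CommRing O] [Field k]

structure Cop (d : ℕ) (A B : O[X]) : Prop where
  cop : ∃ (U V : O[X]) (z : O), z ≠ 0 ∧ U * A + V * B = C z
  deg : max A.natDegree B.natDegree = d
  ne : B ≠ 0

structure Gen (c : Ctx p O k) (g g' m n e : O) (ε : ℤ) (d : ℕ) (A B S : O[X]) : Prop where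
  cop : Cop d A B
  hε : ε = 1 ∨ ε = -1
  B0 : c.ρ (B.coeff 0) ≠ 0
  A0 : A.coeff 0 = 0
  S0 : S.coeff 0 = ε * B.coeff 0 ^ 2
  curve : DD g * S ^ 2 = B * (C g' * A ^ 3 + B * (B - A) ^ 2)
  der : derivative A * B - A * derivative B = C m * S
  quasi : ∃ (N : O[X]) (z : O), z ≠ 0 ∧ C z * (2 * C m * A * B) =
    C z * (2 * (C n * X + C e) * B ^ 2) +
      (2 * DD g * (derivative N * B - N * derivative B) + derivative (DD g) * N * B)

variable {K : Type} [Field K] [Algebra O K] [IsFractionRing O K]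

theorem Cop.ht {d : ℕ} {A B : O[X]} (h : Cop d A B) {E : Par (RatFunc K)} {P : E.Pt}
    {r s : RatFunc K} (h1 : E.Is P r s) (h2 : r * io K B = io K A) : ht E P = d := by
  have inj := IsFractionRing.injective O K
  obtain ⟨U, V, z, hz, e⟩ := h.cop
  have z0 : algebraMap O K z ≠ 0 := by simpa using hz
  have : XRep E P (A.map (algebraMap O K)) (B.map (algebraMap O K)) := by
    refine ⟨⟨C (algebraMap O K z)⁻¹ * U.map (algebraMap O K),
      C (algebraMap O K z)⁻¹ * V.map (algebraMap O K), ?_⟩,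
      Or.inr ⟨(Polynomial.map_ne_zero_iff inj).2 h.ne, r, s, h1, h2⟩⟩
    have := congrArg (Polynomial.map (algebraMap O K)) e
    rw [Polynomial.map_add, Polynomial.map_mul, Polynomial.map_mul, map_C] at this
    rw [mul_assoc, mul_assoc, ← mul_add, this, ← C_mul, inv_mul_cancel₀ z0, C_1]
  rw [this.ht_eq, natDegree_map_eq_of_injective inj, natDegree_map_eq_of_injective inj, h.deg]

variable [IsDomain O] [IsNoetherianRing O]

theorem Gen.point {c : Ctx p O k} {g g' m n e : O} {ε : ℤ} {d : ℕ} {A B S : O[X]}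
    (G : Gen c g g' m n e ε d A B S) {E : Par (RatFunc K)} (hEd : E.d = io K (DD g))
    (hEg : E.g = io K (C g')) {F : Par k} {T : F.Pt} (hT : F.Is T 0 1) {δ : Der (RatFunc K)}
    (hδ : ∀ F : K[X], δ.f (algebraMap K[X] (RatFunc K) F) =
      algebraMap K[X] (RatFunc K) (derivative F)) :
    ∃ P r s, E.Is P r s ∧ r * io K B = io K A ∧ s * io K B ^ 2 = io K S ∧
      QM δ E P (io K (C m)) (io K (C n * X + C e)) ∧ Red (c.place K) E F P (ε • T) ∧
      ht E P = d := by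
  have inj := io_inj (O := O) K
  have hB : io K B ≠ 0 := (map_ne_zero_iff _ inj).2 G.cop.ne
  have hδ' : ∀ F : O[X], δ.f (io K F) = io K (derivative F) := fun F => by
    rw [io_apply, hδ, derivative_map, io_apply]
  obtain ⟨r, hr⟩ : ∃ r, r * io K B = io K A := ⟨_, div_mul_cancel₀ _ hB⟩
  obtain ⟨s, hs⟩ : ∃ s, s * io K B ^ 2 = io K S := ⟨_, div_mul_cancel₀ _ (pow_ne_zero _ hB)⟩
  have on : E.On r s := by
    have := congrArg (io K) G.curve
    simp only [map_mul, map_add, map_sub, map_pow, ← hr, ← hs, ← hEd, ← hEg] at this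
    apply mul_left_cancel₀ (pow_ne_zero 4 hB)
    linear_combination this
  obtain ⟨P, hP⟩ := exists_is on
  have rB := c.place_poly K B
  have Rr : (c.place K).R r 0 := by
    refine Place.of_eq ((c.place K).mul (c.place_poly K A) (Place.inv rB G.B0)) ?_ ?_
    · rw [← hr]; field_simp
    · rw [G.A0, map_zero, zero_mul]
  have Rs : (c.place K).R s ε := by
    refine Place.of_eq ((c.place K).mul (c.place_poly K S) (Place.pow (Place.inv rB G.B0) 2)) ?_ ?_
    · rw [← hs]; field_simp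
    · have := G.B0
      rw [G.S0, map_mul, map_pow, map_intCast]; field_simp
  refine ⟨P, r, s, hP, hr, hs, ?_, Or.inr (Or.inl ⟨r, s, 0, ε, hP, Rr, Rs, ?_⟩), G.cop.ht hP hr⟩
  · obtain ⟨N, z, hz, eN⟩ := G.quasi
    have z0 : io K (C z) ≠ 0 := (map_ne_zero_iff _ inj).2 (C_ne_zero.2 hz)
    obtain ⟨q, hq⟩ : ∃ q, q * io K (C z * B) = io K N :=
      ⟨_, div_mul_cancel₀ _ (by rw [map_mul]; exact mul_ne_zero z0 hB)⟩
    refine QM.mk' (q := q) (by rw [hEg, hδ', derivative_C, map_zero]) hP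
      (Place.ne_zero Rs (by rcases G.hε with h | h <;> simp [h])) ?_ ?_
    · have e1 := congrArg δ.f hr
      have e2 := congrArg (io K) G.der
      rw [δ.mul, hδ', hδ'] at e1
      simp only [map_mul, map_sub, ← hr, ← hs, ← e1] at e2
      apply mul_left_cancel₀ (pow_ne_zero 2 hB)
      linear_combination e2
    · have e1 := congrArg δ.f hq
      have e2 := congrArg (io K) eN
      rw [δ.mul, hδ', hδ', derivative_C_mul] at e1
      simp only [map_mul, map_sub, map_add, map_pow, map_ofNat, ← hr, ← hq, ← e1] at e2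
      simp only [op, hEd, hδ', map_mul, map_add]
      apply mul_left_cancel₀ (mul_ne_zero z0 (pow_ne_zero 2 hB))
      linear_combination e2
  · rcases G.hε with h | h <;> subst h
    · simpa using hT
    · simpa using hT.neg

omit [IsDomain O] [IsNoetherianRing O] in
theorem ht_diff {g g' : O} {E : Par (RatFunc K)} (hEd : E.d = io K (DD g))
    (hEg : E.g = io K (C g')) {P Q : E.Pt} {r1 s1 r2 s2 : RatFunc K} {A1 B1 S1 A2 B2 S2 A B : O[X]}
    (h1 : E.Is P r1 s1) (a1 : r1 * io K B1 = io K A1) (b1 : s1 * io K B1 ^ 2 = io K S1)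
    (h2 : E.Is Q r2 s2) (a2 : r2 * io K B2 = io K A2) (b2 : s2 * io K B2 ^ 2 = io K S2)
    (n1 : B1 ≠ 0) (n2 : B2 ≠ 0) (hU : A1 * B2 - A2 * B1 ≠ 0) {d : ℕ} (h : Cop d A B)
    (e : C g' * (A1 * B2 * B + A2 * B1 * B + A * B1 * B2) * (A1 * B2 - A2 * B1) ^ 2 * (B1 * B2) =
      B * (DD g * (S1 * B2 ^ 2 + S2 * B1 ^ 2) ^ 2 - (A1 * B2 - A2 * B1) ^ 2 * (B1 * B2) ^ 2)) :
    ht E (P - Q) = d := by
  have inj := io_inj (O := O) K
  have hr : r1 - r2 ≠ 0 := by
    intro h0
    apply hU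
    apply inj
    simp only [map_sub, map_mul, ← a1, ← a2, map_zero]
    linear_combination io K B1 * io K B2 * h0
  obtain ⟨l, n, r3, c, e1, e2, k⟩ := add_col h1 h2.neg (fun hh => hr (sub_eq_zero.2 hh.1))
  rw [← sub_eq_add_neg] at k
  refine h.ht k ?_
  have l1 : s1 + s2 = l * (r1 - r2) := by linear_combination e1 - e2
  have f := congrArg (io K) e
  simp only [map_sub, map_mul, map_add, map_pow, ← a1, ← a2, ← b1, ← b2, ← hEd, ← hEg] at f
  have m1 : io K B1 ≠ 0 := (map_ne_zero_iff _ inj).2 n1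
  have m2 : io K B2 ≠ 0 := (map_ne_zero_iff _ inj).2 n2
  apply mul_left_cancel₀ (mul_ne_zero (mul_ne_zero E.hg (pow_ne_zero 2 hr))
    (pow_ne_zero 4 (mul_ne_zero m1 m2)))
  have c1 := c.e1
  linear_combination -f + (r1 - r2) ^ 2 * (io K B1 * io K B2) ^ 4 * io K B * c1 -
    io K B * E.d * (io K B1 * io K B2) ^ 4 * (s1 + s2 + l * (r1 - r2)) * l1

theorem core [CharZero O] [hp : Fact p.Prime] [CharP k p] [PerfectRing k p] (c : Ctx p O k)
    (p5 : 5 < p) {t g' : O} (hg : c.ρ (-4 * t) ≠ 0) (hΔ : 27 * c.ρ (-4 * t) + 4 ≠ 0)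
    (hg' : c.ρ g' ≠ 0) (hΔ' : 27 * c.ρ g' + 4 ≠ 0) {m1 n1 e1 m2 n2 e2 : O} {ε1 ε2 : ℤ}
    {d1 d2 d : ℕ} {A1 B1 S1 A2 B2 S2 A B : O[X]}
    (G1 : Gen c (-4 * t) g' m1 n1 e1 ε1 d1 A1 B1 S1)
    (G2 : Gen c (-4 * t) g' m2 n2 e2 ε2 d2 A2 B2 S2) (hU : A1 * B2 - A2 * B1 ≠ 0) (h : Cop d A B)
    (e : C g' * (A1 * B2 * B + A2 * B1 * B + A * B1 * B2) * (A1 * B2 - A2 * B1) ^ 2 * (B1 * B2) =
      B * (DD (-4 * t) * (S1 * B2 ^ 2 + S2 * B1 ^ 2) ^ 2 -
        (A1 * B2 - A2 * B1) ^ 2 * (B1 * B2) ^ 2)) {a b : ℤ}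
    (hd : a ^ 2 * d1 + b ^ 2 * d2 + a * b * (d1 + d2 - d) = p) (h3 : (a * ε1 + b * ε2) % 3 = 1)
    {u v : O} (huv : u * v = 1) (hm : a * m1 + b * m2 = p * v)
    (hn : (a * n1 + b * n2) * g' = u * (-4 * t)) :
    (p : O) ^ 2 ∣ ∑ j ∈ Finset.range p, (((2 * j).choose j * (3 * j).choose j : ℕ) : O) * t ^ j
      - u ∧
    (p : O) ^ 2 ∣ (27 * (-4 * t) + 4) *
      ∑ j ∈ Finset.range p, (j : O) * (((2 * j).choose j * (3 * j).choose j : ℕ) : O) * t ^ j -
      (3 * g' * (3 * (p * v) - (a * e1 + b * e2)) - 9 * (-4 * t) * u) := by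
  let K := FractionRing O
  have : CharZero K := charZero_of_injective_algebraMap (IsFractionRing.injective O K)
  have inj := io_inj (O := O) K
  obtain ⟨hf, hh⟩ := hp.out.odd_of_ne_two (by omega)
  have h2 : (2 : k) ≠ 0 := fun h2 => by
    have := Nat.le_of_dvd (by norm_num) ((CharP.cast_eq_zero_iff k p 2).1 (by exact_mod_cast h2))
    omega
  let E : Par (RatFunc K) := ⟨io K (DD (-4 * t)), io K (C g'),
    (map_ne_zero_iff _ inj).2 (DD_ne _),
    (map_ne_zero_iff _ inj).2 (C_ne_zero.2 fun h => hg' (by rw [h, map_zero])), two_ne_zero, by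
      rw [show 27 * io K (C g') + 4 = io K (C (27 * g' + 4)) by
        simp only [map_add, map_mul, map_ofNat]]
      refine (map_ne_zero_iff _ inj).2 (C_ne_zero.2 fun h => hΔ' ?_)
      simpa only [map_add, map_mul, map_ofNat, map_zero] using congrArg c.ρ h⟩
  let F : Par k := ⟨1, c.ρ g', one_ne_zero, hg', h2, hΔ'⟩
  obtain ⟨T, hT⟩ := exists_is (E := F) (r := 0) (s := 1) (by simp [On, F])
  have T3 : (3 : ℤ) • T = 0 := by
    have cc : F.Col (-1) 1 0 0 0 := ⟨by simp [F], by simp [F], by simp [F]⟩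
    have := col_add (P := T) (Q := T) cc (by simpa using hT) (by simpa using hT)
    rw [show (3 : ℤ) • T = T + (T + T) by abel]
    exact hT.add_eq_zero (by simpa using this)
  have good : Good (c.place K) E F :=
    ⟨Place.of_eq (c.place_poly K (DD (-4 * t))) rfl (by rw [DD_c0, map_one]),
      Place.of_eq (c.place_poly K (C g')) rfl (by rw [coeff_C_zero])⟩
  obtain ⟨δ, hδ⟩ := exists_der K
  obtain ⟨P, r1, s1, p1, p2, p3, p4, p5', p6⟩ := G1.point (E := E) rfl rfl hT hδ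
  obtain ⟨Q, r2, s2, q1, q2, q3, q4, q5, q6⟩ := G2.point (E := E) rfl rfl hT hδ
  have hD := ht_diff (E := E) rfl rfl p1 p2 p3 q1 q2 q3 G1.cop.ne G2.cop.ne hU h e
  have hγ : E.g = algebraMap K[X] (RatFunc K) (C (algebraMap O K g')) := by
    rw [← map_C, ← io_apply]
  have hq := ht_quad hγ P Q a b
  rw [p6, q6, hD, hd] at hq
  have dg : δ.f E.g = 0 := by rw [hγ, hδ, derivative_C, map_zero]
  have hred := (p5'.zsmul good a).add good (q5.zsmul good b)
  rw [smul_smul, smul_smul, ← add_smul, ← Int.emod_add_mul_ediv (a * ε1 + b * ε2) 3, h3, add_smul,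
    one_smul, mul_comm, ← smul_smul, T3, smul_zero, add_zero] at hred
  have hQ := (p4.zsmul dg a).add dg (q4.zsmul dg b)
  have x1 : (a : RatFunc K) * io K (C m1) + b * io K (C m2) = io K (C (p * v)) := by
    rw [← hm]; simp only [map_add, map_mul, map_intCast]
  have x2 : (a : RatFunc K) * io K (C n1 * X + C e1) + b * io K (C n2 * X + C e2) =
      io K (C (a * n1 + b * n2) * X + C (a * e1 + b * e2)) := by
    simp only [map_add, map_mul, map_intCast]; ring
  rw [x1, x2] at hQ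
  obtain ⟨A', B', S', N', f1, f2, f3, f4, f5, f6, f7, f8, -, f9⟩ :=
    frob_struct c hh (by omega) hg hΔ (E := E) rfl rfl hT hred (by exact_mod_cast hq.le) hδ huv hQ hn
  exact ser_poly c hp.out hh (by omega) h2 huv f1 f2 f3 f4 f5 f6 f7 f8 f9 hn

end Pool.Agent.Lib.MP_2eac29_nt
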