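import Mathlib

/-!
The twisted cubic `d s^2 = g r^3 + (1 - r)^2` and its group law.
-/

namespace Pool.Agent.Lib.MP_2eac29_nt

open WeierstrassCurve

structure Par (L : Type) [Field L] where
  d : L
  g : L
  hd : d ≠ 0
  hg : g ≠ 0
  h2 : (2 : L) ≠ 0
  hΔ : 27 * g + 4 ≠ 0

variable {L : Type} [Field L]

namespace Par

def W (E : Par L) : Affine L := ⟨0, E.d, 0, -2 * E.g * E.d ^ 2, E.g ^ 2 * E.d ^ 3⟩

abbrev Pt (E : Par L) : Type := E.W.Point

noncomputable instance (E : Par L) : AddCommGroup E.Pt := by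
  classical
  exact inferInstanceAs (AddCommGroup E.W.Point)

def On (E : Par L) (r s : L) : Prop := E.d * s ^ 2 = E.g * r ^ 3 + (1 - r) ^ 2

def Is (E : Par L) (P : E.Pt) (r s : L) : Prop :=
  ∃ h, P = Affine.Point.some (E.g * E.d * r) (E.g * E.d ^ 2 * s) h

variable {E : Par L}

theorem on_iff (r s : L) : E.W.Equation (E.g * E.d * r) (E.g * E.d ^ 2 * s) ↔ E.On r s := by
  rw [Affine.equation_iff]
  simp only [W, On]
  have h : E.g ^ 2 * E.d ^ 3 ≠ 0 := mul_ne_zero (pow_ne_zero _ E.hg) (pow_ne_zero _ E.hd)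
  constructor
  · intro h1
    apply mul_left_cancel₀ h
    linear_combination h1
  · intro h1
    linear_combination (E.g ^ 2 * E.d ^ 3) * h1

theorem delta_ne : E.W.Δ ≠ 0 := by
  have : E.W.Δ = -(2 ^ 4 * E.g ^ 3 * E.d ^ 6 * (27 * E.g + 4)) := by
    simp only [W, WeierstrassCurve.Δ, WeierstrassCurve.b₂, WeierstrassCurve.b₄,
      WeierstrassCurve.b₆, WeierstrassCurve.b₈]
    ring
  rw [this, neg_ne_zero]
  exact mul_ne_zero (mul_ne_zero (mul_ne_zero (pow_ne_zero _ E.h2) (pow_ne_zero _ E.hg))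
    (pow_ne_zero _ E.hd)) E.hΔ

theorem exists_is {r s : L} (h : E.On r s) : ∃ P, E.Is P r s :=
  ⟨_, (Affine.equation_iff_nonsingular_of_Δ_ne_zero delta_ne).1 ((on_iff r s).2 h), rfl⟩

theorem Is.on {P : E.Pt} {r s : L} (h : E.Is P r s) : E.On r s := (on_iff r s).1 h.1.1

theorem Is.ne_zero {P : E.Pt} {r s : L} (h : E.Is P r s) : P ≠ 0 := by
  obtain ⟨h, rfl⟩ := h
  exact Affine.Point.some_ne_zero h

theorem Is.eq {P Q : E.Pt} {r s : L} (h : E.Is P r s) (h' : E.Is Q r s) : P = Q := by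
  obtain ⟨h, rfl⟩ := h
  obtain ⟨h', rfl⟩ := h'
  rfl

theorem Is.unique {P : E.Pt} {r s r' s' : L} (h : E.Is P r s) (h' : E.Is P r' s') :
    r = r' ∧ s = s' := by
  obtain ⟨h, rfl⟩ := h
  obtain ⟨h', e⟩ := h'
  rw [Affine.Point.some.injEq] at e
  exact ⟨mul_left_cancel₀ (mul_ne_zero E.hg E.hd) e.1,
    mul_left_cancel₀ (mul_ne_zero E.hg (pow_ne_zero _ E.hd)) e.2⟩

theorem cases (P : E.Pt) : P = 0 ∨ ∃ r s, E.Is P r s := by
  rcases P with _ | ⟨x, y, h⟩
  · exact Or.inl rfl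
  · have h1 : E.g * E.d * (x / (E.g * E.d)) = x := by field_simp [E.hg, E.hd]
    have h2 : E.g * E.d ^ 2 * (y / (E.g * E.d ^ 2)) = y := by field_simp [E.hg, E.hd]
    refine Or.inr ⟨x / (E.g * E.d), y / (E.g * E.d ^ 2), by rw [h1, h2]; exact h, ?_⟩
    simp only [h1, h2]

theorem negY_eq (x s : L) : E.W.negY x (E.g * E.d ^ 2 * s) = E.g * E.d ^ 2 * -s := by
  simp [Affine.negY, W]

theorem Is.neg {P : E.Pt} {r s : L} (h : E.Is P r s) : E.Is (-P) r (-s) := by
  obtain ⟨h, rfl⟩ := h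
  refine ⟨negY_eq (E := E) (E.g * E.d * r) s ▸ (Affine.nonsingular_neg ..).2 h, ?_⟩
  show Affine.Point.neg _ = _
  simp only [Affine.Point.neg, negY_eq]

theorem Is.add_eq_zero {P Q : E.Pt} {r s : L} (h : E.Is P r s) (h' : E.Is Q r (-s)) :
    P + Q = 0 := by
  rw [h'.eq h.neg, add_neg_cancel]

theorem On.nonsing {r : L} (h : E.On r 0) : 3 * E.g * r ^ 2 + 2 * r - 2 ≠ 0 := by
  intro h1
  simp only [On] at h
  apply mul_ne_zero E.hg E.hΔ
  linear_combination (-(4 + 30 * E.g + 27 * E.g ^ 2 + (6 * E.g + 36 * E.g ^ 2) * r)) * h +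
    (2 + 13 * E.g + (-2 - 14 * E.g - 9 * E.g ^ 2) * r + (-2 * E.g - 12 * E.g ^ 2) * r ^ 2) * h1

/-- the line `s = l r + n` meets the cubic in the points with abscissae `a, b, c` -/
structure Col (E : Par L) (l n a b c : L) : Prop where
  e1 : E.g * (a + b + c) = E.d * l ^ 2 - 1
  e2 : E.g * (a * b + a * c + b * c) = -2 - 2 * E.d * l * n
  e3 : E.g * (a * b * c) = E.d * n ^ 2 - 1

theorem Col.swap12 {l n a b c : L} (h : E.Col l n a b c) : E.Col l n b a c :=
  ⟨by linear_combination h.e1, by linear_combination h.e2, by linear_combination h.e3⟩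

theorem Col.swap23 {l n a b c : L} (h : E.Col l n a b c) : E.Col l n a c b :=
  ⟨by linear_combination h.e1, by linear_combination h.e2, by linear_combination h.e3⟩

theorem Col.on {l n a b c : L} (h : E.Col l n a b c) : E.On a (l * a + n) := by
  simp only [On]
  linear_combination (-a ^ 2) * h.e1 + a * h.e2 - h.e3

theorem Col.der {l n a b c : L} (h : E.Col l n a b c) :
    3 * E.g * a ^ 2 + 2 * a - 2 = 2 * E.d * l * (l * a + n) + E.g * (a - b) * (a - c) := by
  linear_combination (2 * a) * h.e1 - h.e2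

theorem add_col {P Q : E.Pt} {r1 s1 r2 s2 : L} (h1 : E.Is P r1 s1) (h2 : E.Is Q r2 s2)
    (hne : ¬ (r1 = r2 ∧ s1 = -s2)) : ∃ l n r3, E.Col l n r1 r2 r3 ∧ s1 = l * r1 + n ∧
      s2 = l * r2 + n ∧ E.Is (P + Q) r3 (-(l * r3 + n)) := by
  classical
  have o1 := h1.on
  have o2 := h2.on
  simp only [On] at o1 o2
  obtain ⟨k1, rfl⟩ := h1
  obtain ⟨k2, rfl⟩ := h2
  have hgd : E.g * E.d ≠ 0 := mul_ne_zero E.hg E.hd
  have hgd2 : E.g * E.d ^ 2 ≠ 0 := mul_ne_zero E.hg (pow_ne_zero _ E.hd)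
  have hxy : ¬ (E.g * E.d * r1 = E.g * E.d * r2 ∧
      E.g * E.d ^ 2 * s1 = E.W.negY (E.g * E.d * r2) (E.g * E.d ^ 2 * s2)) := by
    rw [negY_eq]
    exact fun h => hne ⟨mul_left_cancel₀ hgd h.1, mul_left_cancel₀ hgd2 h.2⟩
  have hd := E.hd
  have hg := E.hg
  obtain ⟨l, hl, l1, l2⟩ : ∃ l, E.W.slope (E.g * E.d * r1) (E.g * E.d * r2) (E.g * E.d ^ 2 * s1)
      (E.g * E.d ^ 2 * s2) = E.d * l ∧ s1 - s2 = l * (r1 - r2) ∧
      l * E.d * (s1 + s2) = E.g * (r1 ^ 2 + r1 * r2 + r2 ^ 2) + r1 + r2 - 2 := by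
    by_cases hr : r1 = r2
    · subst hr
      have hs : s1 = s2 := by
        have : (s1 - s2) * (s1 + s2) = 0 := by
          apply mul_left_cancel₀ hd
          linear_combination o1 - o2
        rcases mul_eq_zero.1 this with h | h
        · linear_combination h
        · exact absurd ⟨rfl, by linear_combination h⟩ hne
      subst hs
      have hs0 : s1 ≠ 0 := fun h => hne ⟨rfl, by rw [h, neg_zero]⟩
      have h2 := E.h2
      refine ⟨(3 * E.g * r1 ^ 2 + 2 * r1 - 2) / (2 * E.d * s1), ?_, by simp, ?_⟩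
      · rw [Affine.slope_of_Y_ne rfl (fun h => hxy ⟨rfl, h⟩), negY_eq]
        simp only [W]
        rw [show E.g * E.d ^ 2 * s1 - E.g * E.d ^ 2 * -s1 = 2 * E.g * E.d ^ 2 * s1 by ring]
        field_simp
        ring
      · field_simp
        ring
    · have hr' : r1 - r2 ≠ 0 := sub_ne_zero.2 hr
      refine ⟨(s1 - s2) / (r1 - r2), ?_, by field_simp, ?_⟩
      · rw [Affine.slope_of_X_ne (fun h => hr (mul_left_cancel₀ hgd h)), ← mul_sub, ← mul_sub]
        field_simp
      · field_simp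
        linear_combination o1 - o2
  obtain ⟨r3, hr3⟩ : ∃ r3, E.g * r3 = E.d * l ^ 2 - 1 - E.g * (r1 + r2) :=
    ⟨(E.d * l ^ 2 - 1) / E.g - r1 - r2, by field_simp; ring⟩
  refine ⟨l, s1 - l * r1, r3, ⟨by linear_combination hr3, ?_, ?_⟩, by ring,
    by linear_combination -l1, ?_⟩
  · linear_combination (r1 + r2) * hr3 + l2 + E.d * l * l1
  · linear_combination (r1 * r2) * hr3 - o1 + r1 * l2 + r1 * E.d * l * l1
  · have e := Affine.Point.add_some hxy (h₁ := k1) (h₂ := k2)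
    have eX : E.W.addX (E.g * E.d * r1) (E.g * E.d * r2) (E.d * l) = E.g * E.d * r3 := by
      simp only [Affine.addX, W]
      linear_combination (-E.d) * hr3
    have eY : E.W.addY (E.g * E.d * r1) (E.g * E.d * r2) (E.g * E.d ^ 2 * s1) (E.d * l) =
        E.g * E.d ^ 2 * -(l * r3 + (s1 - l * r1)) := by
      rw [Affine.addY, Affine.negAddY, eX]
      simp only [Affine.negY, W]
      ring
    have k3 := Affine.nonsingular_add k1 k2 hxy
    refine ⟨by rw [hl, eX, eY] at k3; exact k3, ?_⟩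
    refine e.trans ?_
    simp only [hl, eX, eY]

theorem col_add {P Q : E.Pt} {l n r1 r2 r3 : L} (h : E.Col l n r1 r2 r3)
    (h1 : E.Is P r1 (l * r1 + n)) (h2 : E.Is Q r2 (l * r2 + n)) :
    E.Is (P + Q) r3 (-(l * r3 + n)) := by
  have hs : r1 = r2 → l * r1 + n ≠ 0 := by
    rintro rfl h0
    have := h.der
    rw [h0] at this
    exact On.nonsing (h0 ▸ h1.on) (by linear_combination this)
  obtain ⟨l', n', r3', c, a1, a2, a3⟩ := add_col h1 h2 (by
    rintro ⟨rfl, e⟩
    apply hs rfl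
    apply mul_left_cancel₀ E.h2
    linear_combination e)
  have hl : l = l' := by
    by_cases hr : r1 = r2
    · have := hs hr
      subst hr
      have d1 := h.der
      have d2 := c.der
      rw [← a1] at d2
      apply mul_left_cancel₀ (mul_ne_zero (mul_ne_zero E.h2 E.hd) this)
      linear_combination d2 - d1
    · apply mul_right_cancel₀ (sub_ne_zero.2 hr)
      linear_combination a1 - a2
  subst hl
  have hn : n = n' := by linear_combination a1
  subst hn
  have : r3 = r3' := by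
    apply mul_left_cancel₀ E.hg
    linear_combination h.e1 - c.e1
  rwa [this]

end Par

end Pool.Agent.Lib.MP_2eac29_nt
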