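import Mathlib

/-!
The sequences of the problem.
-/

namespace Pool.Agent.Lib.MP_2eac29_nt

/-- `a_k = C(2k,k) C(3k,k) / 27^k` -/
def aSeq (k : ℕ) : ℚ := (((2 * k).choose k : ℚ) * ((3 * k).choose k : ℚ)) / 27 ^ k

/-- the Lucas numbers `2, 1, 3, 4, 7, ...` -/
def lucas : ℕ → ℕ
  | 0 => 2
  | 1 => 1
  | n + 2 => lucas (n + 1) + lucas n

end Pool.Agent.Lib.MP_2eac29_nt
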