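import Pool.Agent.Lib.MP_2eac29_nt.Core

/-!
Explicit isogenies for the two curves with complex multiplication of discriminant `-15`.
-/

namespace Pool.Agent.Lib.MP_2eac29_nt

open Polynomial

variable {p : ℕ} {O k : Type} [CommRing O] [Field k]

noncomputable def P4 (a0 a1 a2 a3 a4 : O) : O[X] :=
  C a0 + C a1 * X + C a2 * X ^ 2 + C a3 * X ^ 3 + C a4 * X ^ 4

theorem P4_der (a0 a1 a2 a3 a4 : O) :
    derivative (P4 a0 a1 a2 a3 a4) = P4 a1 (2 * a2) (3 * a3) (4 * a4) 0 := by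
  simp only [P4, derivative_add, derivative_mul, derivative_C, derivative_X, derivative_X_pow,
    map_mul, map_natCast, map_ofNat, map_zero]
  push_cast
  ring

theorem P4_c0 (a0 a1 a2 a3 a4 : O) : (P4 a0 a1 a2 a3 a4).coeff 0 = a0 := by simp [P4]

theorem P4_c2 (a0 a1 a2 a3 a4 : O) : (P4 a0 a1 a2 a3 a4).coeff 2 = a2 := by
  simp [P4, coeff_X, coeff_C]

theorem P4_c3 (a0 a1 a2 a3 a4 : O) : (P4 a0 a1 a2 a3 a4).coeff 3 = a3 := by
  simp [P4, coeff_X, coeff_C]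

theorem P4_c4 (a0 a1 a2 a3 a4 : O) : (P4 a0 a1 a2 a3 a4).coeff 4 = a4 := by
  simp [P4, coeff_X, coeff_C]

theorem P4_le4 (a0 a1 a2 a3 a4 : O) : (P4 a0 a1 a2 a3 a4).natDegree ≤ 4 := by
  unfold P4; compute_degree

theorem P4_le3 (a0 a1 a2 a3 : O) : (P4 a0 a1 a2 a3 0).natDegree ≤ 3 := by
  rw [P4, C_0, zero_mul, add_zero]; compute_degree

theorem P4_le2 (a0 a1 a2 : O) : (P4 a0 a1 a2 0 0).natDegree ≤ 2 := by
  rw [P4, C_0, zero_mul, add_zero, zero_mul, add_zero]; compute_degree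

theorem max_deg {A B : O[X]} {d : ℕ} (h1 : A.natDegree ≤ d) (h2 : B.natDegree ≤ d)
    (h3 : A.coeff d ≠ 0) : max A.natDegree B.natDegree = d :=
  le_antisymm (max_le h1 h2) (le_max_of_le_left (le_natDegree_of_ne_zero h3))

theorem ne_of_coeff {B : O[X]} (i : ℕ) (h : B.coeff i ≠ 0) : B ≠ 0 := by
  rintro rfl; simp at h

theorem gen_id (c : Ctx p O k) (g : O) : Gen c g g 1 1 0 1 1 X 1 1 := by
  have : Nontrivial O := c.ρ.domain_nontrivial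
  refine ⟨⟨⟨0, 1, 1, one_ne_zero, by simp⟩, by simp, one_ne_zero⟩, Or.inl rfl, by simp, by simp,
    by simp, by simp [DD], by simp, 0, 1, one_ne_zero, by simp⟩

noncomputable def alA (μ : O) : O[X] :=
  P4 0 (-54 * μ ^ 2) (36 + 36 * μ ^ 2) (-12 - 12 * μ - 3 * μ ^ 2 - 3 * μ ^ 3) (μ + μ ^ 2)

noncomputable def alB (μ : O) : O[X] :=
  P4 (54) (-72 - 18 * μ ^ 2) (24 + 6 * μ + 15 * μ ^ 2 - 3 * μ ^ 3) (-4 - 4 * μ - 3 * μ ^ 2 + μ ^
    3) 0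

noncomputable def alS (μ : O) : O[X] :=
  (-2916) + (4860 - 972 * C μ ^ 2) * X + (-3564 - 648 * C μ + 1296 * C μ ^ 2 + 324 * C μ ^ 3) * X
    ^ 2 + (1080 + 918 * C μ - 648 * C μ ^ 2 - 270 * C μ ^ 3) * X ^ 3 + (-360 - 288 * C μ + 72 * C
    μ ^ 2 + 36 * C μ ^ 3) * X ^ 4 + (60 + 54 * C μ + 24 * C μ ^ 2 - 18 * C μ ^ 3) * X ^ 5 + (-8 -
    8 * C μ - 2 * C μ ^ 2 + 2 * C μ ^ 3) * X ^ 6

noncomputable def alN (μ : O) : O[X] :=
  P4 (486 - 243 * μ - 243 * μ ^ 2 + 486 * μ ^ 3) (-486 + 567 * μ - 405 * μ ^ 3) (-162 * μ + 81 * μ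
    ^ 2 + 81 * μ ^ 3) 0 0

theorem al_cop [CharZero O] {μ : O} (hμ : μ ^ 4 - μ ^ 2 + 4 = 0) :
    Cop 4 (alA μ) (alB μ) := by
  have hM : C μ ^ 4 - C μ ^ 2 + 4 = 0 := by
    simpa only [map_add, map_sub, map_pow, map_ofNat, map_zero] using congrArg C hμ
  refine ⟨⟨(-540 - 396 * C μ + 1071 * C μ ^ 2 + 45 * C μ ^ 3) + (960 + 96 * C μ - 528 * C μ ^ 2 +
    24 * C μ ^ 3) * X + (-276 - 4 * C μ + 97 * C μ ^ 2 + 45 * C μ ^ 3) * X ^ 2,
    (1458) + (-2340 - 180 * C μ + 1017 * C μ ^ 2 - 351 * C μ ^ 3) * X + (204 + 354 * C μ - 126 * C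
    μ ^ 2 - 240 * C μ ^ 3) * X ^ 2 + (-76 - 12 * C μ + 7 * C μ ^ 2 + 11 * C μ ^ 3) * X ^ 3,
    78732, by norm_num, ?_⟩, ?_, ?_⟩
  · linear_combination (norm := (simp only [alA, alB, P4, DD, map_add, map_mul, map_pow, map_neg,
      map_sub, map_ofNat, map_zero, map_one]; ring1)) ((-57834 - 2430 * C μ) * X + (48762 + 6642 *
      C μ) * X ^ 2 + (-9936 - 8910 * C μ + 918 * C μ ^ 2) * X ^ 3 + (-432 + 1827 * C μ + 297 * C μ
      ^ 2) * X ^ 4 + (168 + 336 * C μ - 408 * C μ ^ 2) * X ^ 5 + (76 + 19 * C μ + 11 * C μ ^ 2) *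
      X ^ 6) * hM
  · refine max_deg (P4_le4 ..) (P4_le4 ..) ?_
    rw [alA, P4_c4]
    exact fun h => (by norm_num : (4 : O) ≠ 0) (by linear_combination (μ - μ ^ 2) * h - (-1) * hμ)
  · refine ne_of_coeff 0 ?_
    rw [alB, P4_c0]
    norm_num

theorem gen_alpha [IsDomain O] [CharZero O] (c : Ctx p O k) (h6 : (6 : k) ≠ 0)
    {μ g m n e : O} (hμ : μ ^ 4 - μ ^ 2 + 4 = 0) (hg : 27 * g = (-2 - 3 * μ + μ ^ 3))
    (hm : 4 * m = (4 * μ ^ 2)) (hn : 4 * n = (4 - 4 * μ ^ 2))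
    (he : 4 * e = (6 * μ + 6 * μ ^ 3)) :
    Gen c g g m n e (-1) 4 (alA μ) (alB μ) (alS μ) := by
  have hM : C μ ^ 4 - C μ ^ 2 + 4 = 0 := by
    simpa only [map_add, map_sub, map_pow, map_ofNat, map_zero] using congrArg C hμ
  have hG : 27 * C g = (-2 - 3 * C μ + C μ ^ 3) := by
    simpa only [map_add, map_sub, map_pow, map_ofNat, map_mul, map_neg] using congrArg C hg
  have hm1 : 4 * C m = (4 * C μ ^ 2) := by
    simpa only [map_add, map_sub, map_pow, map_ofNat, map_mul, map_neg] using congrArg C hm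
  have hn1 : 4 * C n = (4 - 4 * C μ ^ 2) := by
    simpa only [map_add, map_sub, map_pow, map_ofNat, map_mul, map_neg] using congrArg C hn
  have he1 : 4 * C e = (6 * C μ + 6 * C μ ^ 3) := by
    simpa only [map_add, map_sub, map_pow, map_ofNat, map_mul, map_neg] using congrArg C he
  refine ⟨al_cop hμ, by simp, ?_, P4_c0 .., ?_, ?_, ?_, alN μ, 2, by norm_num, ?_⟩
  · rw [alB, P4_c0, map_ofNat]
    exact fun h => pow_ne_zero 3 h6 (by linear_combination 4 * h)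
  · rw [alB, P4_c0]
    simp [alS]
    norm_num
  · apply mul_left_cancel₀ (by norm_num : (27 : O[X]) ≠ 0)
    linear_combination (norm := (simp only [alA, alB, alS, P4, DD, map_add, map_mul, map_pow,
      map_neg, map_sub, map_ofNat, map_zero, map_one]; ring1)) X ^ 3 * alS μ ^ 2 * hG - alB μ *
      alA μ ^ 3 * hG + ((102036672) * X ^ 2 + (-433655856 - 42515280 * C μ + 17006112 * C μ ^ 2 -
      17006112 * C μ ^ 3 + 8503056 * C μ ^ 5) * X ^ 3 + (762440688 + 198404640 * C μ - 55269864 *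
      C μ ^ 2 + 48183984 * C μ ^ 3 - 5668704 * C μ ^ 4 - 22674816 * C μ ^ 5 - 2834352 * C μ ^ 7) *
      X ^ 4 + (-736931520 - 378858384 * C μ + 59993784 * C μ ^ 2 - 51018336 * C μ ^ 3 + 18423288 *
      C μ ^ 4 + 27871128 * C μ ^ 5 + 3306744 * C μ ^ 6 + 8030664 * C μ ^ 7 - 472392 * C μ ^ 8) * X
      ^ 5 + (446804100 + 384054696 * C μ - 11179944 * C μ ^ 2 + 18108360 * C μ ^ 3 - 25351704 * C
      μ ^ 4 - 24406920 * C μ ^ 5 - 8266860 * C μ ^ 6 - 9447840 * C μ ^ 7 + 629856 * C μ ^ 8) * X ^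
      6 + (-188379432 - 233046720 * C μ - 28920888 * C μ ^ 2 + 8922960 * C μ ^ 3 + 20496564 * C μ
      ^ 4 + 19630512 * C μ ^ 5 + 8739252 * C μ ^ 6 + 6219828 * C μ ^ 7 - 78732 * C μ ^ 9) * X ^ 7
      + (59713848 + 93761064 * C μ + 27162540 * C μ ^ 2 - 10838772 * C μ ^ 3 - 12080988 * C μ ^ 4
      - 12903300 * C μ ^ 5 - 5386581 * C μ ^ 6 - 2781864 * C μ ^ 7 - 360855 * C μ ^ 8 + 104976 * C
      μ ^ 9) * X ^ 8 + (-15192360 - 27629100 * C μ - 11920608 * C μ ^ 2 + 4166964 * C μ ^ 3 +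
      5939892 * C μ ^ 4 + 5591430 * C μ ^ 5 + 2411532 * C μ ^ 6 + 997272 * C μ ^ 7 + 202662 * C μ
      ^ 8 - 39366 * C μ ^ 9 - 4374 * C μ ^ 10) * X ^ 9 + (3360204 + 6399648 * C μ + 3637224 * C μ
      ^ 2 - 821340 * C μ ^ 3 - 2162214 * C μ ^ 4 - 1560060 * C μ ^ 5 - 861435 * C μ ^ 6 - 281880 *
      C μ ^ 7 - 52731 * C μ ^ 8 + 2916 * C μ ^ 9 + 3888 * C μ ^ 10) * X ^ 10 + (-647352 - 1270728
      * C μ - 902664 * C μ ^ 2 + 59130 * C μ ^ 3 + 473202 * C μ ^ 4 + 349596 * C μ ^ 5 + 210438 *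
      C μ ^ 6 + 58401 * C μ ^ 7 + 13122 * C μ ^ 8 - 1134 * C μ ^ 9 - 810 * C μ ^ 10 - 81 * C μ ^
      11) * X ^ 11 + (103356 + 215676 * C μ + 185706 * C μ ^ 2 + 28674 * C μ ^ 3 - 64287 * C μ ^ 4
      - 63504 * C μ ^ 5 - 31050 * C μ ^ 6 - 10719 * C μ ^ 7 - 2106 * C μ ^ 8 + 486 * C μ ^ 9 + 81
      * C μ ^ 10 + 27 * C μ ^ 11) * X ^ 12 + (-12024 - 28620 * C μ - 29520 * C μ ^ 2 - 9864 * C μ
      ^ 3 + 5040 * C μ ^ 4 + 7119 * C μ ^ 5 + 3645 * C μ ^ 6 + 1368 * C μ ^ 7 + 54 * C μ ^ 8 - 27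
      * C μ ^ 9 - 27 * C μ ^ 10) * X ^ 13 + (912 + 2496 * C μ + 2952 * C μ ^ 2 + 1512 * C μ ^ 3 -
      102 * C μ ^ 4 - 591 * C μ ^ 5 - 309 * C μ ^ 6 - 78 * C μ ^ 7 + 3 * C μ ^ 8 + 9 * C μ ^ 9) *
      X ^ 14 + (-32 - 112 * C μ - 152 * C μ ^ 2 - 86 * C μ ^ 3 + 5 * C μ ^ 4 + 30 * C μ ^ 5 + 12 *
      C μ ^ 6 - C μ ^ 8) * X ^ 15) * hM
  · apply mul_left_cancel₀ (by norm_num : (4 : O[X]) ≠ 0)
    rw [alA, alB, P4_der, P4_der]
    linear_combination (norm := (simp only [alS, P4, DD, map_add, map_mul, map_pow, map_neg,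
      map_sub, map_ofNat, map_zero, map_one]; ring1)) -alS μ * hm1 + ((3888) * X + (-4536 - 1944 *
      C μ) * X ^ 2 + (1728 + 1944 * C μ) * X ^ 3 + (-144 - 432 * C μ + 36 * C μ ^ 2) * X ^ 4 + (48
      * C μ) * X ^ 5 + (-4 * C μ) * X ^ 6) * hM
  · apply mul_left_cancel₀ (by norm_num : (108 : O[X]) ≠ 0)
    rw [DD_der]
    linear_combination (norm := (simp only [alA, alB, alN, P4_der]; simp only [P4, DD, map_add, map_mul,
      map_pow, map_neg, map_sub, map_ofNat, map_zero, map_one]; ring1)) 108 * alA μ * alB μ * hm1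
      - 108 * X * alB μ ^ 2 * hn1 - 108 * alB μ ^ 2 * he1 - 4 * (2 * X ^ 3 * (derivative (alN μ) *
      alB μ - alN μ * derivative (alB μ)) + 3 * X ^ 2 * alN μ * alB μ) * hG + ((944784 - 1889568 *
      C μ) + (-2834352 + 6613488 * C μ - 629856 * C μ ^ 2) * X + (2886840 - 8713008 * C μ +
      1837080 * C μ ^ 2 - 209952 * C μ ^ 3) * X ^ 2 + (-1067256 + 5406264 * C μ - 1627128 * C μ ^
      2 + 402408 * C μ ^ 3 - 34992 * C μ ^ 4) * X ^ 3 + (81648 - 1615464 * C μ + 463644 * C μ ^ 2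
      - 192456 * C μ ^ 3 + 26244 * C μ ^ 4 - 11664 * C μ ^ 5) * X ^ 4 + (-31104 + 221616 * C μ -
      1944 * C μ ^ 2 + 14580 * C μ ^ 3 + 9720 * C μ ^ 4 + 4860 * C μ ^ 5) * X ^ 5 + (16848 - 5184
      * C μ - 9396 * C μ ^ 2 - 6804 * C μ ^ 4 + 648 * C μ ^ 5) * X ^ 6 + (-1728 - 2160 * C μ - 432
      * C μ ^ 2 + 1404 * C μ ^ 3 + 1080 * C μ ^ 4 - 324 * C μ ^ 5) * X ^ 7) * hM

noncomputable def d1A (μ : O) : O[X] :=
  P4 0 (-108 + 108 * μ ^ 2) (144 - 72 * μ ^ 2) (-30 - 3 * μ + 6 * μ ^ 2 + 15 * μ ^ 3) (2 + μ - 2 *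
    μ ^ 2 - μ ^ 3)

noncomputable def d1B (μ : O) : O[X] :=
  P4 (108) (-180 + 36 * μ ^ 2) (78 + 15 * μ - 30 * μ ^ 2 - 3 * μ ^ 3) (-14 - 7 * μ + 6 * μ ^ 2 + 3
    * μ ^ 3) 0

theorem d1_cop [CharZero O] {μ : O} (hμ : μ ^ 4 - μ ^ 2 + 4 = 0) :
    Cop 4 (d1A μ) (d1B μ) := by
  have hM : C μ ^ 4 - C μ ^ 2 + 4 = 0 := by
    simpa only [map_add, map_sub, map_pow, map_ofNat, map_zero] using congrArg C hμ
  refine ⟨⟨(1062 - 531 * C μ - 2142 * C μ ^ 2 + 351 * C μ ^ 3) + (864 + 24 * C μ + 1056 * C μ ^ 2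
    - 120 * C μ ^ 3) * X + (-358 - 139 * C μ - 194 * C μ ^ 2 - 41 * C μ ^ 3) * X ^ 2,
    (2916) + (-2646 + 873 * C μ - 2034 * C μ ^ 2 + 531 * C μ ^ 3) * X + (156 + 1074 * C μ + 252 *
    C μ ^ 2 - 114 * C μ ^ 3) * X ^ 2 + (-138 - 45 * C μ - 14 * C μ ^ 2 + C μ ^ 3) * X ^ 3,
    314928, by norm_num, ?_⟩, ?_, ?_⟩
  · linear_combination (norm := (simp only [d1A, d1B, P4, DD, map_add, map_mul, map_pow, map_neg,
      map_sub, map_ofNat, map_zero, map_one]; ring1)) ((-231336 + 37908 * C μ) * X + (195048 -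
      19116 * C μ) * X ^ 2 + (-39744 - 39744 * C μ + 3672 * C μ ^ 2) * X ^ 3 + (-324 + 19296 * C μ
      - 216 * C μ ^ 2) * X ^ 4 + (-120 - 3888 * C μ - 840 * C μ ^ 2) * X ^ 5 + (304 + 240 * C μ +
      44 * C μ ^ 2) * X ^ 6) * hM
  · refine max_deg (P4_le4 ..) (P4_le4 ..) ?_
    rw [d1A, P4_c4]
    exact fun h => (by norm_num : (16 : O) ≠ 0) (by linear_combination (-2 + μ + 2 * μ ^ 2 - μ ^
      3) * h - (-5 + μ ^ 2) * hμ)
  · refine ne_of_coeff 0 ?_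
    rw [d1B, P4_c0]
    norm_num

theorem diff_one [IsDomain O] [CharZero O] {μ g : O} (hμ : μ ^ 4 - μ ^ 2 + 4 = 0)
    (hg : 27 * g = (-2 - 3 * μ + μ ^ 3)) :
    C g * (X * alB μ * d1B μ + alA μ * 1 * d1B μ + d1A μ * 1 * alB μ) *
      (X * alB μ - alA μ * 1) ^ 2 * (1 * alB μ) =
    d1B μ * (DD g * (1 * alB μ ^ 2 + alS μ * 1 ^ 2) ^ 2 -
      (X * alB μ - alA μ * 1) ^ 2 * (1 * alB μ) ^ 2) := by
  have hM : C μ ^ 4 - C μ ^ 2 + 4 = 0 := by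
    simpa only [map_add, map_sub, map_pow, map_ofNat, map_zero] using congrArg C hμ
  have hG : 27 * C g = (-2 - 3 * C μ + C μ ^ 3) := by
    simpa only [map_add, map_sub, map_pow, map_ofNat, map_mul, map_neg] using congrArg C hg
  have hU : X * alB μ - alA μ * 1 =
      (54 + 54 * C μ ^ 2) * X + (-108 - 54 * C μ ^ 2) * X ^ 2 + (36 + 18 * C μ + 18 * C μ ^ 2) * X
      ^ 3 + (-4 - 5 * C μ - 4 * C μ ^ 2 + C μ ^ 3) * X ^ 4 := by
    linear_combination (norm := (simp only [alA, alB, P4, DD, map_add, map_mul, map_pow, map_neg,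
      map_sub, map_ofNat, map_zero, map_one]; ring1)) (0) * hM
  have hT : 1 * alB μ ^ 2 + alS μ * 1 ^ 2 =
      (-2916 - 2916 * C μ ^ 2) * X + (2916 + 5832 * C μ ^ 2) * X ^ 2 + (-648 - 810 * C μ - 4536 *
      C μ ^ 2 + 162 * C μ ^ 3) * X ^ 3 + (-432 + 1080 * C μ + 1674 * C μ ^ 2 - 54 * C μ ^ 3) * X ^
      4 + (108 - 378 * C μ - 324 * C μ ^ 2 - 54 * C μ ^ 3) * X ^ 5 + (48 * C μ + 36 * C μ ^ 2 + 12
      * C μ ^ 3) * X ^ 6 := by
    linear_combination (norm := (simp only [alB, alS, P4, DD, map_add, map_mul, map_pow, map_neg,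
      map_sub, map_ofNat, map_zero, map_one]; ring1)) ((324) * X ^ 2 + (-540 + 108 * C μ) * X ^ 3
      + (306 - 126 * C μ + 9 * C μ ^ 2) * X ^ 4 + (-60 + 48 * C μ - 6 * C μ ^ 2) * X ^ 5 + (2 - 6
      * C μ + C μ ^ 2) * X ^ 6) * hM
  have hV : X * alB μ * d1B μ + alA μ * 1 * d1B μ + d1A μ * 1 * alB μ =
      (17496) * X ^ 2 + (-23328) * X ^ 3 + (7776 + 2916 * C μ - 972 * C μ ^ 3) * X ^ 4 + (648 -
      1944 * C μ + 648 * C μ ^ 3) * X ^ 5 + (-540 + 162 * C μ - 54 * C μ ^ 3) * X ^ 6 + (108 + 54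
      * C μ - 18 * C μ ^ 3) * X ^ 7 := by
    linear_combination (norm := (simp only [alA, alB, d1A, d1B, P4, DD, map_add, map_mul, map_pow,
      map_neg, map_sub, map_ofNat, map_zero, map_one]; ring1)) ((-3888) * X ^ 2 + (5184 - 162 * C
      μ) * X ^ 3 + (-1944 - 378 * C μ) * X ^ 4 + (18 + 387 * C μ - 27 * C μ ^ 2) * X ^ 5 + (57 -
      72 * C μ - 3 * C μ ^ 2) * X ^ 6 + (-15 + C μ + 2 * C μ ^ 2) * X ^ 7) * hM
  have hB : 1 * alB μ =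
      (54) + (-72 - 18 * C μ ^ 2) * X + (24 + 6 * C μ + 15 * C μ ^ 2 - 3 * C μ ^ 3) * X ^ 2 + (-4
      - 4 * C μ - 3 * C μ ^ 2 + C μ ^ 3) * X ^ 3 := by
    linear_combination (norm := (simp only [alB, P4, DD, map_add, map_mul, map_pow, map_neg,
      map_sub, map_ofNat, map_zero, map_one]; ring1)) (0) * hM
  apply mul_left_cancel₀ (by norm_num : (27 : O[X]) ≠ 0)
  linear_combination (norm := (rw [hU, hT, hV, hB]; simp only [d1B, P4, DD, map_add, map_mul, map_pow, map_neg,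
    map_sub, map_ofNat, map_zero, map_one]; ring1)) (X * alB μ * d1B μ + alA μ * 1 * d1B μ + d1A μ
    * 1 * alB μ) * (X * alB μ - alA μ * 1) ^ 2 * (1 * alB μ) * hG - d1B μ * X ^ 3 * (1 * alB μ ^ 2
    + alS μ * 1 ^ 2) ^ 2 * hG + ((-16529940864 - 16529940864 * C μ ^ 2) * X ^ 3 + (101934635328 +
    99179645184 * C μ ^ 2 - 2754990144 * C μ ^ 4) * X ^ 4 + (-277335674496 - 5050815264 * C μ -
    270907364160 * C μ ^ 2 + 15611610816 * C μ ^ 4 - 459165024 * C μ ^ 5 + 918330048 * C μ ^ 6) *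
    X ^ 5 + (443400358176 + 28544758992 * C μ + 452047966128 * C μ ^ 2 - 688747536 * C μ ^ 3 -
    41095269648 * C μ ^ 4 + 1300967568 * C μ ^ 5 - 4285540224 * C μ ^ 6 + 229582512 * C μ ^ 7) * X
    ^ 6 + (-469139108688 - 70532849520 * C μ - 520131935520 * C μ ^ 2 + 3902902704 * C μ ^ 3 +
    65788144272 * C μ ^ 4 - 510183360 * C μ ^ 5 + 8928208800 * C μ ^ 6 - 867311712 * C μ ^ 7 +
    51018336 * C μ ^ 8) * X ^ 7 + (350874354312 + 102651017796 * C μ + 440079914808 * C μ ^ 2 -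
    8160807996 * C μ ^ 3 - 71191836360 * C μ ^ 4 - 3192897528 * C μ ^ 5 - 11024212104 * C μ ^ 6 +
    1481657508 * C μ ^ 7 - 161558064 * C μ ^ 8 + 6377292 * C μ ^ 9) * X ^ 8 + (-192998113560 -
    99982475388 * C μ - 284109775776 * C μ ^ 2 + 8787199788 * C μ ^ 3 + 55391741136 * C μ ^ 4 +
    7073125416 * C μ ^ 5 + 9011822184 * C μ ^ 6 - 1531258668 * C μ ^ 7 + 232416864 * C μ ^ 8 -
    17714700 * C μ ^ 9) * X ^ 9 + (79866370656 + 69613574688 * C μ + 143129107296 * C μ ^ 2 -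
    5291262792 * C μ ^ 3 - 32376330504 * C μ ^ 4 - 7647081696 * C μ ^ 5 - 5175999144 * C μ ^ 6 +
    1078943328 * C μ ^ 7 - 199349424 * C μ ^ 8 + 23147208 * C μ ^ 9) * X ^ 10 + (-25208411760 -
    35680240152 * C μ - 57167226468 * C μ ^ 2 + 1548186048 * C μ ^ 3 + 14631082488 * C μ ^ 4 +
    5244023592 * C μ ^ 5 + 2168436744 * C μ ^ 6 - 550336680 * C μ ^ 7 + 111169584 * C μ ^ 8 -
    18738216 * C μ ^ 9 + 236196 * C μ ^ 10) * X ^ 11 + (6151751064 + 13567701852 * C μ +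
    18301174668 * C μ ^ 2 + 139985496 * C μ ^ 3 - 5155056432 * C μ ^ 4 - 2484991872 * C μ ^ 5 -
    677121444 * C μ ^ 6 + 208639800 * C μ ^ 7 - 40625712 * C μ ^ 8 + 9998964 * C μ ^ 9 - 419904 *
    C μ ^ 10) * X ^ 12 + (-1184076792 - 3813384420 * C μ - 4695681456 * C μ ^ 2 - 342405468 * C μ
    ^ 3 + 1393390188 * C μ ^ 4 + 839773008 * C μ ^ 5 + 159624756 * C μ ^ 6 - 59057748 * C μ ^ 7 +
    8984196 * C μ ^ 8 - 3332988 * C μ ^ 9 + 306180 * C μ ^ 10) * X ^ 13 + (183807144 + 781636716 *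
    C μ + 948466908 * C μ ^ 2 + 159928020 * C μ ^ 3 - 276283710 * C μ ^ 4 - 200385333 * C μ ^ 5 -
    29113344 * C μ ^ 6 + 12230433 * C μ ^ 7 - 832518 * C μ ^ 8 + 525609 * C μ ^ 9 - 116640 * C μ ^
    10 + 2187 * C μ ^ 11) * X ^ 14 + (-22875048 - 113730804 * C μ - 145001016 * C μ ^ 2 - 41836824
    * C μ ^ 3 + 36626418 * C μ ^ 4 + 31911975 * C μ ^ 5 + 4167936 * C μ ^ 6 - 1691523 * C μ ^ 7 -
    35478 * C μ ^ 8 + 54189 * C μ ^ 9 + 18468 * C μ ^ 10 - 1701 * C μ ^ 11) * X ^ 15 + (2116368 +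
    11165040 * C μ + 15695532 * C μ ^ 2 + 6687360 * C μ ^ 3 - 2573208 * C μ ^ 4 - 2946537 * C μ ^
    5 - 386046 * C μ ^ 6 + 101493 * C μ ^ 7 - 29484 * C μ ^ 8 - 41391 * C μ ^ 9 + 3078 * C μ ^ 10
    + 243 * C μ ^ 11) * X ^ 16 + (-124416 - 668736 * C μ - 1069200 * C μ ^ 2 - 621648 * C μ ^ 3 -
    378 * C μ ^ 4 + 89613 * C μ ^ 5 + 5076 * C μ ^ 6 + 11799 * C μ ^ 7 + 17334 * C μ ^ 8 + 6939 *
    C μ ^ 9 - 1728 * C μ ^ 10 + 81 * C μ ^ 11) * X ^ 17 + (3456 + 19008 * C μ + 35064 * C μ ^ 2 +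
    27000 * C μ ^ 3 + 10026 * C μ ^ 4 + 4914 * C μ ^ 5 + 1674 * C μ ^ 6 - 2142 * C μ ^ 7 - 2034 *
    C μ ^ 8 - 378 * C μ ^ 9 + 198 * C μ ^ 10 - 18 * C μ ^ 11) * X ^ 18) * hM

theorem diff_one_ne [CharZero O] {μ : O} (hμ : μ ^ 4 - μ ^ 2 + 4 = 0) :
    X * alB μ - alA μ * 1 ≠ 0 := by
  have hM : C μ ^ 4 - C μ ^ 2 + 4 = 0 := by
    simpa only [map_add, map_sub, map_pow, map_ofNat, map_zero] using congrArg C hμ
  have hU : X * alB μ - alA μ * 1 =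
      P4 0 (54 + 54 * μ ^ 2) (-108 - 54 * μ ^ 2) (36 + 18 * μ + 18 * μ ^ 2) (-4 - 5 * μ - 4 * μ ^
      2 + μ ^ 3) := by
    linear_combination (norm := (simp only [alA, alB, P4, DD, map_add, map_mul, map_pow, map_neg,
      map_sub, map_ofNat, map_zero, map_one]; ring1)) (0) * hM
  refine ne_of_coeff 4 ?_
  rw [hU, P4_c4]
  exact fun h => (by norm_num : (96 : O) ≠ 0) (by linear_combination (-4 - 4 * μ + 5 * μ ^ 2 - μ ^
    3) * h - (-20 + 9 * μ - μ ^ 2) * hμ)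

noncomputable def b2A (μ : O) : O[X] :=
  P4 0 (6 * μ) (-μ - μ ^ 2) 0 0

noncomputable def b2B (μ : O) : O[X] :=
  P4 (6) (-4 + 2 * μ) 0 0 0

noncomputable def b2S (μ : O) : O[X] :=
  (36) + (-12 - 12 * C μ) * X + (4 + 2 * C μ - 2 * C μ ^ 2) * X ^ 2

noncomputable def b2N (μ : O) : O[X] :=
  P4 (54 - 27 * μ - 27 * μ ^ 2) 0 0 0 0

theorem b2_cop [CharZero O] {μ : O} (hμ : μ ^ 4 - μ ^ 2 + 4 = 0) :
    Cop 2 (b2A μ) (b2B μ) := by
  have hM : C μ ^ 4 - C μ ^ 2 + 4 = 0 := by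
    simpa only [map_add, map_sub, map_pow, map_ofNat, map_zero] using congrArg C hμ
  refine ⟨⟨(-4 + 4 * C μ + C μ ^ 2 - 3 * C μ ^ 3),
    (18) + (-2 * C μ - C μ ^ 2 - C μ ^ 3) * X,
    108, by norm_num, ?_⟩, ?_, ?_⟩
  · linear_combination (norm := (simp only [b2A, b2B, P4, DD, map_add, map_mul, map_pow, map_neg,
      map_sub, map_ofNat, map_zero, map_one]; ring1)) ((-18) * X + (3 * C μ) * X ^ 2) * hM
  · refine max_deg (P4_le2 ..) (P4_le2 ..) ?_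
    rw [b2A, P4_c2]
    exact fun h => (by norm_num : (4 : O) ≠ 0) (by linear_combination (-μ + μ ^ 2) * h - (-1) *
      hμ)
  · refine ne_of_coeff 0 ?_
    rw [b2B, P4_c0]
    norm_num

theorem gen_beta2 [IsDomain O] [CharZero O] (c : Ctx p O k) (h6 : (6 : k) ≠ 0)
    {μ g g' m n e : O} (hμ : μ ^ 4 - μ ^ 2 + 4 = 0) (hg : 27 * g = (-2 - 3 * μ + μ ^ 3))
    (hg' : 27 * g' = (-2 + 3 * μ - μ ^ 3))
    (hm : 4 * m = (4 * μ)) (hn : 4 * n = (-6 - 3 * μ + 2 * μ ^ 2 + 3 * μ ^ 3))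
    (he : 4 * e = (6 + 3 * μ - 6 * μ ^ 2 - 3 * μ ^ 3)) :
    Gen c g g' m n e 1 2 (b2A μ) (b2B μ) (b2S μ) := by
  have hM : C μ ^ 4 - C μ ^ 2 + 4 = 0 := by
    simpa only [map_add, map_sub, map_pow, map_ofNat, map_zero] using congrArg C hμ
  have hG : 27 * C g = (-2 - 3 * C μ + C μ ^ 3) := by
    simpa only [map_add, map_sub, map_pow, map_ofNat, map_mul, map_neg] using congrArg C hg
  have hG' : 27 * C g' = (-2 + 3 * C μ - C μ ^ 3) := by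
    simpa only [map_add, map_sub, map_pow, map_ofNat, map_mul, map_neg] using congrArg C hg'
  have hm1 : 4 * C m = (4 * C μ) := by
    simpa only [map_add, map_sub, map_pow, map_ofNat, map_mul, map_neg] using congrArg C hm
  have hn1 : 4 * C n = (-6 - 3 * C μ + 2 * C μ ^ 2 + 3 * C μ ^ 3) := by
    simpa only [map_add, map_sub, map_pow, map_ofNat, map_mul, map_neg] using congrArg C hn
  have he1 : 4 * C e = (6 + 3 * C μ - 6 * C μ ^ 2 - 3 * C μ ^ 3) := by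
    simpa only [map_add, map_sub, map_pow, map_ofNat, map_mul, map_neg] using congrArg C he
  refine ⟨b2_cop hμ, by simp, ?_, P4_c0 .., ?_, ?_, ?_, b2N μ, 2, by norm_num, ?_⟩
  · rw [b2B, P4_c0, map_ofNat]
    exact fun h => pow_ne_zero 1 h6 (by linear_combination 1 * h)
  · rw [b2B, P4_c0]
    simp [b2S]
    norm_num
  · apply mul_left_cancel₀ (by norm_num : (27 : O[X]) ≠ 0)
    linear_combination (norm := (simp only [b2A, b2B, b2S, P4, DD, map_add, map_mul, map_pow,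
      map_neg, map_sub, map_ofNat, map_zero, map_one]; ring1)) X ^ 3 * b2S μ ^ 2 * hG - b2B μ *
      b2A μ ^ 3 * hG' + ((-2592 + 1296 * C μ ^ 2) * X ^ 3 + (3024 + 432 * C μ - 1512 * C μ ^ 2 -
      216 * C μ ^ 3) * X ^ 4 + (-1080 - 864 * C μ + 756 * C μ ^ 2 + 432 * C μ ^ 3 - 108 * C μ ^ 4)
      * X ^ 5 + (156 + 252 * C μ - 42 * C μ ^ 2 - 186 * C μ ^ 3 - 18 * C μ ^ 4 + 30 * C μ ^ 5) * X
      ^ 6 + (-8 - 20 * C μ - 8 * C μ ^ 2 + 14 * C μ ^ 3 + 10 * C μ ^ 4 - 2 * C μ ^ 5 - 2 * C μ ^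
      6) * X ^ 7) * hM
  · apply mul_left_cancel₀ (by norm_num : (4 : O[X]) ≠ 0)
    rw [b2A, b2B, P4_der, P4_der]
    linear_combination (norm := (simp only [b2S, P4, DD, map_add, map_mul, map_pow, map_neg,
      map_sub, map_ofNat, map_zero, map_one]; ring1)) -b2S μ * hm1 + (0) * hM
  · apply mul_left_cancel₀ (by norm_num : (108 : O[X]) ≠ 0)
    rw [DD_der]
    linear_combination (norm := (simp only [b2A, b2B, b2N, P4_der]; simp only [P4, DD, map_add, map_mul,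
      map_pow, map_neg, map_sub, map_ofNat, map_zero, map_one]; ring1)) 108 * b2A μ * b2B μ * hm1
      - 108 * X * b2B μ ^ 2 * hn1 - 108 * b2B μ ^ 2 * he1 - 4 * (2 * X ^ 3 * (derivative (b2N μ) *
      b2B μ - b2N μ * derivative (b2B μ)) + 3 * X ^ 2 * b2N μ * b2B μ) * hG + ((7776) * X + (-8424
      + 3240 * C μ) * X ^ 2 + (2160 - 1512 * C μ + 216 * C μ ^ 2) * X ^ 3) * hM

noncomputable def b1A (μ : O) : O[X] :=
  P4 0 (6 * μ - 6 * μ ^ 3) (-2 - μ + 2 * μ ^ 2 + μ ^ 3) 0 0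

noncomputable def b1B (μ : O) : O[X] :=
  P4 (12) (-8 + 2 * μ - 2 * μ ^ 3) 0 0 0

noncomputable def b1S (μ : O) : O[X] :=
  (144) + (-48 - 24 * C μ + 24 * C μ ^ 3) * X + (8 + 4 * C μ + 8 * C μ ^ 2 - 4 * C μ ^ 3) * X ^ 2

noncomputable def b1N (μ : O) : O[X] :=
  P4 (54 - 27 * μ + 54 * μ ^ 2 + 27 * μ ^ 3) 0 0 0 0

theorem b1_cop [CharZero O] {μ : O} (hμ : μ ^ 4 - μ ^ 2 + 4 = 0) :
    Cop 2 (b1A μ) (b1B μ) := by
  have hM : C μ ^ 4 - C μ ^ 2 + 4 = 0 := by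
    simpa only [map_add, map_sub, map_pow, map_ofNat, map_zero] using congrArg C hμ
  refine ⟨⟨(-6 + 13 * C μ - 2 * C μ ^ 2 - C μ ^ 3),
    (36) + (-2 + C μ + 2 * C μ ^ 2 + 3 * C μ ^ 3) * X,
    432, by norm_num, ?_⟩, ?_, ?_⟩
  · linear_combination (norm := (simp only [b1A, b1B, P4, DD, map_add, map_mul, map_pow, map_neg,
      map_sub, map_ofNat, map_zero, map_one]; ring1)) ((-78 + 12 * C μ + 6 * C μ ^ 2) * X + (7 - 8
      * C μ - 7 * C μ ^ 2) * X ^ 2) * hM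
  · refine max_deg (P4_le2 ..) (P4_le2 ..) ?_
    rw [b1A, P4_c2]
    exact fun h => (by norm_num : (16 : O) ≠ 0) (by linear_combination (2 - μ - 2 * μ ^ 2 + μ ^ 3)
      * h - (-5 + μ ^ 2) * hμ)
  · refine ne_of_coeff 0 ?_
    rw [b1B, P4_c0]
    norm_num

theorem gen_beta1 [IsDomain O] [CharZero O] (c : Ctx p O k) (h6 : (6 : k) ≠ 0)
    {μ g g' m n e : O} (hμ : μ ^ 4 - μ ^ 2 + 4 = 0) (hg : 27 * g = (-2 - 3 * μ + μ ^ 3))
    (hg' : 27 * g' = (-2 + 3 * μ - μ ^ 3))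
    (hm : 4 * m = (2 * μ - 2 * μ ^ 3)) (hn : 4 * n = (-4 - 6 * μ - 2 * μ ^ 2))
    (he : 4 * e = (6 * μ + 6 * μ ^ 2)) :
    Gen c g g' m n e 1 2 (b1A μ) (b1B μ) (b1S μ) := by
  have hM : C μ ^ 4 - C μ ^ 2 + 4 = 0 := by
    simpa only [map_add, map_sub, map_pow, map_ofNat, map_zero] using congrArg C hμ
  have hG : 27 * C g = (-2 - 3 * C μ + C μ ^ 3) := by
    simpa only [map_add, map_sub, map_pow, map_ofNat, map_mul, map_neg] using congrArg C hg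
  have hG' : 27 * C g' = (-2 + 3 * C μ - C μ ^ 3) := by
    simpa only [map_add, map_sub, map_pow, map_ofNat, map_mul, map_neg] using congrArg C hg'
  have hm1 : 4 * C m = (2 * C μ - 2 * C μ ^ 3) := by
    simpa only [map_add, map_sub, map_pow, map_ofNat, map_mul, map_neg] using congrArg C hm
  have hn1 : 4 * C n = (-4 - 6 * C μ - 2 * C μ ^ 2) := by
    simpa only [map_add, map_sub, map_pow, map_ofNat, map_mul, map_neg] using congrArg C hn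
  have he1 : 4 * C e = (6 * C μ + 6 * C μ ^ 2) := by
    simpa only [map_add, map_sub, map_pow, map_ofNat, map_mul, map_neg] using congrArg C he
  refine ⟨b1_cop hμ, by simp, ?_, P4_c0 .., ?_, ?_, ?_, b1N μ, 2, by norm_num, ?_⟩
  · rw [b1B, P4_c0, map_ofNat]
    exact fun h => pow_ne_zero 2 h6 (by linear_combination 3 * h)
  · rw [b1B, P4_c0]
    simp [b1S]
    norm_num
  · apply mul_left_cancel₀ (by norm_num : (27 : O[X]) ≠ 0)
    linear_combination (norm := (simp only [b1A, b1B, b1S, P4, DD, map_add, map_mul, map_pow,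
      map_neg, map_sub, map_ofNat, map_zero, map_one]; ring1)) X ^ 3 * b1S μ ^ 2 * hG - b1B μ *
      b1A μ ^ 3 * hG' + ((-62208 + 62208 * C μ ^ 2) * X ^ 2 + (88128 - 5184 * C μ - 132192 * C μ ^
      2 - 10368 * C μ ^ 3 - 7776 * C μ ^ 4 + 5184 * C μ ^ 5 + 12960 * C μ ^ 6 - 2592 * C μ ^ 8) *
      X ^ 3 + (-44928 - 864 * C μ + 104112 * C μ ^ 2 + 21168 * C μ ^ 3 - 432 * C μ ^ 4 - 17280 * C
      μ ^ 5 - 12528 * C μ ^ 6 + 6048 * C μ ^ 7 + 2160 * C μ ^ 8 - 2592 * C μ ^ 9 + 432 * C μ ^ 11)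
      * X ^ 4 + (10656 - 35928 * C μ ^ 2 - 14184 * C μ ^ 3 + 6696 * C μ ^ 4 + 13104 * C μ ^ 5 -
      216 * C μ ^ 6 - 3456 * C μ ^ 7 + 1944 * C μ ^ 8 + 1296 * C μ ^ 9 - 432 * C μ ^ 10 - 216 * C
      μ ^ 11) * X ^ 5 + (-960 + 240 * C μ + 6000 * C μ ^ 2 + 2580 * C μ ^ 3 - 3000 * C μ ^ 4 -
      1944 * C μ ^ 5 + 1056 * C μ ^ 6 - 72 * C μ ^ 7 - 744 * C μ ^ 8 - 72 * C μ ^ 9 + 144 * C μ ^
      10 + 36 * C μ ^ 11) * X ^ 6 + (-88 * C μ - 264 * C μ ^ 2 - 86 * C μ ^ 3 + 196 * C μ ^ 4 + 4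
      * C μ ^ 5 - 92 * C μ ^ 6 + 56 * C μ ^ 7 + 44 * C μ ^ 8 - 12 * C μ ^ 9 - 12 * C μ ^ 10 - 2 *
      C μ ^ 11) * X ^ 7) * hM
  · apply mul_left_cancel₀ (by norm_num : (4 : O[X]) ≠ 0)
    rw [b1A, b1B, P4_der, P4_der]
    linear_combination (norm := (simp only [b1S, P4, DD, map_add, map_mul, map_pow, map_neg,
      map_sub, map_ofNat, map_zero, map_one]; ring1)) -b1S μ * hm1 + ((-48 + 48 * C μ ^ 2) * X +
      (16 - 16 * C μ ^ 2) * X ^ 2) * hM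
  · apply mul_left_cancel₀ (by norm_num : (108 : O[X]) ≠ 0)
    rw [DD_der]
    linear_combination (norm := (simp only [b1A, b1B, b1N, P4_der]; simp only [P4, DD, map_add, map_mul,
      map_pow, map_neg, map_sub, map_ofNat, map_zero, map_one]; ring1)) 108 * b1A μ * b1B μ * hm1
      - 108 * X * b1B μ ^ 2 * hn1 - 108 * b1B μ ^ 2 * he1 - 4 * (2 * X ^ 3 * (derivative (b1N μ) *
      b1B μ - b1N μ * derivative (b1B μ)) + 3 * X ^ 2 * b1N μ * b1B μ) * hG + ((11664 - 23328 * C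
      μ - 11664 * C μ ^ 2) + (3888 + 54432 * C μ + 27216 * C μ ^ 2) * X + (-16848 - 33696 * C μ -
      14256 * C μ ^ 2 + 2592 * C μ ^ 3 - 2592 * C μ ^ 4 - 2592 * C μ ^ 5) * X ^ 2 + (6048 + 7128 *
      C μ + 432 * C μ ^ 2 + 864 * C μ ^ 3 + 2160 * C μ ^ 4 + 648 * C μ ^ 5) * X ^ 3) * hM

noncomputable def d2A (μ : O) : O[X] :=
  P4 (-54 - 81 * μ + 27 * μ ^ 3) (54 + 81 * μ - 27 * μ ^ 3) (-18 - 27 * μ + 9 * μ ^ 3) (6 + 3 * μ
    - μ ^ 3) 0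

noncomputable def d2B (μ : O) : O[X] :=
  P4 0 0 (12) 0 0

theorem d2_cop [CharZero O] {μ : O} (hμ : μ ^ 4 - μ ^ 2 + 4 = 0) :
    Cop 3 (d2A μ) (d2B μ) := by
  have hM : C μ ^ 4 - C μ ^ 2 + 4 = 0 := by
    simpa only [map_add, map_sub, map_pow, map_ofNat, map_zero] using congrArg C hμ
  refine ⟨⟨(6 - 9 * C μ + 3 * C μ ^ 3) + (6 - 9 * C μ + 3 * C μ ^ 3) * X,
    (72) + (-34 + 3 * C μ - C μ ^ 3) * X + (2 + 3 * C μ - C μ ^ 3) * X ^ 2,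
    1296, by norm_num, ?_⟩, ?_, ?_⟩
  · linear_combination (norm := (simp only [d2A, d2B, P4, DD, map_add, map_mul, map_pow, map_neg,
      map_sub, map_ofNat, map_zero, map_one]; ring1)) ((-405 + 81 * C μ ^ 2) + (270 - 54 * C μ ^
      2) * X ^ 2 + (-120 + 24 * C μ ^ 2) * X ^ 3 + (15 - 3 * C μ ^ 2) * X ^ 4) * hM
  · refine max_deg (P4_le3 ..) (P4_le3 ..) ?_
    rw [d2A, P4_c3]
    exact fun h => (by norm_num : (16 : O) ≠ 0) (by linear_combination (6 - 3 * μ + μ ^ 3) * h -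
      (5 - μ ^ 2) * hμ)
  · refine ne_of_coeff 2 ?_
    rw [d2B, P4_c2]
    norm_num

theorem diff_two [IsDomain O] [CharZero O] {μ g g' : O} (hμ : μ ^ 4 - μ ^ 2 + 4 = 0)
    (hg : 27 * g = (-2 - 3 * μ + μ ^ 3))
    (hg' : 27 * g' = (-2 + 3 * μ - μ ^ 3)) :
    C g' * (b2A μ * b1B μ * d2B μ + b1A μ * b2B μ * d2B μ + d2A μ * b2B μ * b1B μ) *
      (b2A μ * b1B μ - b1A μ * b2B μ) ^ 2 * (b2B μ * b1B μ) =
    d2B μ * (DD g * (b2S μ * b1B μ ^ 2 + b1S μ * b2B μ ^ 2) ^ 2 -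
      (b2A μ * b1B μ - b1A μ * b2B μ) ^ 2 * (b2B μ * b1B μ) ^ 2) := by
  have hM : C μ ^ 4 - C μ ^ 2 + 4 = 0 := by
    simpa only [map_add, map_sub, map_pow, map_ofNat, map_zero] using congrArg C hμ
  have hG : 27 * C g = (-2 - 3 * C μ + C μ ^ 3) := by
    simpa only [map_add, map_sub, map_pow, map_ofNat, map_mul, map_neg] using congrArg C hg
  have hG' : 27 * C g' = (-2 + 3 * C μ - C μ ^ 3) := by
    simpa only [map_add, map_sub, map_pow, map_ofNat, map_mul, map_neg] using congrArg C hg'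
  have hU : b2A μ * b1B μ - b1A μ * b2B μ =
      (36 * C μ + 36 * C μ ^ 3) * X + (12 - 30 * C μ - 24 * C μ ^ 2 - 30 * C μ ^ 3) * X ^ 2 + (-8
      + 16 * C μ ^ 2) * X ^ 3 := by
    linear_combination (norm := (simp only [b2A, b2B, b1A, b1B, P4, DD, map_add, map_mul, map_pow,
      map_neg, map_sub, map_ofNat, map_zero, map_one]; ring1)) ((2 * C μ) * X ^ 3) * hM
  have hT : b2S μ * b1B μ ^ 2 + b1S μ * b2B μ ^ 2 =
      (10368) + (-17280 + 2592 * C μ - 864 * C μ ^ 3) * X + (6048 - 1296 * C μ + 432 * C μ ^ 3) *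
      X ^ 2 + (960 - 1152 * C μ + 384 * C μ ^ 3) * X ^ 3 + (-320 + 288 * C μ - 96 * C μ ^ 3) * X ^
      4 := by
    linear_combination (norm := (simp only [b2B, b2S, b1B, b1S, P4, DD, map_add, map_mul, map_pow,
      map_neg, map_sub, map_ofNat, map_zero, map_one]; ring1)) ((1008 + 144 * C μ ^ 2) * X ^ 2 +
      (-912 + 240 * C μ - 48 * C μ ^ 2 - 48 * C μ ^ 3) * X ^ 3 + (176 - 88 * C μ + 24 * C μ ^ 2 +
      8 * C μ ^ 3 - 8 * C μ ^ 4) * X ^ 4) * hM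
  have hV : b2A μ * b1B μ * d2B μ + b1A μ * b2B μ * d2B μ + d2A μ * b2B μ * b1B μ =
      (-3888 - 5832 * C μ + 1944 * C μ ^ 3) + (2592 + 11664 * C μ - 3888 * C μ ^ 3) * X + (1728 -
      10368 * C μ + 3456 * C μ ^ 3) * X ^ 2 + (-1728 + 6048 * C μ - 2016 * C μ ^ 3) * X ^ 3 +
      (1248 - 2016 * C μ + 672 * C μ ^ 3) * X ^ 4 + (32) * X ^ 5 := by
    linear_combination (norm := (simp only [b2A, b2B, b1A, b1B, d2A, d2B, P4, DD, map_add,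
      map_mul, map_pow, map_neg, map_sub, map_ofNat, map_zero, map_one]; ring1)) ((1620 - 324 * C
      μ ^ 2) * X + (-2484 + 324 * C μ + 540 * C μ ^ 2 - 108 * C μ ^ 3) * X ^ 2 + (1404 - 324 * C μ
      - 324 * C μ ^ 2 + 108 * C μ ^ 3) * X ^ 3 + (-636 + 108 * C μ + 84 * C μ ^ 2 - 36 * C μ ^ 3)
      * X ^ 4 + (64 + 12 * C μ - 8 * C μ ^ 2 + 4 * C μ ^ 3) * X ^ 5) * hM
  have hB : b2B μ * b1B μ =
      (72) + (-96 + 36 * C μ - 12 * C μ ^ 3) * X + (48 - 24 * C μ + 8 * C μ ^ 3) * X ^ 2 := by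
    linear_combination (norm := (simp only [b2B, b1B, P4, DD, map_add, map_mul, map_pow, map_neg,
      map_sub, map_ofNat, map_zero, map_one]; ring1)) ((-4) * X ^ 2) * hM
  apply mul_left_cancel₀ (by norm_num : (27 : O[X]) ≠ 0)
  linear_combination (norm := (rw [hU, hT, hV, hB]; simp only [d2B, P4, DD, map_add, map_mul, map_pow, map_neg,
    map_sub, map_ofNat, map_zero, map_one]; ring1)) (b2A μ * b1B μ * d2B μ + b1A μ * b2B μ * d2B μ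
    + d2A μ * b2B μ * b1B μ) * (b2A μ * b1B μ - b1A μ * b2B μ) ^ 2 * (b2B μ * b1B μ) * hG' - d2B μ
    * X ^ 3 * (b2S μ * b1B μ ^ 2 + b1S μ * b2B μ ^ 2) ^ 2 * hG + ((-8707129344 - 1995383808 * C μ
    ^ 2 + 1632586752 * C μ ^ 4 + 544195584 * C μ ^ 6 - 181398528 * C μ ^ 8) * X ^ 2 + (46438023168
    - 4232632320 * C μ + 10944377856 * C μ ^ 2 - 272097792 * C μ ^ 3 - 8162933760 * C μ ^ 4 +
    544195584 * C μ ^ 5 - 2720977920 * C μ ^ 6 + 241864704 * C μ ^ 7 + 906992640 * C μ ^ 8 -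
    181398528 * C μ ^ 9 + 30233088 * C μ ^ 11) * X ^ 3 + (-101079290880 + 17716589568 * C μ -
    24645005568 * C μ ^ 2 + 1541887488 * C μ ^ 3 + 18003803904 * C μ ^ 4 - 2136471552 * C μ ^ 5 +
    5920646400 * C μ ^ 6 - 1169012736 * C μ ^ 7 - 1839179520 * C μ ^ 8 + 786060288 * C μ ^ 9 -
    40310784 * C μ ^ 10 - 131010048 * C μ ^ 11) * X ^ 4 + (113609226240 - 25587270144 * C μ +
    28593782784 * C μ ^ 2 - 4119258240 * C μ ^ 3 - 22849496064 * C μ ^ 4 + 2306112768 * C μ ^ 5 -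
    7302970368 * C μ ^ 6 + 2566453248 * C μ ^ 7 + 1887888384 * C μ ^ 8 - 1483100928 * C μ ^ 9 +
    167961600 * C μ ^ 10 + 249422976 * C μ ^ 11) * X ^ 5 + (-66723305472 + 10525593600 * C μ -
    15979866624 * C μ ^ 2 + 6434049024 * C μ ^ 3 + 18700844544 * C μ ^ 4 + 1321297920 * C μ ^ 5 +
    5194492416 * C μ ^ 6 - 3377147904 * C μ ^ 7 - 775982592 * C μ ^ 8 + 1625868288 * C μ ^ 9 -
    309049344 * C μ ^ 10 - 279936000 * C μ ^ 11) * X ^ 6 + (15224039424 + 9184140288 * C μ +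
    1166026752 * C μ ^ 2 - 6255263232 * C μ ^ 3 - 11227299840 * C μ ^ 4 - 5011974144 * C μ ^ 5 -
    1379524608 * C μ ^ 6 + 2845642752 * C μ ^ 7 - 495673344 * C μ ^ 8 - 1156322304 * C μ ^ 9 +
    337416192 * C μ ^ 10 + 208645632 * C μ ^ 11) * X ^ 7 + (3438609408 - 11278559232 * C μ +
    2469968640 * C μ ^ 2 + 4130486784 * C μ ^ 3 + 6083009280 * C μ ^ 4 + 4564823040 * C μ ^ 5 -
    1074767616 * C μ ^ 6 - 1461639168 * C μ ^ 7 + 972373248 * C μ ^ 8 + 533744640 * C μ ^ 9 -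
    245846016 * C μ ^ 10 - 105878016 * C μ ^ 11) * X ^ 8 + (-2661507072 + 4179796992 * C μ +
    70460928 * C μ ^ 2 - 2150779392 * C μ ^ 3 - 3201348096 * C μ ^ 4 - 1869391872 * C μ ^ 5 +
    1289157120 * C μ ^ 6 + 340402176 * C μ ^ 7 - 686071296 * C μ ^ 8 - 127982592 * C μ ^ 9 +
    121761792 * C μ ^ 10 + 33384960 * C μ ^ 11) * X ^ 9 + (486715392 - 474854400 * C μ - 946791936
    * C μ ^ 2 + 883270656 * C μ ^ 3 + 1334997504 * C μ ^ 4 + 211368960 * C μ ^ 5 - 587340288 * C μ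
    ^ 6 + 63148032 * C μ ^ 7 + 250560000 * C μ ^ 8 - 5916672 * C μ ^ 9 - 37158912 * C μ ^ 10 -
    4838400 * C μ ^ 11) * X ^ 10 + (-23187456 - 41619456 * C μ + 368575488 * C μ ^ 2 - 211304448 *
    C μ ^ 3 - 361331712 * C μ ^ 4 + 102666240 * C μ ^ 5 + 124333056 * C μ ^ 6 - 62963712 * C μ ^ 7
    - 38937600 * C μ ^ 8 + 10321920 * C μ ^ 9 + 5160960 * C μ ^ 10) * X ^ 11 + (-1708032 +
    11280384 * C μ - 44347392 * C μ ^ 2 + 17350656 * C μ ^ 3 + 49741824 * C μ ^ 4 - 32219136 * C μ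
    ^ 5 - 7962624 * C μ ^ 6 + 12632064 * C μ ^ 7 - 1376256 * C μ ^ 9) * X ^ 12 + (565248 - 86016 *
    C μ - 860160 * C μ ^ 2 + 360448 * C μ ^ 3 + 393216 * C μ ^ 4 - 110592 * C μ ^ 5 - 65536 * C μ
    ^ 6) * X ^ 13) * hM

theorem diff_two_ne [CharZero O] {μ : O} (hμ : μ ^ 4 - μ ^ 2 + 4 = 0) :
    b2A μ * b1B μ - b1A μ * b2B μ ≠ 0 := by
  have hM : C μ ^ 4 - C μ ^ 2 + 4 = 0 := by
    simpa only [map_add, map_sub, map_pow, map_ofNat, map_zero] using congrArg C hμ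
  have hU : b2A μ * b1B μ - b1A μ * b2B μ =
      P4 0 (36 * μ + 36 * μ ^ 3) (12 - 30 * μ - 24 * μ ^ 2 - 30 * μ ^ 3) (-8 + 16 * μ ^ 2) 0 := by
    linear_combination (norm := (simp only [b2A, b2B, b1A, b1B, P4, DD, map_add, map_mul, map_pow,
      map_neg, map_sub, map_ofNat, map_zero, map_one]; ring1)) ((2 * C μ) * X ^ 3) * hM
  refine ne_of_coeff 3 ?_
  rw [hU, P4_c3]
  exact fun h => (by norm_num : (120 : O) ≠ 0) (by linear_combination (1 - 2 * μ ^ 2) * h - (-32)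
    * hμ)

end Pool.Agent.Lib.MP_2eac29_nt
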