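import Pool.Agent.Lib.MP_2eac29_nt.Witt
import Pool.Agent.Lib.MP_2eac29_nt.Defs

/-!
Descent of the congruences to the rationals.
-/

namespace Pool.Agent.Lib.MP_2eac29_nt

open Finset

theorem binet {R : Type} [CommRing R] {a b : R} (h1 : a + b = 1) (h2 : a * b = -1) (n : ℕ) :
    a ^ n + b ^ n = lucas n ∧ a ^ n - b ^ n = (a - b) * Nat.fib n := by
  induction n using Nat.twoStepInduction with
  | zero => simp [lucas, one_add_one_eq_two]
  | one => simp [lucas, h1]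
  | more n i1 i2 =>
    rw [lucas, Nat.fib_add_two]
    push_cast
    constructor
    · linear_combination i1.1 + i2.1 + (a ^ (n + 1) + b ^ (n + 1)) * h1 - (a ^ n + b ^ n) * h2
    · linear_combination i1.2 + i2.2 + (a ^ (n + 1) - b ^ (n + 1)) * h1 - (a ^ n - b ^ n) * h2

theorem sums_cast {O K : Type} [CommRing O] [Field K] [CharZero K] (ι : O →+* K) (p : ℕ)
    {t t' : O} (h1 : 27 * t + 27 * t' = 1) (h2 : 27 * t * (27 * t') = -1) :
    ((∑ k ∈ range p, aSeq k * lucas k : ℚ) : K) = ι (PP p t) + ι (PP p t') ∧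
    ((∑ k ∈ range p, aSeq k * Nat.fib k : ℚ) : K) * ι (27 * t - 27 * t') =
      ι (PP p t) - ι (PP p t') ∧
    ((∑ k ∈ range p, k * aSeq k * lucas k : ℚ) : K) = ι (TT p t) + ι (TT p t') ∧
    ((∑ k ∈ range p, k * aSeq k * Nat.fib k : ℚ) : K) * ι (27 * t - 27 * t') =
      ι (TT p t) - ι (TT p t') := by
  have key : ∀ n : ℕ, (lucas n : K) / 27 ^ n = ι t ^ n + ι t' ^ n ∧
      (Nat.fib n : K) / 27 ^ n * ι (27 * t - 27 * t') = ι t ^ n - ι t' ^ n := by
    intro n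
    have e1 := congrArg ι (binet h1 h2 n).1
    have e2 := congrArg ι (binet h1 h2 n).2
    rw [map_mul] at e2
    generalize ι (27 * t - 27 * t') = r at e2
    simp only [map_add, map_sub, map_pow, map_mul, map_natCast, map_ofNat, mul_pow] at e1 e2
    constructor
    · field_simp; linear_combination -e1
    · field_simp; linear_combination -e2
  simp only [PP, TT, aSeq, map_sum ι, map_mul ι _ (_ ^ _), map_mul ι (Nat.cast _), map_pow,
    map_natCast, ← sum_add_distrib, ← sum_sub_distrib]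
  push_cast
  simp only [sum_mul]
  refine ⟨sum_congr rfl fun n _ => ?_, sum_congr rfl fun n _ => ?_, sum_congr rfl fun n _ => ?_,
    sum_congr rfl fun n _ => ?_⟩
  · linear_combination ((2 * n).choose n : K) * ((3 * n).choose n : K) * (key n).1
  · linear_combination ((2 * n).choose n : K) * ((3 * n).choose n : K) * (key n).2
  · linear_combination n * ((2 * n).choose n : K) * ((3 * n).choose n : K) * (key n).1
  · linear_combination n * ((2 * n).choose n : K) * ((3 * n).choose n : K) * (key n).2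

variable {p : ℕ} {O k : Type} [CommRing O] [Field k] [IsDomain O] [IsNoetherianRing O]
  [CharZero O] [hp : Fact p.Prime] [CharP k p] [PerfectRing k p]

omit [IsNoetherianRing O] [PerfectRing k p] in
theorem setup (c : Ctx p O k) (p5 : 5 < p) {μ : O} (hμ : μ ^ 4 - μ ^ 2 + 4 = 0) :
    ∃ t t' w : O, 108 * t = 2 + 3 * μ - μ ^ 3 ∧ 108 * t' = 2 - 3 * μ + μ ^ 3 ∧
      2 * w = μ - μ ^ 3 ∧ 27 * t + 27 * t' = 1 ∧ 27 * t * (27 * t') = -1 ∧
      27 * t - 27 * t' = μ + w ∧ (μ + w) ^ 2 = 5 ∧ (μ - w) ^ 2 = -3 := by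
  have h30 := ne30 (k := k) p5
  obtain ⟨i, hi⟩ := (c.unit 108 (by
    rw [map_ofNat]
    exact fun h => pow_ne_zero 3 h30 (by linear_combination 250 * h))).exists_left_inv
  have h1 : 108 * (i * (2 + 3 * μ - μ ^ 3)) = 2 + 3 * μ - μ ^ 3 := by
    linear_combination (2 + 3 * μ - μ ^ 3) * hi
  have h2 : 108 * (i * (2 - 3 * μ + μ ^ 3)) = 2 - 3 * μ + μ ^ 3 := by
    linear_combination (2 - 3 * μ + μ ^ 3) * hi
  have h3 : 2 * (54 * i * (μ - μ ^ 3)) = μ - μ ^ 3 := by linear_combination (μ - μ ^ 3) * hi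
  refine ⟨_, _, _, h1, h2, h3, ?_⟩
  generalize i * (2 + 3 * μ - μ ^ 3) = t at h1
  generalize i * (2 - 3 * μ + μ ^ 3) = t' at h2
  generalize 54 * i * (μ - μ ^ 3) = w at h3
  have h4 : (4 : O) ≠ 0 := by norm_num
  refine ⟨mul_left_cancel₀ h4 ?_, mul_left_cancel₀ (by norm_num : (16 : O) ≠ 0) ?_,
    mul_left_cancel₀ h4 ?_, mul_left_cancel₀ h4 ?_, mul_left_cancel₀ h4 ?_⟩
  · linear_combination h1 + h2
  · linear_combination 108 * t' * h1 + (2 + 3 * μ - μ ^ 3) * h2 + (5 - μ ^ 2) * hμ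
  · linear_combination h1 - h2 - 2 * h3
  · linear_combination (5 * μ + 2 * w - μ ^ 3) * h3 + (-5 + μ ^ 2) * hμ
  · linear_combination (2 * w - 3 * μ - μ ^ 3) * h3 + (3 + μ ^ 2) * hμ

theorem q1_main (K : Type) [Field K] [CharZero K] [Algebra O K] [IsFractionRing O K]
    (c : Ctx p O k) (p5 : 5 < p) {μ : O} (hμ : μ ^ 4 - μ ^ 2 + 4 = 0) {x y : ℤ}
    (hxy : (p : ℤ) = x ^ 2 + 15 * y ^ 2) (hx : x % 3 = 1)
    (hm : c.ρ (x - y * (2 * μ ^ 2 - 1)) = 0) :
    (p : ℤ) ^ 2 ∣ (∑ k ∈ range p, k * aSeq k * Nat.fib k - 2 / 15 * (p / x - 2 * x) : ℚ).num ∧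
    (p : ℤ) ^ 2 ∣ (∑ k ∈ range p, aSeq k * lucas k - (4 * x - p / x) : ℚ).num ∧
    (p : ℤ) ^ 2 ∣ (∑ k ∈ range p, (3 * k + 2) * aSeq k * lucas k - 4 * x : ℚ).num := by
  obtain ⟨t, t', w, ht, ht', hw, s1, s2, s3, s4, -⟩ := setup c p5 hμ
  have h30 := ne30 (k := k) p5
  obtain ⟨⟨z1, a1⟩, z2, a2⟩ := q1_O c p5 hμ ht hxy hx hm
  obtain ⟨⟨z3, a3⟩, z4, a4⟩ := q1_O c p5 (μ := -μ) (t := t') (by linear_combination hμ)
    (by linear_combination ht') hxy hx (by rwa [neg_sq])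
  have hxy' : (p : O) = x ^ 2 + 15 * y ^ 2 := by exact_mod_cast congrArg (Int.cast : ℤ → O) hxy
  obtain ⟨v, huv, hv⟩ := c.split (u := x + y * (2 * μ ^ 2 - 1))
    (by linear_combination -hxy' - 4 * y ^ 2 * hμ) hm
  have x0 : c.ρ x ≠ 0 := by
    intro h
    have e1 := congrArg c.ρ huv
    rw [show (x : O) + y * (2 * μ ^ 2 - 1) = 2 * x - (x - y * (2 * μ ^ 2 - 1)) by ring, map_mul,
      map_sub, map_mul, hm, h] at e1
    simp at e1
  have r0 : c.ρ (μ + w) ≠ 0 := by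
    intro h
    have e1 := congrArg c.ρ s4
    rw [map_pow, h, map_ofNat] at e1
    exact h30 (by linear_combination -6 * e1)
  have f0 : c.ρ 15 ≠ 0 := by rw [map_ofNat]; exact fun h => h30 (by linear_combination 2 * h)
  have xK : (x : K) ≠ 0 := by
    rintro h
    rw [Int.cast_eq_zero] at h
    exact x0 (by rw [h]; simp)
  obtain ⟨b1, -, b3, b4⟩ := sums_cast (algebraMap O K) p s1 s2
  rw [s3] at b4
  have split : (∑ k ∈ range p, (3 * k + 2) * aSeq k * lucas k : ℚ) =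
      3 * ∑ k ∈ range p, k * aSeq k * lucas k + 2 * ∑ k ∈ range p, aSeq k * lucas k := by
    rw [mul_sum, mul_sum, ← sum_add_distrib]
    exact sum_congr rfl fun _ _ => by ring
  rw [split]
  generalize (∑ k ∈ range p, k * aSeq k * Nat.fib k : ℚ) = q4 at b4 ⊢
  generalize (∑ k ∈ range p, k * aSeq k * lucas k : ℚ) = q3 at b3 ⊢
  generalize (∑ k ∈ range p, aSeq k * lucas k : ℚ) = q1 at b1 ⊢
  refine ⟨c.num_dvd (K := K) _ (d := 15 * x * (μ + w))
      (w := x * (15 * (TT p t - TT p t')) - 2 * (μ + w) * (p - 2 * x ^ 2)) ?_ ?_ ?_,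
    c.num_dvd (K := K) _ (w := x * (PP p t + PP p t') - (4 * x ^ 2 - p)) x0 ?_ ?_,
    c.num_dvd (K := K) _ (w := 3 * (15 * (TT p t + TT p t')) + 30 * (PP p t + PP p t') - 60 * x)
      f0 ?_ ?_⟩
  · rw [map_mul, map_mul]; exact mul_ne_zero (mul_ne_zero f0 x0) r0
  · refine ⟨x * (z2 - z4) + 2 * (μ + w) * v ^ 2, ?_⟩
    linear_combination x * a2 - x * a4 + 2 * x * y * (2 * μ ^ 2 - 1) * hw +
      2 * (μ + w) * (p * huv + (2 * x + p * v) * hv)
  · simp only [map_mul, map_sub, map_pow, map_ofNat, map_intCast, map_natCast]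
    generalize algebraMap O K (μ + w) = r at b4
    push_cast
    field_simp
    linear_combination 15 * x * b4
  · refine ⟨x * (z1 + z3) - v ^ 2, ?_⟩
    linear_combination x * a1 + x * a3 -
      (p * huv + (2 * x + p * v) * hv)
  · simp only [map_mul, map_sub, map_add, map_pow, map_ofNat, map_intCast, map_natCast]
    push_cast
    field_simp
    linear_combination x * b1
  · exact ⟨3 * (z2 + z4) + 30 * (z1 + z3), by
      linear_combination 3 * a2 + 3 * a4 + 30 * a1 + 30 * a3⟩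
  · simp only [map_mul, map_sub, map_add, map_ofNat, map_intCast]
    push_cast
    linear_combination 45 * b3 + 30 * b1

theorem q2_main (K : Type) [Field K] [CharZero K] [Algebra O K] [IsFractionRing O K]
    (c : Ctx p O k) (p5 : 5 < p) {μ : O} (hμ : μ ^ 4 - μ ^ 2 + 4 = 0) {x y : ℤ}
    (hxy : (p : ℤ) = 3 * x ^ 2 + 5 * y ^ 2) (hy : y % 3 = 1)
    (hm : c.ρ (y * (3 * μ - μ ^ 3) + x * (μ + μ ^ 3)) = 0) :
    (p : ℤ) ^ 2 ∣ (∑ k ∈ range p, aSeq k * Nat.fib k - (p / (5 * y) - 4 * y) : ℚ).num ∧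
    (p : ℤ) ^ 2 ∣ (∑ k ∈ range p, k * aSeq k * Nat.fib k - 4 / 3 * y : ℚ).num ∧
    (p : ℤ) ^ 2 ∣ (∑ k ∈ range p, k * aSeq k * lucas k - 4 / 3 * y : ℚ).num := by
  obtain ⟨t, t', w, ht, ht', hw, s1, s2, s3, s4, s5⟩ := setup c p5 hμ
  have h30 := ne30 (k := k) p5
  have hm1 : c.ρ (y * (μ + w) + x * (μ - w)) = 0 := by
    apply mul_left_cancel₀ (show (2 : k) ≠ 0 from fun h => h30 (by linear_combination 15 * h))
    rw [mul_zero, ← hm, ← map_ofNat c.ρ 2, ← map_mul]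
    congr 1
    linear_combination (y - x) * hw
  have hm2 : c.ρ (-(y * (μ + w) + x * (μ - w))) = 0 := by rw [map_neg, hm1, neg_zero]
  obtain ⟨⟨z1, a1⟩, z2, a2⟩ := q2_O c p5 hμ hw ht ht' hxy hy hm2
  obtain ⟨⟨z3, a3⟩, z4, a4⟩ := q2_O c p5 (μ := -μ) (w := -w) (t := t') (t' := t)
    (by linear_combination hμ) (by linear_combination -hw) (by linear_combination ht')
    (by linear_combination ht) hxy hy (by rw [← hm1]; congr 1; ring)
  have hxy' : (p : O) = 3 * x ^ 2 + 5 * y ^ 2 := by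
    exact_mod_cast congrArg (Int.cast : ℤ → O) hxy
  obtain ⟨v, huv, hv⟩ := c.split (u := -(y * (μ + w) - x * (μ - w)))
    (by linear_combination -hxy' + y ^ 2 * s4 - x ^ 2 * s5) hm2
  have y0 : c.ρ y ≠ 0 := by
    intro h
    have e1 := congrArg c.ρ huv
    rw [show -(y * (μ + w) - x * (μ - w)) = (y * (μ + w) + x * (μ - w)) - 2 * y * (μ + w) by ring,
      map_mul, map_sub, hm1, map_mul, map_mul, h] at e1
    simp at e1
  have r0 : c.ρ (μ + w) ≠ 0 := by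
    intro h
    have e1 := congrArg c.ρ s4
    rw [map_pow, h, map_ofNat] at e1
    exact h30 (by linear_combination -6 * e1)
  have f5 : c.ρ 5 ≠ 0 := by rw [map_ofNat]; exact fun h => h30 (by linear_combination 6 * h)
  have f3 : c.ρ 3 ≠ 0 := by rw [map_ofNat]; exact fun h => h30 (by linear_combination 10 * h)
  have yK : (y : K) ≠ 0 := by
    rintro h
    rw [Int.cast_eq_zero] at h
    exact y0 (by rw [h]; simp)
  obtain ⟨-, b2, b3, b4⟩ := sums_cast (algebraMap O K) p s1 s2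
  rw [s3] at b2 b4
  generalize (∑ k ∈ range p, k * aSeq k * Nat.fib k : ℚ) = q4 at b4 ⊢
  generalize (∑ k ∈ range p, k * aSeq k * lucas k : ℚ) = q3 at b3 ⊢
  generalize (∑ k ∈ range p, aSeq k * Nat.fib k : ℚ) = q2 at b2 ⊢
  refine ⟨c.num_dvd (K := K) _ (d := 5 * y * (μ + w))
      (w := 5 * y * (PP p t - PP p t') - (μ + w) * (p - 20 * y ^ 2)) ?_ ?_ ?_,
    c.num_dvd (K := K) _ (d := 3 * (μ + w))
      (w := 3 * (TT p t - TT p t') - 4 * y * (μ + w)) ?_ ?_ ?_,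
    c.num_dvd (K := K) _ (w := 3 * (TT p t + TT p t') - 4 * y) f3 ?_ ?_⟩
  · rw [map_mul, map_mul]; exact mul_ne_zero (mul_ne_zero f5 y0) r0
  · refine ⟨5 * y * (z1 - z3) + (μ + w) * v ^ 2, ?_⟩
    linear_combination 5 * y * a1 - 5 * y * a3 +
      (μ + w) * (p * huv + (-2 * y * (μ + w) + p * v) * hv) -
      2 * y * (y * (μ + w) + x * (μ - w)) * s4
  · simp only [map_mul, map_sub, map_pow, map_ofNat, map_intCast, map_natCast]
    generalize algebraMap O K (μ + w) = r at b2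
    push_cast
    field_simp
    linear_combination 5 * y * b2
  · rw [map_mul]; exact mul_ne_zero f3 r0
  · exact ⟨z2 - z4, by linear_combination a2 - a4 - 2 * y * hw⟩
  · simp only [map_mul, map_sub, map_ofNat, map_intCast]
    generalize algebraMap O K (μ + w) = r at b4
    push_cast
    linear_combination 3 * b4
  · exact ⟨z2 + z4, by linear_combination a2 + a4⟩
  · simp only [map_mul, map_sub, map_add, map_ofNat, map_intCast]
    push_cast
    linear_combination 3 * b3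

theorem q1_both (c : Ctx p O k) (p5 : 5 < p) {μ : O} (hμ : μ ^ 4 - μ ^ 2 + 4 = 0) {x y : ℤ}
    (hxy : (p : ℤ) = x ^ 2 + 15 * y ^ 2) (hx : x % 3 = 1) :
    (p : ℤ) ^ 2 ∣ (∑ k ∈ range p, k * aSeq k * Nat.fib k - 2 / 15 * (p / x - 2 * x) : ℚ).num ∧
    (p : ℤ) ^ 2 ∣ (∑ k ∈ range p, aSeq k * lucas k - (4 * x - p / x) : ℚ).num ∧
    (p : ℤ) ^ 2 ∣ (∑ k ∈ range p, (3 * k + 2) * aSeq k * lucas k - 4 * x : ℚ).num := by
  have : CharZero (FractionRing O) :=
    charZero_of_injective_algebraMap (IsFractionRing.injective O _)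
  have hxy' : (p : O) = x ^ 2 + 15 * y ^ 2 := by exact_mod_cast congrArg (Int.cast : ℤ → O) hxy
  have e : c.ρ (x - y * (2 * μ ^ 2 - 1)) * c.ρ (x - (-y : ℤ) * (2 * μ ^ 2 - 1)) = 0 := by
    rw [← map_mul, ← c.rp]
    congr 1
    push_cast
    linear_combination -hxy' - 4 * y ^ 2 * hμ
  rcases mul_eq_zero.1 e with h | h
  · exact q1_main (FractionRing O) c p5 hμ hxy hx h
  · exact q1_main (FractionRing O) c p5 hμ (y := -y) (by rw [neg_sq]; exact hxy) hx h

theorem q2_both (c : Ctx p O k) (p5 : 5 < p) {μ : O} (hμ : μ ^ 4 - μ ^ 2 + 4 = 0) {x y : ℤ}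
    (hxy : (p : ℤ) = 3 * x ^ 2 + 5 * y ^ 2) (hy : y % 3 = 1) :
    (p : ℤ) ^ 2 ∣ (∑ k ∈ range p, aSeq k * Nat.fib k - (p / (5 * y) - 4 * y) : ℚ).num ∧
    (p : ℤ) ^ 2 ∣ (∑ k ∈ range p, k * aSeq k * Nat.fib k - 4 / 3 * y : ℚ).num ∧
    (p : ℤ) ^ 2 ∣ (∑ k ∈ range p, k * aSeq k * lucas k - 4 / 3 * y : ℚ).num := by
  have : CharZero (FractionRing O) :=
    charZero_of_injective_algebraMap (IsFractionRing.injective O _)
  have hxy' : (p : O) = 3 * x ^ 2 + 5 * y ^ 2 := by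
    exact_mod_cast congrArg (Int.cast : ℤ → O) hxy
  have e : c.ρ (y * (3 * μ - μ ^ 3) + x * (μ + μ ^ 3)) *
      c.ρ (y * (3 * μ - μ ^ 3) + (-x : ℤ) * (μ + μ ^ 3)) = 0 := by
    rw [← map_mul, ← mul_zero (c.ρ 4), ← c.rp, ← map_mul]
    congr 1
    push_cast
    linear_combination -4 * hxy' + (y ^ 2 * (-5 + μ ^ 2) - x ^ 2 * (3 + μ ^ 2)) * hμ
  rcases mul_eq_zero.1 e with h | h
  · exact q2_main (FractionRing O) c p5 hμ hxy hy h
  · exact q2_main (FractionRing O) c p5 hμ (x := -x) (by rw [neg_sq]; exact hxy) hy h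

end Pool.Agent.Lib.MP_2eac29_nt
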