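import Pool.Agent.Lib.MP_2eac29_nt.Curve

/-!
The degree of points over a rational function field is a quadratic form.
-/

namespace Pool.Agent.Lib.MP_2eac29_nt

open Par Polynomial

variable {K : Type} [Field K]

/-- projective abscissa `(A : B)` of a point -/
def XRep (E : Par (RatFunc K)) (P : E.Pt) (A B : K[X]) : Prop :=
  IsCoprime A B ∧ ((P = 0 ∧ B = 0) ∨ (B ≠ 0 ∧ ∃ r s, E.Is P r s ∧
    r * algebraMap K[X] (RatFunc K) B = algebraMap K[X] (RatFunc K) A))

variable {E : Par (RatFunc K)}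

theorem exists_xrep (P : E.Pt) : ∃ A B, XRep E P A B := by
  rcases Par.cases P with rfl | ⟨r, s, h⟩
  · exact ⟨1, 0, isCoprime_one_left, Or.inl ⟨rfl, rfl⟩⟩
  · refine ⟨r.num, r.denom, r.isCoprime_num_denom, Or.inr ⟨r.denom_ne_zero, r, s, h, ?_⟩⟩
    have := r.num_div_denom
    rw [div_eq_iff (by simpa using r.denom_ne_zero)] at this
    exact this.symm

theorem XRep.cross {P : E.Pt} {A B A' B' : K[X]} (h : XRep E P A B) (h' : XRep E P A' B') :
    A * B' = A' * B := by
  rcases h.2 with ⟨rfl, rfl⟩ | ⟨h1, r, s, h2, h3⟩ <;>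
    rcases h'.2 with ⟨e, rfl⟩ | ⟨k1, r', s', k2, k3⟩
  · simp
  · exact absurd rfl k2.ne_zero
  · exact absurd e h2.ne_zero
  · apply RatFunc.algebraMap_injective K
    rw [map_mul, map_mul, ← h3, ← k3, (h2.unique k2).1]; ring

theorem natDegree_le_of_cross {A B A' B' : K[X]} (h : IsCoprime A B) (h' : IsCoprime A' B')
    (e : A * B' = A' * B) : max A.natDegree B.natDegree ≤ max A'.natDegree B'.natDegree := by
  obtain ⟨u, v, huv⟩ := h
  have e1 : A' = (u * A' + v * B') * A := by linear_combination -A' * huv - v * e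
  have e2 : B' = (u * A' + v * B') * B := by linear_combination -B' * huv + u * e
  have hM : u * A' + v * B' ≠ 0 := by
    intro h0
    rw [h0, zero_mul] at e1 e2
    rw [e1, e2] at h'
    exact not_isCoprime_zero_zero h'
  generalize u * A' + v * B' = M at e1 e2 hM
  refine max_le_max ?_ ?_
  · by_cases hA : A = 0
    · simp [hA]
    · rw [e1, natDegree_mul hM hA]; omega
  · by_cases hB : B = 0
    · simp [hB]
    · rw [e2, natDegree_mul hM hB]; omega

noncomputable def ht (E : Par (RatFunc K)) (P : E.Pt) : ℕ :=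
  max (exists_xrep P).choose.natDegree (exists_xrep P).choose_spec.choose.natDegree

theorem XRep.ht_eq {P : E.Pt} {A B : K[X]} (h : XRep E P A B) :
    ht E P = max A.natDegree B.natDegree := by
  have h' := (exists_xrep P).choose_spec.choose_spec
  exact le_antisymm (natDegree_le_of_cross h'.1 h.1 (h'.cross h))
    (natDegree_le_of_cross h.1 h'.1 (h.cross h'))

theorem ht_zero : ht E 0 = 0 := by
  have : XRep E 0 1 0 := ⟨isCoprime_one_left, Or.inl ⟨rfl, rfl⟩⟩
  simp [this.ht_eq]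

theorem XRep.neg {P : E.Pt} {A B : K[X]} (h : XRep E P A B) : XRep E (-P) A B := by
  refine ⟨h.1, ?_⟩
  rcases h.2 with ⟨rfl, rfl⟩ | ⟨h1, r, s, h2, h3⟩
  · exact Or.inl ⟨neg_zero, rfl⟩
  · exact Or.inr ⟨h1, r, -s, h2.neg, h3⟩

theorem ht_neg (P : E.Pt) : ht E (-P) = ht E P := by
  obtain ⟨A, B, h⟩ := exists_xrep P
  rw [h.ht_eq, h.neg.ht_eq]

theorem top_ne {A B : K[X]} (h : IsCoprime A B) :
    A.coeff (max A.natDegree B.natDegree) ≠ 0 ∨ B.coeff (max A.natDegree B.natDegree) ≠ 0 := by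
  by_cases hA : A = 0
  · subst hA
    have hB : B ≠ 0 := by rintro rfl; exact not_isCoprime_zero_zero h
    right; simpa using hB
  by_cases hB : B = 0
  · subst hB
    left; simpa using hA
  rcases le_total A.natDegree B.natDegree with h1 | h1
  · right; rw [max_eq_right h1]; simpa using hB
  · left; rw [max_eq_left h1]; simpa using hA

theorem gauss_le {A B A' B' U0 U1 U2 : K[X]} {n : ℕ} (h : IsCoprime A B) (h' : IsCoprime A' B')
    (h0 : U0 ≠ 0) (d0 : U0.natDegree ≤ n) (d1 : U1.natDegree ≤ n) (d2 : U2.natDegree ≤ n)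
    (e1 : U0 * (A * B' + A' * B) = U1 * (B * B')) (e2 : U0 * (A * A') = U2 * (B * B'))
    (hB : B * B' ≠ 0) :
    max A.natDegree B.natDegree + max A'.natDegree B'.natDegree ≤ n := by
  have t := top_ne h
  have t' := top_ne h'
  obtain ⟨x, y, hxy⟩ := h
  obtain ⟨z, w, hzw⟩ := h'
  obtain ⟨c0, c1, c2, hc⟩ : ∃ c0 c1 c2 : K[X],
      c0 * (B * B') + c1 * (A * B' + A' * B) + c2 * (A * A') = 1 :=
    ⟨2 * x * y * w * A - y ^ 2 * z * A + y ^ 2 * w * B, x ^ 2 * w * A + y ^ 2 * z * B,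
      x ^ 2 * z * A - x ^ 2 * w * B + 2 * x * y * z * B, by
        linear_combination (z * A' + w * B') * (x * A + y * B + 1) * hxy + hzw⟩
  set M := c0 * U0 + c1 * U1 + c2 * U2 with hM
  have m0 : U0 = M * (B * B') := by linear_combination -U0 * hc + c1 * e1 + c2 * e2
  have hM0 : M ≠ 0 := by intro h; rw [h, zero_mul] at m0; exact h0 m0
  have m1 : U1 = M * (A * B' + A' * B) := by
    apply mul_right_cancel₀ hB
    linear_combination -e1 + (A * B' + A' * B) * m0
  have m2 : U2 = M * (A * A') := by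
    apply mul_right_cancel₀ hB
    linear_combination -e2 + (A * A') * m0
  have key : ∀ U V : K[X], U = M * V → U.natDegree ≤ n →
      V.coeff (max A.natDegree B.natDegree + max A'.natDegree B'.natDegree) ≠ 0 →
      max A.natDegree B.natDegree + max A'.natDegree B'.natDegree ≤ n := by
    intro U V e d hV
    have h1 := le_natDegree_of_ne_zero hV
    have hV0 : V ≠ 0 := by rintro rfl; simp at hV
    rw [e, natDegree_mul hM0 hV0] at d
    omega
  have cm : ∀ U V : K[X], U.natDegree ≤ max A.natDegree B.natDegree →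
      V.natDegree ≤ max A'.natDegree B'.natDegree →
      (U * V).coeff (max A.natDegree B.natDegree + max A'.natDegree B'.natDegree) =
      U.coeff (max A.natDegree B.natDegree) * V.coeff (max A'.natDegree B'.natDegree) :=
    fun U V h1 h2 => coeff_mul_add_eq_of_natDegree_le h1 h2
  by_contra hcon
  have k0 := mt (key _ _ m0 d0) hcon
  have k1 := mt (key _ _ m1 d1) hcon
  have k2 := mt (key _ _ m2 d2) hcon
  rw [not_not] at k0 k1 k2
  rw [cm _ _ (le_max_right _ _) (le_max_right _ _)] at k0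
  rw [cm _ _ (le_max_left _ _) (le_max_left _ _)] at k2
  rw [coeff_add, cm _ _ (le_max_left _ _) (le_max_right _ _), mul_comm A' B,
    cm _ _ (le_max_right _ _) (le_max_left _ _)] at k1
  rcases t with t | t <;> rcases t' with t' | t'
  · exact mul_ne_zero t t' k2
  · rw [(mul_eq_zero.1 k0).resolve_right t', zero_mul, add_zero] at k1
    exact mul_ne_zero t t' k1
  · rw [(mul_eq_zero.1 k2).resolve_right t', zero_mul, zero_add] at k1
    exact mul_ne_zero t t' k1
  · exact mul_ne_zero t t' k0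

theorem deg_mul_le {U V : K[X]} {a b : ℕ} (h1 : U.natDegree ≤ a) (h2 : V.natDegree ≤ b) :
    (U * V).natDegree ≤ a + b := natDegree_mul_le.trans (add_le_add h1 h2)

theorem cop_aux {u v F1 F2 G1 G2 φ ψ : K[X]}
    (h : u * (F2 * φ + G2 * ψ) + v * (F1 * φ + G1 * ψ) = 1) : IsCoprime φ ψ :=
  ⟨u * F2 + v * F1, u * G2 + v * G1, by linear_combination h⟩

theorem ht_double {γ : K} (hγ : E.g = algebraMap K[X] (RatFunc K) (C γ)) (P : E.Pt) :
    ht E (P + P) = 4 * ht E P := by
  obtain ⟨A, B, h⟩ := exists_xrep P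
  rcases h.2 with ⟨rfl, rfl⟩ | ⟨h1, r, s, h2, h3⟩
  · simp [ht_zero]
  set ι := algebraMap K[X] (RatFunc K) with hι
  have inj : Function.Injective ι := RatFunc.algebraMap_injective K
  have g0 : γ ≠ 0 := by rintro rfl; exact E.hg (by simp [hγ])
  have gΔ : 27 * γ + 4 ≠ 0 := by
    intro h0; apply E.hΔ
    have : (27 : RatFunc K) * E.g + 4 = ι (C (27 * γ + 4)) := by
      rw [hγ]; simp only [map_add, map_mul, map_ofNat]
    rw [this, h0]; simp
  have g2 : (2 : K) ≠ 0 := by
    intro h0; apply E.h2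
    have : (2 : RatFunc K) = ι (C 2) := by simp only [map_ofNat]
    rw [this, h0]; simp
  have g4 : (4 : K) ≠ 0 := by rw [show (4 : K) = 2 * 2 by norm_num]; exact mul_ne_zero g2 g2
  set φ := C γ * A ^ 4 + 4 * A ^ 2 * B ^ 2 - 8 * A * B ^ 3 with hφ
  set ψ := B * (C γ * A ^ 3 + B * (B - A) ^ 2) with hψ
  have b1 : (B * (3 * C γ ^ 2 * A ^ 2 + 2 * C γ * A * B - (1 + 8 * C γ) * B ^ 2)) * φ +
      ((4 + 27 * C γ) * B ^ 3 - 10 * C γ * A * B ^ 2 + C γ * A ^ 2 * B - 3 * C γ ^ 2 * A ^ 3) * ψ =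
      C (27 * γ + 4) * B ^ 7 := by
    simp only [map_add, map_mul, map_ofNat, hφ, hψ]; ring
  have b2 : (24 * B ^ 3 - 44 * A * B ^ 2 + 16 * A ^ 2 * B + (4 + 27 * C γ) * A ^ 3) * φ +
      (192 * A * B ^ 2 - 64 * A ^ 2 * B - 16 * A ^ 3) * ψ = C (γ * (27 * γ + 4)) * A ^ 7 := by
    simp only [map_add, map_mul, map_ofNat, hφ, hψ]; ring
  have cop : IsCoprime φ (4 * ψ) := by
    have u4 : IsUnit (4 : K[X]) := by
      rw [show (4 : K[X]) = C 4 by simp only [map_ofNat]]; exact isUnit_C.2 (IsUnit.mk0 _ g4)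
    rw [isCoprime_mul_unit_left_right u4]
    have c7 : IsCoprime (C (γ * (27 * γ + 4)) * A ^ 7) (C (27 * γ + 4) * B ^ 7) := by
      rw [isCoprime_mul_unit_left_left (isUnit_C.2 (IsUnit.mk0 _ (mul_ne_zero g0 gΔ))),
        isCoprime_mul_unit_left_right (isUnit_C.2 (IsUnit.mk0 _ gΔ))]
      exact h.1.pow
    obtain ⟨u, v, huv⟩ := c7
    rw [← b1, ← b2] at huv
    exact cop_aux huv
  have o := h2.on
  simp only [On] at o
  have hψι : ι ψ = ι B ^ 4 * (E.d * s ^ 2) := by
    simp only [hψ, map_add, map_mul, map_pow, map_sub, ← h3, ← hγ, o]; ring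
  have hB : ι B ≠ 0 := fun h0 => h1 (inj (h0.trans (map_zero ι).symm))
  have hx : XRep E (P + P) φ (4 * ψ) := by
    refine ⟨cop, ?_⟩
    by_cases hs : s = 0
    · subst hs
      refine Or.inl ⟨h2.add_eq_zero (by rw [neg_zero]; exact h2), ?_⟩
      have : ψ = 0 := inj (by rw [hψι]; simp)
      simp [this]
    · obtain ⟨l, n, r3, c, e1, -, k⟩ := add_col h2 h2 (fun hh => hs (by
        apply mul_left_cancel₀ E.h2; linear_combination hh.2))
      refine Or.inr ⟨fun h0 => ?_, r3, _, k, ?_⟩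
      · have := congrArg ι h0
        simp only [map_mul, map_ofNat, hψι, map_zero] at this
        have e4 : (4 : RatFunc K) ≠ 0 := by
          rw [show (4 : RatFunc K) = 2 * 2 by norm_num]; exact mul_ne_zero E.h2 E.h2
        exact mul_ne_zero e4 (mul_ne_zero (pow_ne_zero _ hB)
          (mul_ne_zero E.hd (pow_ne_zero _ hs))) this
      · have d := c.der
        rw [← e1] at d
        have hφι : ι φ = ι B ^ 4 * (E.g * r ^ 4 + 4 * r ^ 2 - 8 * r) := by
          simp only [hφ, map_add, map_mul, map_pow, map_sub, map_ofNat, ← h3, ← hγ]; ring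
        rw [map_mul, hψι, hφι, map_ofNat]
        apply mul_left_cancel₀ E.hg
        have c1 := c.e1
        linear_combination (4 * ι B ^ 4 * E.d * s ^ 2) * c1 - ι B ^ 4 *
          (3 * E.g * r ^ 2 + 2 * r - 2 + 2 * E.d * l * s) * d -
          4 * ι B ^ 4 * (1 + 2 * E.g * r) * o
  rw [hx.ht_eq, h.ht_eq]
  set n := max A.natDegree B.natDegree with hn
  have dA : A.natDegree ≤ n := le_max_left _ _
  have dB : B.natDegree ≤ n := le_max_right _ _
  have d4 : (4 * ψ).natDegree = ψ.natDegree := by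
    rw [show (4 : K[X]) = C 4 by simp only [map_ofNat], natDegree_C_mul g4]
  rw [d4]
  apply le_antisymm
  · refine max_le ?_ ?_
    · rw [hφ]; compute_degree; omega
    · rw [hψ]; compute_degree; omega
  · set N := max φ.natDegree ψ.natDegree with hN
    have dφ : φ.natDegree ≤ N := le_max_left _ _
    have dψ : ψ.natDegree ≤ N := le_max_right _ _
    have gen : ∀ U V : K[X], U.natDegree ≤ 3 * n → V.natDegree ≤ 3 * n →
        (U * φ + V * ψ).natDegree ≤ 3 * n + N := fun U V h1 h2 =>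
      (natDegree_add_le _ _).trans (max_le (deg_mul_le h1 dφ) (deg_mul_le h2 dψ))
    have k1 : (C (27 * γ + 4) * B ^ 7).natDegree ≤ 3 * n + N := by
      rw [← b1]; refine gen _ _ ?_ ?_ <;> (compute_degree; omega)
    have k2 : (C (γ * (27 * γ + 4)) * A ^ 7).natDegree ≤ 3 * n + N := by
      rw [← b2]; refine gen _ _ ?_ ?_ <;> (compute_degree; omega)
    rw [natDegree_C_mul gΔ, natDegree_pow] at k1
    rw [natDegree_C_mul (mul_ne_zero g0 gΔ), natDegree_pow] at k2
    omega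

theorem ht_par_le {γ : K} (hγ : E.g = algebraMap K[X] (RatFunc K) (C γ)) (P Q : E.Pt) :
    ht E (P + Q) + ht E (P - Q) ≤ 2 * ht E P + 2 * ht E Q := by
  obtain ⟨A, B, h⟩ := exists_xrep P
  obtain ⟨A', B', h'⟩ := exists_xrep Q
  rcases h.2 with ⟨rfl, rfl⟩ | ⟨h1, r1, s1, h2, h3⟩
  · rw [zero_add, zero_sub, ht_neg]; omega
  rcases h'.2 with ⟨rfl, rfl⟩ | ⟨k1, r2, s2, k2, k3⟩
  · rw [add_zero, sub_zero]; omega
  by_cases hr : r1 = r2
  · subst hr
    have : (s1 - s2) * (s1 + s2) = 0 := by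
      apply mul_left_cancel₀ E.hd
      have o1 := h2.on
      have o2 := k2.on
      simp only [On] at o1 o2
      linear_combination o1 - o2
    rcases mul_eq_zero.1 this with e | e
    · have : P = Q := h2.eq (by rw [sub_eq_zero.1 e]; exact k2)
      subst this
      rw [sub_self, ht_zero, ht_double hγ]; omega
    · have : P = -Q := h2.eq (by rw [eq_neg_of_add_eq_zero_left e]; exact k2.neg)
      subst this
      rw [neg_add_cancel, ht_zero, sub_eq_add_neg, ht_double hγ, ht_neg]; omega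
  obtain ⟨l, n, r3, c, e1, e2, p3⟩ := add_col h2 k2 (fun hh => hr hh.1)
  obtain ⟨l', n', r4, c', e1', e2', p4⟩ := add_col h2 k2.neg (fun hh => hr hh.1)
  rw [← sub_eq_add_neg] at p4
  obtain ⟨A3, B3, x3⟩ := exists_xrep (P + Q)
  obtain ⟨A4, B4, x4⟩ := exists_xrep (P - Q)
  obtain ⟨b3, r3', s3, y3, z3⟩ := x3.2.resolve_left (fun hh => p3.ne_zero hh.1)
  obtain ⟨b4, r4', s4, y4, z4⟩ := x4.2.resolve_left (fun hh => p4.ne_zero hh.1)
  rw [← (p3.unique y3).1] at z3
  rw [← (p4.unique y4).1] at z4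
  rw [x3.ht_eq, x4.ht_eq, h.ht_eq, h'.ht_eq]
  set ι := algebraMap K[X] (RatFunc K) with hι
  have inj : Function.Injective ι := RatFunc.algebraMap_injective K
  have o1 := h2.on
  have o2 := k2.on
  simp only [On] at o1 o2
  have l1 : l * (r1 - r2) = s1 - s2 := by rw [e1, e2]; ring
  have l2 : l' * (r1 - r2) = s1 + s2 := by linear_combination e2' - e1'
  have f3 : E.g * r3 * (r1 - r2) ^ 2 =
      E.d * (s1 - s2) ^ 2 - (1 + E.g * (r1 + r2)) * (r1 - r2) ^ 2 := by
    rw [← l1]; linear_combination (r1 - r2) ^ 2 * c.e1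
  have f4 : E.g * r4 * (r1 - r2) ^ 2 =
      E.d * (s1 + s2) ^ 2 - (1 + E.g * (r1 + r2)) * (r1 - r2) ^ 2 := by
    rw [← l2]; linear_combination (r1 - r2) ^ 2 * c'.e1
  have hr' : r1 - r2 ≠ 0 := sub_ne_zero.2 hr
  have fs : E.g * (r1 - r2) ^ 2 * (r3 + r4) =
      2 * ((E.g * r1 * r2 - 2) * (r1 + r2) + 2 * r1 * r2 + 2) := by
    linear_combination f3 + f4 + 2 * o1 + 2 * o2
  have fp : E.g * (r1 - r2) ^ 2 * (r3 * r4) =
      E.g * r1 ^ 2 * r2 ^ 2 + 4 * r1 * r2 - 4 * (r1 + r2) := by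
    apply mul_left_cancel₀ (mul_ne_zero E.hg (pow_ne_zero 2 hr'))
    have : E.g * (r1 - r2) ^ 2 * (E.g * (r1 - r2) ^ 2 * (r3 * r4)) =
        (E.g * r3 * (r1 - r2) ^ 2) * (E.g * r4 * (r1 - r2) ^ 2) := by ring
    rw [this, f3, f4]
    linear_combination (E.d * s1 ^ 2 + (E.g * r1 ^ 3 + (1 - r1) ^ 2) - 2 * E.d * s2 ^ 2 -
      2 * ((1 + E.g * (r1 + r2)) * (r1 - r2) ^ 2)) * o1 +
      (E.d * s2 ^ 2 + (E.g * r2 ^ 3 + (1 - r2) ^ 2) - 2 * (E.g * r1 ^ 3 + (1 - r1) ^ 2) -
      2 * ((1 + E.g * (r1 + r2)) * (r1 - r2) ^ 2)) * o2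
  have hB : ι B ≠ 0 := fun h0 => h1 (inj (h0.trans (map_zero ι).symm))
  have hB' : ι B' ≠ 0 := fun h0 => k1 (inj (h0.trans (map_zero ι).symm))
  set a := max A.natDegree B.natDegree with ha
  set b := max A'.natDegree B'.natDegree with hb
  have dA : A.natDegree ≤ a := le_max_left _ _
  have dB : B.natDegree ≤ a := le_max_right _ _
  have dA' : A'.natDegree ≤ b := le_max_left _ _
  have dB' : B'.natDegree ≤ b := le_max_right _ _
  refine gauss_le (U0 := C γ * (A * B' - A' * B) ^ 2)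
    (U1 := 2 * ((C γ * (A * A') - 2 * (B * B')) * (A * B' + A' * B) + 2 * (A * A') * (B * B') +
      2 * (B * B') ^ 2))
    (U2 := C γ * (A * A') ^ 2 + 4 * (A * A') * (B * B') - 4 * (A * B' + A' * B) * (B * B'))
    x3.1 x4.1 ?_ ?_ ?_ ?_ ?_ ?_ (mul_ne_zero b3 b4)
  · intro h0
    have := congrArg ι h0
    simp only [map_mul, map_pow, map_sub, ← h3, ← k3, ← hγ, map_zero] at this
    refine mul_ne_zero E.hg (pow_ne_zero 2 ?_) this
    rw [show r1 * ι B * ι B' - r2 * ι B' * ι B = (r1 - r2) * ι B * ι B' by ring]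
    exact mul_ne_zero (mul_ne_zero hr' hB) hB'
  · compute_degree; omega
  · compute_degree; omega
  · compute_degree; omega
  · apply inj
    simp only [map_mul, map_pow, map_sub, map_add, map_ofNat, ← h3, ← k3, ← hγ, ← z3, ← z4]
    linear_combination (ι B ^ 2 * ι B' ^ 2 * ι B3 * ι B4) * fs
  · apply inj
    simp only [map_mul, map_pow, map_sub, map_add, map_ofNat, ← h3, ← k3, ← hγ, ← z3, ← z4]
    linear_combination (ι B ^ 2 * ι B' ^ 2 * ι B3 * ι B4) * fp

theorem ht_par {γ : K} (hγ : E.g = algebraMap K[X] (RatFunc K) (C γ)) (P Q : E.Pt) :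
    (ht E (P + Q) : ℤ) + ht E (P - Q) = 2 * ht E P + 2 * ht E Q := by
  have h1 := ht_par_le hγ P Q
  have h2 := ht_par_le hγ (P + Q) (P - Q)
  rw [show P + Q + (P - Q) = P + P by abel, show P + Q - (P - Q) = Q + Q by abel,
    ht_double hγ, ht_double hγ] at h2
  omega

theorem ht_line {γ : K} (hγ : E.g = algebraMap K[X] (RatFunc K) (C γ)) (P Q : E.Pt) (n : ℤ) :
    (ht E (n • P + Q) : ℤ) = n ^ 2 * ht E P + n * (ht E (P + Q) - ht E P - ht E Q) + ht E Q := by
  have key : ∀ n : ℤ, (ht E ((n + 1) • P + Q) : ℤ) + ht E ((n - 1) • P + Q) =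
      2 * ht E (n • P + Q) + 2 * ht E P := by
    intro n
    have := ht_par hγ (n • P + Q) P
    rwa [show n • P + Q + P = (n + 1) • P + Q by rw [add_smul, one_smul]; abel,
      show n • P + Q - P = (n - 1) • P + Q by rw [sub_smul, one_smul]; abel] at this
  have both : ∀ n : ℤ, ((ht E (n • P + Q) : ℤ) =
      n ^ 2 * ht E P + n * (ht E (P + Q) - ht E P - ht E Q) + ht E Q) ∧
      ((ht E ((n + 1) • P + Q) : ℤ) =
      (n + 1) ^ 2 * ht E P + (n + 1) * (ht E (P + Q) - ht E P - ht E Q) + ht E Q) := by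
    intro n
    induction n using Int.induction_on with
    | zero => refine ⟨by simp, ?_⟩; simp only [zero_add, one_smul]; ring
    | succ n ih =>
      refine ⟨ih.2, ?_⟩
      have := key (n + 1)
      rw [add_sub_cancel_right] at this
      linear_combination this - ih.1 + 2 * ih.2
    | pred n ih =>
      refine ⟨?_, by rw [sub_add_cancel]; exact ih.1⟩
      have := key (-n)
      linear_combination this - ih.2 + 2 * ih.1
  exact (both n).1

theorem ht_quad {γ : K} (hγ : E.g = algebraMap K[X] (RatFunc K) (C γ)) (P Q : E.Pt) (a b : ℤ) :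
    (ht E (a • P + b • Q) : ℤ) = a ^ 2 * ht E P + b ^ 2 * ht E Q +
      a * b * (ht E P + ht E Q - ht E (P - Q)) := by
  have h1 := ht_line hγ P (b • Q) a
  have h2 := ht_line hγ Q 0 b
  have h3 := ht_line hγ Q P b
  have h4 := ht_par hγ P Q
  rw [add_zero, add_zero, ht_zero] at h2
  rw [add_comm (b • Q), add_comm Q] at h3
  rw [h1, h3, h2]
  push_cast
  linear_combination a * b * h4

end Pool.Agent.Lib.MP_2eac29_nt
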