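import Pool.Agent.Lib.MP_2eac29_nt.QM
import Pool.Agent.Lib.MP_2eac29_nt.CharP

/-!
Poles of the exact part of a differential of the second kind.
-/

namespace Pool.Agent.Lib.MP_2eac29_nt

open Polynomial

variable {K : Type} [Field K] [CharZero K]

theorem irr_not_dvd_der {π : K[X]} (h : Irreducible π) : ¬ π ∣ derivative π := by
  rw [dvd_derivative_iff, derivative_eq_zero]
  exact (h.natDegree_pos).ne'

theorem irr_not_dvd_nat {π : K[X]} (h : Irreducible π) {n : ℕ} (hn : n ≠ 0) :
    ¬ π ∣ (n : K[X]) := fun hd => h.not_isUnit (isUnit_of_dvd_unit hd (by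
  rw [← map_natCast C]
  exact isUnit_C.2 (IsUnit.mk0 _ (Nat.cast_ne_zero.2 hn))))

theorem pole_dvd {D N B0 B : K[X]} (hD : Squarefree D) (hc : IsCoprime N B0) (h0 : B0 ≠ 0)
    (h : B0 ^ 2 ∣ B * (2 * D * (derivative N * B0 - N * derivative B0) +
      derivative D * N * B0)) : B0 ∣ B := by
  obtain ⟨B1, B2, G, hr, e1, e2⟩ := UniqueFactorizationMonoid.exists_reduced_factors B0 h0 B
  suffices IsUnit B1 by
    rw [← e1, ← e2]; exact mul_dvd_mul_left _ this.dvd
  by_contra hu
  have hB1 : B1 ≠ 0 := by rintro rfl; exact h0 (by rw [← e1, mul_zero])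
  obtain ⟨π, hπ, hd⟩ := WfDvdMonoid.exists_irreducible_factor hu hB1
  have pr := hπ.prime
  have hd0 : π ∣ B0 := e1 ▸ hd.mul_left G
  obtain ⟨e, V, hV, hB⟩ := WfDvdMonoid.max_power_factor h0 hπ
  obtain ⟨e, rfl⟩ := Nat.exists_eq_succ_of_ne_zero (show e ≠ 0 by
    rintro rfl; rw [pow_zero, one_mul] at hB; exact hV (hB ▸ hd0))
  rw [Nat.succ_eq_add_one] at hB
  have hN : ¬ π ∣ N := fun hh => hπ.not_isUnit (hc.isUnit_of_dvd' hh hd0)
  have p0 : π ≠ 0 := hπ.ne_zero
  have key : π ^ (e + 1) ∣ B := by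
    have h1 : (π ^ (e + 1)) ^ 2 ∣ B * (2 * D * (derivative N * B0 - N * derivative B0) +
      derivative D * N * B0) := (pow_dvd_pow_of_dvd ⟨V, hB⟩ 2).trans h
    have hder : derivative B0 = π ^ e * (((e + 1 : ℕ) : K[X]) * derivative π * V +
        π * derivative V) := by
      rw [hB, derivative_mul, derivative_pow_succ]
      simp only [map_add, map_natCast, map_one]
      push_cast; ring
    by_cases hπD : π ∣ D
    · obtain ⟨D1, rfl⟩ := hπD
      have hD1 : ¬ π ∣ D1 := by
        rintro ⟨D2, rfl⟩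
        exact hπ.not_isUnit (hD π ⟨D2, by ring⟩)
      have e3 : 2 * (π * D1) * (derivative N * B0 - N * derivative B0) +
          derivative (π * D1) * N * B0 = π ^ (e + 1) * (π * (2 * D1 * (derivative N * V -
            N * derivative V) + derivative D1 * N * V) -
            ((2 * e + 1 : ℕ) : K[X]) * derivative π * D1 * N * V) := by
        rw [hder, derivative_mul]
        rw [hB]
        push_cast; ring
      rw [e3, pow_two, mul_left_comm, mul_dvd_mul_iff_left (pow_ne_zero _ p0)] at h1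
      refine pr.pow_dvd_of_dvd_mul_right _ ?_ h1
      rw [dvd_sub_right (dvd_mul_right _ _)]
      simp only [pr.dvd_mul, not_or]
      exact ⟨⟨⟨⟨irr_not_dvd_nat hπ (by omega), irr_not_dvd_der hπ⟩, hD1⟩, hN⟩, hV⟩
    · have e3 : 2 * D * (derivative N * B0 - N * derivative B0) +
          derivative D * N * B0 = π ^ e * (π * (2 * D * (derivative N * V -
            N * derivative V) + derivative D * N * V) -
            ((2 * e + 2 : ℕ) : K[X]) * derivative π * D * N * V) := by
        rw [hder]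
        rw [hB]
        push_cast; ring
      rw [e3, show (π ^ (e + 1)) ^ 2 = π ^ e * π ^ (e + 2) by ring, mul_left_comm,
        mul_dvd_mul_iff_left (pow_ne_zero _ p0)] at h1
      refine (pow_dvd_pow π (by omega)).trans (pr.pow_dvd_of_dvd_mul_right _ ?_ h1)
      rw [dvd_sub_right (dvd_mul_right _ _)]
      simp only [pr.dvd_mul, not_or]
      exact ⟨⟨⟨⟨irr_not_dvd_nat hπ (by omega), irr_not_dvd_der hπ⟩, hπD⟩, hN⟩, hV⟩
  have hB2 : ¬ π ∣ B2 := fun hh => hπ.not_isUnit (hr hd hh)
  rw [← e2] at key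
  have k2 := pr.pow_dvd_of_dvd_mul_right _ hB2 key
  have k3 : π ^ (e + 1) * π ∣ B0 := e1 ▸ mul_dvd_mul k2 hd
  rw [hB] at k3
  exact hV ((mul_dvd_mul_iff_left (pow_ne_zero _ p0)).1 k3)

theorem pole_deg {g m n c : K} (hg : g ≠ 0) {A B N : K[X]} {p : ℕ} (hp : 2 ≤ p) (hB : B ≠ 0)
    (dA : A.natDegree ≤ p) (dB : B.natDegree + 1 ≤ p)
    (h : 2 * C m * A * B = 2 * (C n * X + C c) * B ^ 2 +
      (2 * DD g * (derivative N * B - N * derivative B) + derivative (DD g) * N * B)) :
    N.natDegree + 2 ≤ p := by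
  by_contra hcon
  have hN : N ≠ 0 := by rintro rfl; simp at hcon; omega
  set a := N.natDegree with ha
  set b := B.natDegree with hb
  have top : ∀ F : K[X], (X * derivative F).natDegree ≤ F.natDegree ∧
      (X * derivative F).coeff F.natDegree = F.natDegree * F.leadingCoeff := by
    intro F
    by_cases h0 : F.natDegree = 0
    · simp [derivative_of_natDegree_zero h0, h0]
    · obtain ⟨j, hj⟩ := Nat.exists_eq_succ_of_ne_zero h0
      refine ⟨natDegree_mul_le.trans ?_, ?_⟩
      · have := natDegree_derivative_le F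
        have := natDegree_X_le (R := K)
        omega
      · rw [leadingCoeff, hj, coeff_X_mul, coeff_derivative]; push_cast; ring
  have e : X * (2 * C m * A * B) = X * (2 * (C n * X + C c) * B ^ 2) +
      (2 * (DD g * ((X * derivative N) * B) - DD g * (N * (X * derivative B))) +
        (X * derivative (DD g)) * (N * B)) := by rw [h]; ring
  have c0 := congrArg (fun F => coeff F (3 + (a + b))) e
  simp only [coeff_add, coeff_ofNat_mul, coeff_sub] at c0
  have t3 := top (DD g)
  rw [DD_deg hg, leadingCoeff, DD_deg hg, DD_c3] at t3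
  rw [coeff_mul_add_eq_of_natDegree_le (DD_deg_le g) (natDegree_mul_le.trans
      (add_le_add (top N).1 le_rfl)), coeff_mul_add_eq_of_natDegree_le (top N).1 le_rfl,
    coeff_mul_add_eq_of_natDegree_le (DD_deg_le g) (natDegree_mul_le.trans
      (add_le_add le_rfl (top B).1)), coeff_mul_add_eq_of_natDegree_le le_rfl (top B).1,
    coeff_mul_add_eq_of_natDegree_le t3.1 natDegree_mul_le,
    coeff_mul_add_eq_of_natDegree_le le_rfl le_rfl, (top N).2, (top B).2, t3.2, DD_c3,
    coeff_eq_zero_of_natDegree_lt (p := X * (2 * C m * A * B)),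
    coeff_eq_zero_of_natDegree_lt (p := X * (2 * (C n * X + C c) * B ^ 2))] at c0
  · simp only [leadingCoeff, ← ha, ← hb] at c0
    have hab : ((2 * (a - b) + 3 : ℕ) : K) ≠ 0 := Nat.cast_ne_zero.2 (by omega)
    rw [Nat.cast_add, Nat.cast_mul, Nat.cast_sub (by omega)] at hab
    refine mul_ne_zero (mul_ne_zero (mul_ne_zero hg (leadingCoeff_ne_zero.2 hN))
      (leadingCoeff_ne_zero.2 hB)) hab ?_
    simp only [leadingCoeff, ← ha, ← hb]
    push_cast at c0 ⊢
    linear_combination -c0
  · have : (X * (2 * (C n * X + C c) * B ^ 2)).natDegree ≤ 2 * b + 2 := by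
      compute_degree; omega
    omega
  · have : (X * (2 * C m * A * B)).natDegree ≤ p + b + 1 := by
      compute_degree; omega
    omega

omit [CharZero K] in
theorem op_frac {δ : Der (RatFunc K)} (hδ : ∀ F : K[X], δ.f (algebraMap K[X] (RatFunc K) F) =
      algebraMap K[X] (RatFunc K) (derivative F)) {E : Par (RatFunc K)} {D N B : K[X]}
    (hD : E.d = algebraMap K[X] (RatFunc K) D) {q : RatFunc K}
    (h : q * algebraMap K[X] (RatFunc K) B = algebraMap K[X] (RatFunc K) N) :
    op δ E q * algebraMap K[X] (RatFunc K) B ^ 2 = algebraMap K[X] (RatFunc K)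
      (2 * D * (derivative N * B - N * derivative B) + derivative D * N * B) := by
  have := congrArg δ.f h
  rw [δ.mul, hδ, hδ] at this
  simp only [op, hD, hδ, map_add, map_mul, map_sub, map_ofNat, ← this, ← h]
  ring

theorem pole_main {δ : Der (RatFunc K)} (hδ : ∀ F : K[X], δ.f (algebraMap K[X] (RatFunc K) F) =
      algebraMap K[X] (RatFunc K) (derivative F)) {E : Par (RatFunc K)} {g : K} (hg : g ≠ 0)
    (hΔ : 27 * g + 4 ≠ 0) (hD : E.d = algebraMap K[X] (RatFunc K) (DD g)) {r q : RatFunc K}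
    {A B M w : K[X]}
    (hr : r * algebraMap K[X] (RatFunc K) B = algebraMap K[X] (RatFunc K) A)
    (h : 2 * (r * algebraMap K[X] (RatFunc K) M) =
      2 * algebraMap K[X] (RatFunc K) w + op δ E q) :
    ∃ N : K[X], 2 * M * A * B = 2 * w * B ^ 2 +
      (2 * DD g * (derivative N * B - N * derivative B) + derivative (DD g) * N * B) := by
  have inj := RatFunc.algebraMap_injective K
  have hq := q.num_div_denom
  rw [div_eq_iff (by simpa using q.denom_ne_zero)] at hq
  have o1 := op_frac hδ hD hq.symm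
  obtain ⟨B3, hB3⟩ := pole_dvd (B := B) (Separable.squarefree (DD_sep hg hΔ))
    q.isCoprime_num_denom q.denom_ne_zero ⟨2 * M * A - 2 * w * B, inj (by
      rw [map_mul, ← o1]
      simp only [map_mul, map_sub, map_pow, map_ofNat, ← hr]
      linear_combination (-algebraMap K[X] (RatFunc K) B *
        algebraMap K[X] (RatFunc K) q.denom ^ 2) * h)⟩
  have o2 := op_frac hδ hD (q := q) (B := B) (N := q.num * B3) (by
    rw [hB3, map_mul, map_mul, hq]; ring)
  refine ⟨q.num * B3, inj ?_⟩
  rw [map_add, ← o2]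
  simp only [map_mul, map_pow, map_ofNat, ← hr]
  linear_combination (algebraMap K[X] (RatFunc K) B ^ 2) * h

end Pool.Agent.Lib.MP_2eac29_nt
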