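import Pool.Agent.Lib.MP_2eac29_nt.Gauss
import Pool.Agent.Lib.MP_2eac29_nt.Pole
import Pool.Agent.Lib.MP_2eac29_nt.Height

/-!
A point of degree at most `p` whose multiplier is divisible by `p` lifts the Frobenius map.
-/

namespace Pool.Agent.Lib.MP_2eac29_nt

open Polynomial Par

variable {p : ℕ} {O k K : Type} [CommRing O] [Field k] [Field K] [Algebra O K]
  [IsFractionRing O K] [IsDomain O] [IsNoetherianRing O] [CharZero K] [hp : Fact p.Prime]
  [CharP k p] [PerfectRing k p]

omit [CharZero K] in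
theorem frob_first (c : Ctx p O k) {h : ℕ} (hh : p = 2 * h + 1) {g g' : O} (hg : c.ρ g ≠ 0)
    (hΔ : 27 * c.ρ g + 4 ≠ 0) {E : Par (RatFunc K)} (hEd : E.d = io K (DD g))
    (hEg : E.g = io K (C g')) {F : Par k} {T : F.Pt} (hT : F.Is T 0 1) {P : E.Pt}
    (hred : Red (c.place K) E F P T) (hht : ht E P ≤ p) {δ : Der (RatFunc K)}
    (hδ : ∀ F : K[X], δ.f (algebraMap K[X] (RatFunc K) F) =
      algebraMap K[X] (RatFunc K) (derivative F)) {u v : O} (huv : u * v = 1) {w : RatFunc K}
    (hQ : QM δ E P (io K (C (p * v))) w) :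
    ∃ (A B S : O[X]) (r q : RatFunc K), A.natDegree ≤ p ∧ B.natDegree ≤ p ∧
      A.map c.ρ = X ^ p ∧ B.map c.ρ = 1 ∧ S.map c.ρ = DD (c.ρ g) ^ h ∧ c.ρ g' = c.ρ g ^ p ∧
      derivative A * B - A * derivative B = C (p * v) * S ∧
      DD g * S ^ 2 = B * (C g' * A ^ 3 + B * (B - A) ^ 2) ∧ r * io K B = io K A ∧
      2 * (r * io K (C (p * v))) = 2 * w + op δ E q := by
  obtain ⟨r, s, a, b, h1, ha, hb, h4⟩ := (hred.resolve_left fun hh => hT.ne_zero hh.2).resolve_right
    fun ⟨_, _, _, _, hh⟩ => hT.ne_zero hh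
  obtain ⟨rfl, rfl⟩ := hT.unique h4
  obtain ⟨r', s', k1, k2, -, q, k4⟩ := hQ.resolve_left fun hh => h1.ne_zero hh.1
  obtain ⟨rfl, rfl⟩ := h1.unique k1
  obtain ⟨A0, B0, hx⟩ := exists_xrep P
  rw [hx.ht_eq, max_le_iff] at hht
  obtain ⟨b0, r', s', x1, x2⟩ := hx.2.resolve_left fun hh => h1.ne_zero hh.1
  obtain ⟨rfl, rfl⟩ := h1.unique x1
  obtain ⟨A, B, hB, e1, e2, dA, dB⟩ := c.scale' b0 x2
  have inj := io_inj (O := O) K
  have hδ' : ∀ F : O[X], δ.f (io K F) = io K (derivative F) := fun F => by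
    rw [io_apply, hδ, derivative_map, io_apply]
  have eW : io K (derivative A * B - A * derivative B) = io K (C (p * v)) * s * io K B ^ 2 := by
    have := congrArg δ.f e1
    rw [δ.mul, hδ', hδ', k2] at this
    simp only [map_sub, map_mul (io K), ← this, ← e1]
    ring
  have o := h1.on
  simp only [On, hEd, hEg] at o
  have eC : DD g * (derivative A * B - A * derivative B) ^ 2 =
      C (p * v) ^ 2 * (B * (C g' * A ^ 3 + B * (B - A) ^ 2)) := by
    apply inj
    rw [map_mul, map_pow, eW]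
    simp only [map_sub, map_mul (io K), map_pow, map_add, ← e1]
    linear_combination (io K (C (p * v)) ^ 2 * io K B ^ 4) * o
  have eW0 : (derivative A * B - A * derivative B).map c.ρ = 0 := by
    have := congrArg (Polynomial.map c.ρ) eC
    rw [Polynomial.map_mul, Polynomial.map_mul, Polynomial.map_pow, Polynomial.map_pow, map_C,
      map_mul c.ρ, c.rp, zero_mul, C_0, zero_pow two_ne_zero, zero_mul, DD_map] at this
    exact pow_eq_zero_iff two_ne_zero |>.1 ((mul_eq_zero.1 this).resolve_left (DD_ne _))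
  obtain ⟨W1, hW1⟩ := (c.map_eq_zero _).1 eW0
  have v0 : v ≠ 0 := by rintro rfl; simp at huv
  have m0 : C (p * v) ≠ 0 := C_ne_zero.2 (mul_ne_zero c.p0 v0)
  have eS : derivative A * B - A * derivative B = C (p * v) * (C u * W1) := by
    rw [hW1, ← mul_assoc, ← C_mul, mul_assoc (p : O), mul_comm v, huv, mul_one]
  generalize C u * W1 = S at eS
  have es : s * io K (B ^ 2) = io K S := by
    apply mul_left_cancel₀ ((map_ne_zero_iff _ inj).2 m0)
    rw [← map_mul, ← eS, eW, map_pow]; ring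
  have eD : DD g * S ^ 2 = B * (C g' * A ^ 3 + B * (B - A) ^ 2) := by
    apply mul_left_cancel₀ (pow_ne_zero 2 m0)
    rw [← eC, eS]; ring
  obtain ⟨hB', A2, B2, y1, y2, y3⟩ := c.place_elim ha e1 e2
  obtain ⟨-, A3, B3, z1, z2, z3⟩ := c.place_elim hb es
    (Or.inr (by rw [Polynomial.map_pow]; exact pow_ne_zero _ hB'))
  obtain ⟨b, hb0, f1, f2, f3, f4⟩ := frob_shape hh (g' := c.ρ g') hg hΔ (A := A.map c.ρ)
    (B := B.map c.ρ) (S := S.map c.ρ) (natDegree_map_le.trans (dA ▸ hht.1))
    (natDegree_map_le.trans (dB ▸ hht.2)) hB' (by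
      rw [Polynomial.map_sub, Polynomial.map_mul, Polynomial.map_mul, sub_eq_zero,
        ← derivative_map, ← derivative_map] at eW0
      exact eW0) (by
      have := congrArg (Polynomial.map c.ρ) eD
      simpa only [Polynomial.map_mul, Polynomial.map_pow, Polynomial.map_add, Polynomial.map_sub,
        map_C, DD_map] using this) ⟨A2, B2, y1, by rw [y2, zero_mul], y3⟩ (by
      have := congrArg (fun F => coeff F 0) z3
      simp only [mul_coeff_zero, z2, one_mul, pow_two] at this
      apply mul_right_cancel₀ z1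
      rw [this, pow_two, mul_comm, Polynomial.map_mul, mul_coeff_zero])
  have fb : c.ρ (B.coeff 0) = b := by rw [← coeff_map, f2, coeff_C_zero]
  obtain ⟨e, he⟩ := (c.unit _ (fb ▸ hb0)).exists_left_inv
  have he' : C (c.ρ e) * C b = 1 := by rw [← C_mul, ← fb, ← map_mul, he, map_one, C_1]
  refine ⟨C e * A, C e * B, C e ^ 2 * S, r, q, (natDegree_C_mul_le _ _).trans (dA ▸ hht.1),
    (natDegree_C_mul_le _ _).trans (dB ▸ hht.2), ?_, ?_, ?_, f3, ?_, ?_, ?_, k4⟩
  · rw [Polynomial.map_mul, map_C, f1, ← mul_assoc, he', one_mul]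
  · rw [Polynomial.map_mul, map_C, f2, he']
  · rw [Polynomial.map_mul, Polynomial.map_pow, map_C, f4, ← mul_assoc, C_pow, ← mul_pow, he',
      one_pow, one_mul]
  · rw [derivative_C_mul, derivative_C_mul]
    linear_combination C e ^ 2 * eS
  · linear_combination C e ^ 4 * eD
  · rw [map_mul, map_mul, ← e1]; ring

theorem frob_struct (c : Ctx p O k) {h : ℕ} (hh : p = 2 * h + 1) (h1 : 1 ≤ h) {g g' : O}
    (hg : c.ρ g ≠ 0)
    (hΔ : 27 * c.ρ g + 4 ≠ 0) {E : Par (RatFunc K)} (hEd : E.d = io K (DD g))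
    (hEg : E.g = io K (C g')) {F : Par k} {T : F.Pt} (hT : F.Is T 0 1) {P : E.Pt}
    (hred : Red (c.place K) E F P T) (hht : ht E P ≤ p) {δ : Der (RatFunc K)}
    (hδ : ∀ F : K[X], δ.f (algebraMap K[X] (RatFunc K) F) =
      algebraMap K[X] (RatFunc K) (derivative F)) {u v n e : O} (huv : u * v = 1)
    (hQ : QM δ E P (io K (C (p * v))) (io K (C n * X + C e))) (hn : n * g' = u * g) :
    ∃ A B S N : O[X], A.natDegree ≤ p ∧ B.natDegree + 1 ≤ p ∧
      A.map c.ρ = X ^ p ∧ B.map c.ρ = 1 ∧ S.map c.ρ = DD (c.ρ g) ^ h ∧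
      derivative A * B - A * derivative B = C (p * v) * S ∧
      DD g * S ^ 2 = B * (C g' * A ^ 3 + B * (B - A) ^ 2) ∧
      2 * C (p * v) * A * B = 2 * (C n * X + C e) * B ^ 2 +
        (2 * DD g * (derivative N * B - N * derivative B) + derivative (DD g) * N * B) ∧
      N.natDegree + 2 ≤ p ∧ (DD (c.ρ g) ^ (h + 1) * N.map c.ρ).coeff (2 * p) = 2 := by
  obtain ⟨A, B, S, r, q, dA, dB, fA, fB, fS, fg, eW, eD, er, eq⟩ :=
    frob_first c hh hg hΔ hEd hEg hT hred hht hδ huv hQ
  have g0 : g ≠ 0 := by rintro rfl; exact hg (map_zero _)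
  have hB : B ≠ 0 := by rintro rfl; simp at fB
  have dB' : B.natDegree + 1 ≤ p := by
    by_contra hcon
    have dΦ : (C g' * A ^ 3 + B * (B - A) ^ 2).natDegree ≤ 3 * p := by compute_degree; omega
    have cΦ : (C g' * A ^ 3 + B * (B - A) ^ 2).coeff (3 * p) ≠ 0 := by
      intro h0
      have := congrArg c.ρ h0
      rw [← coeff_map, map_zero] at this
      simp only [Polynomial.map_mul, Polynomial.map_pow, Polynomial.map_add, Polynomial.map_sub,
        map_C, fA, fB, one_mul, coeff_add, ← pow_mul, mul_comm p 3, coeff_C_mul, coeff_X_pow,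
        if_true, mul_one] at this
      rw [coeff_eq_zero_of_natDegree_lt (lt_of_le_of_lt (b := 2 * p) (by compute_degree)
        (by omega)), add_zero, fg] at this
      exact pow_ne_zero _ hg this
    have hΦ : C g' * A ^ 3 + B * (B - A) ^ 2 ≠ 0 := by intro h0; rw [h0] at cΦ; simp at cΦ
    have hS : S ≠ 0 := by
      rintro rfl
      exact mul_ne_zero hB hΦ (by rw [← eD]; simp)
    have := congrArg natDegree eD
    rw [natDegree_mul (DD_ne g) (pow_ne_zero _ hS), natDegree_mul hB hΦ, DD_deg g0, natDegree_pow,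
      natDegree_eq_of_le_of_coeff_ne_zero dΦ cΦ] at this
    omega
  have inj := IsFractionRing.injective O K
  have gK : algebraMap O K g ≠ 0 := by simpa using g0
  have ΔK : 27 * algebraMap O K g + 4 ≠ 0 := by
    intro h0
    have : 27 * g + 4 = 0 := inj (by simpa only [map_add, map_mul, map_ofNat, map_zero] using h0)
    have := congrArg c.ρ this
    exact hΔ (by simpa only [map_add, map_mul, map_ofNat, map_zero] using this)
  simp only [io_apply, Polynomial.map_add, Polynomial.map_mul, map_C, map_X] at er eq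
  obtain ⟨N0, hN0⟩ := pole_main hδ gK ΔK (E := E) (by rw [hEd, io_apply, DD_map]) er eq
  have dN0 := pole_deg gK (p := p) (by omega) ((Polynomial.map_ne_zero_iff inj).2 hB)
    (by rwa [natDegree_map_eq_of_injective inj]) (by rwa [natDegree_map_eq_of_injective inj]) hN0
  obtain ⟨e0, N1, B1, he0, s1, s2, s3⟩ := c.scale N0 (one_ne_zero (α := K[X]))
  have dN1 : N1.natDegree + 2 ≤ p := by
    rwa [← natDegree_map_eq_of_injective inj, s1, natDegree_C_mul he0]
  have dB1 : B1 = C (B1.coeff 0) := eq_C_of_natDegree_eq_zero (by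
    rw [← natDegree_map_eq_of_injective inj, s2, mul_one, natDegree_C])
  generalize B1.coeff 0 = d at dB1
  subst dB1
  rw [map_C, mul_one] at s2
  have eN : C d * (2 * C (p * v) * A * B) = C d * (2 * (C n * X + C e) * B ^ 2) +
      (2 * DD g * (derivative N1 * B - N1 * derivative B) + derivative (DD g) * N1 * B) := by
    apply mapK_inj K
    simp only [Polynomial.map_add, Polynomial.map_mul, Polynomial.map_sub, Polynomial.map_pow,
      map_C, map_X, ← derivative_map, s1, s2, DD_map, Polynomial.map_ofNat, derivative_C_mul]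
    linear_combination C e0 * hN0
  have eN' := congrArg (Polynomial.map c.ρ) eN
  simp only [Polynomial.map_add, Polynomial.map_mul, Polynomial.map_sub, Polynomial.map_pow,
    map_C, map_X, ← derivative_map, DD_map, Polynomial.map_ofNat, fB, derivative_one,
    map_mul c.ρ, c.rp, zero_mul, C_0] at eN'
  have sk := second_kind hh h1 (g := c.ρ g) (n := c.ρ d * c.ρ n) (c := c.ρ d * c.ρ e)
    (Δ := N1.map c.ρ) (by have := natDegree_map_le (p := N1) (f := c.ρ); omega) (by
      simp only [C_mul]; linear_combination -eN')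
  obtain ⟨A3, hA3⟩ := c.lift (F := A) (G := X ^ p) (by rw [fA]; simp)
  obtain ⟨B3, hB3⟩ := c.lift (F := B) (G := 1) (by rw [fB]; simp)
  have eS : C v * S = (X ^ (p - 1) + derivative A3) * B - A * derivative B3 := by
    apply mul_left_cancel₀ (C_ne_zero.2 c.p0)
    rw [← mul_assoc, ← C_mul, ← eW]
    conv_lhs => rw [congrArg derivative hA3, congrArg derivative hB3]
    simp only [derivative_add, derivative_C_mul, derivative_X_pow, derivative_one]
    ring
  have uv : c.ρ u * c.ρ v = 1 := by rw [← map_mul, huv, map_one]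
  have cH : (DD (c.ρ g) ^ h).coeff (p - 1) = c.ρ u := by
    have := congrArg (fun F => coeff (Polynomial.map c.ρ F) (p - 1)) eS
    simp only [Polynomial.map_add, Polynomial.map_mul, Polynomial.map_sub, Polynomial.map_pow,
      map_C, map_X, ← derivative_map, fA, fB, fS, mul_one, coeff_C_mul, coeff_sub, coeff_add,
      coeff_X_pow, if_true, coeff_X_pow_mul', coeff_derivative] at this
    rw [if_neg (by omega)] at this
    have pk : ((p - 1 : ℕ) : k) + 1 = 0 := by
      rw [← CharP.cast_eq_zero k p, ← Nat.cast_succ, Nat.succ_eq_add_one, Nat.sub_add_cancel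
        (by omega)]
    rw [pk] at this
    linear_combination c.ρ u * this - (DD (c.ρ g) ^ h).coeff (p - 1) * uv
  have u0 : c.ρ u ≠ 0 := left_ne_zero_of_mul_eq_one uv
  have d0 : c.ρ d ≠ 0 := by
    intro h0
    rw [h0, zero_mul, zero_mul] at sk
    rcases s3 with s3 | s3
    · exact s3 (sk.2 rfl rfl (cH ▸ u0))
    · exact s3 (by rw [map_C, h0, C_0])
  obtain ⟨d', hd'⟩ := (c.unit _ d0).exists_left_inv
  have dd : C d' * C d = 1 := by rw [← C_mul, hd', C_1]
  refine ⟨A, B, S, C d' * N1, dA, dB', fA, fB, fS, eW, eD, ?_,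
    le_trans (by have := natDegree_C_mul_le d' N1; omega) dN1, ?_⟩
  · rw [derivative_C_mul]
    linear_combination C d' * eN - (2 * C (p * v) * A * B - 2 * (C n * X + C e) * B ^ 2) * dd
  · rw [Polynomial.map_mul, map_C, mul_left_comm, coeff_C_mul]
    have s := sk.1
    rw [cH] at s
    have n1 := congrArg c.ρ hn
    have d1 := congrArg c.ρ hd'
    rw [map_mul, map_mul, fg] at n1
    rw [map_mul, map_one] at d1
    have gp : c.ρ g ^ p = c.ρ g ^ (p - 1) * c.ρ g := by rw [← pow_succ]; congr 1; omega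
    apply mul_left_cancel₀ (mul_ne_zero hg u0)
    rw [gp] at n1
    linear_combination c.ρ g * c.ρ d' * s + 2 * n1 + 2 * c.ρ n * c.ρ g ^ (p - 1) * c.ρ g * d1

end Pool.Agent.Lib.MP_2eac29_nt
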