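import Pool.Agent.Lib.MP_2eac29_nt.Place

/-!
The place of `K(X)` given by reducing coefficients and then evaluating at `X = 0`.
-/

namespace Pool.Agent.Lib.MP_2eac29_nt

open Polynomial

def Place.comp {L k l : Type} [Field L] [Field k] [Field l] (π : Place L k) (σ : Place k l) :
    Place L l where
  R x a := ∃ y, π.R x y ∧ σ.R y a
  one := ⟨1, π.one, σ.one⟩
  add := fun ⟨_, h1, h2⟩ ⟨_, k1, k2⟩ => ⟨_, π.add h1 k1, σ.add h2 k2⟩
  mul := fun ⟨_, h1, h2⟩ ⟨_, k1, k2⟩ => ⟨_, π.mul h1 k1, σ.mul h2 k2⟩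
  neg := fun ⟨_, h1, h2⟩ => ⟨_, π.neg h1, σ.neg h2⟩
  uniq := fun ⟨_, h1, h2⟩ ⟨_, k1, k2⟩ => σ.uniq (π.uniq h1 k1 ▸ h2) k2
  total := by
    intro x
    rcases π.total x with ⟨y, hy⟩ | h
    · rcases Place.cases (π := σ) y with ⟨a, ha⟩ | hb
      · exact Or.inl ⟨a, y, hy, ha⟩
      · exact Or.inr ⟨y⁻¹, Place.inv hy hb.1, hb.2⟩
    · exact Or.inr ⟨0, h, σ.zero⟩

theorem joint_prim {S : Type} [CommRing S] [WfDvdMonoid S] {π : S} (hπ : ¬ IsUnit π) (A : S)
    {B : S} (hB : B ≠ 0) :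
    ∃ (n : ℕ) (A1 B1 : S), A = π ^ n * A1 ∧ B = π ^ n * B1 ∧ ¬ (π ∣ A1 ∧ π ∣ B1) := by
  obtain ⟨m, B', h1, rfl⟩ := WfDvdMonoid.max_power_factor' hB hπ
  clear hB
  induction m generalizing A with
  | zero => exact ⟨0, A, B', by simp, rfl, fun h => h1 h.2⟩
  | succ m ih =>
    by_cases hA : π ∣ A
    · obtain ⟨A', rfl⟩ := hA
      obtain ⟨n, A1, B1, e1, e2, e3⟩ := ih A'
      exact ⟨n + 1, A1, B1, by rw [e1]; ring, by rw [pow_succ', mul_assoc, e2]; ring, e3⟩
    · exact ⟨0, A, π ^ (m + 1) * B', by simp, by simp, fun h => hA h.1⟩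

structure Ctx (p : ℕ) (O k : Type) [CommRing O] [Field k] where
  ρ : O →+* k
  ker : ∀ x, ρ x = 0 ↔ (p : O) ∣ x
  unit : ∀ x, ρ x ≠ 0 → IsUnit x
  p0 : (p : O) ≠ 0

variable {p : ℕ} {O k : Type} [CommRing O] [Field k]

theorem Ctx.rp (c : Ctx p O k) : c.ρ p = 0 := (c.ker _).2 dvd_rfl

theorem Ctx.map_eq_zero (c : Ctx p O k) (F : O[X]) : F.map c.ρ = 0 ↔ C (p : O) ∣ F := by
  rw [C_dvd_iff_dvd_coeff, Polynomial.ext_iff]
  simp only [coeff_map, coeff_zero, c.ker]

theorem Ctx.lift (c : Ctx p O k) {F G : O[X]} (h : F.map c.ρ = G.map c.ρ) :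
    ∃ Z, F = G + C (p : O) * Z := by
  obtain ⟨Z, hZ⟩ := (c.map_eq_zero (F - G)).1 (by rw [Polynomial.map_sub, h, sub_self])
  exact ⟨Z, by rw [← hZ]; ring⟩

variable (K : Type) [Field K] [Algebra O K]

noncomputable def io : O[X] →+* RatFunc K :=
  (algebraMap K[X] (RatFunc K)).comp (mapRingHom (algebraMap O K))

theorem io_apply (F : O[X]) :
    io K F = algebraMap K[X] (RatFunc K) (F.map (algebraMap O K)) := rfl

variable [IsFractionRing O K]

theorem mapK_inj : Function.Injective (Polynomial.map (algebraMap O K)) :=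
  map_injective _ (IsFractionRing.injective O K)

theorem io_inj : Function.Injective (io K : O[X] →+* RatFunc K) :=
  (RatFunc.algebraMap_injective K).comp (mapK_inj K)

variable {K} [IsDomain O] [IsNoetherianRing O]

theorem Ctx.scale (c : Ctx p O k) (A0 : K[X]) {B0 : K[X]} (hB : B0 ≠ 0) :
    ∃ (e : K) (A B : O[X]), e ≠ 0 ∧ A.map (algebraMap O K) = C e * A0 ∧
      B.map (algebraMap O K) = C e * B0 ∧ (A.map c.ρ ≠ 0 ∨ B.map c.ρ ≠ 0) := by
  obtain ⟨a, ha, ea⟩ := IsLocalization.integerNormalization_spec (nonZeroDivisors O) A0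
  obtain ⟨b, hb, eb⟩ := IsLocalization.integerNormalization_spec (nonZeroDivisors O) B0
  generalize IsLocalization.integerNormalization (nonZeroDivisors O) A0 = A2 at ea
  generalize IsLocalization.integerNormalization (nonZeroDivisors O) B0 = B2 at eb
  have inj := IsFractionRing.injective O K
  have a0 : algebraMap O K a ≠ 0 := by simpa using nonZeroDivisors.ne_zero ha
  have b0 : algebraMap O K b ≠ 0 := by simpa using nonZeroDivisors.ne_zero hb
  have p0 : algebraMap O K p ≠ 0 := fun h => c.p0 (inj (h.trans (map_zero _).symm))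
  rw [← algebraMap_smul K, smul_eq_C_mul] at ea eb
  have hu : ¬ IsUnit (C (p : O)) := fun h => by
    have := (isUnit_C.1 h).map c.ρ
    rw [c.rp] at this
    exact not_isUnit_zero this
  have hB2 : C a * B2 ≠ 0 := by
    intro h
    have := congrArg (Polynomial.map (algebraMap O K)) h
    rw [Polynomial.map_mul, map_C, eb, Polynomial.map_zero] at this
    exact mul_ne_zero (C_ne_zero.2 a0) (mul_ne_zero (C_ne_zero.2 b0) hB) this
  obtain ⟨n, A1, B1, e1, e2, e3⟩ := joint_prim hu (C b * A2) hB2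
  have f1 := congrArg (Polynomial.map (algebraMap O K)) e1
  have f2 := congrArg (Polynomial.map (algebraMap O K)) e2
  simp only [Polynomial.map_mul, map_C, Polynomial.map_pow, ea, eb] at f1 f2
  have pn : C (algebraMap O K p) ^ n * C (algebraMap O K p ^ n)⁻¹ = 1 := by
    rw [← C_pow, ← C_mul, mul_inv_cancel₀ (pow_ne_zero _ p0), C_1]
  refine ⟨algebraMap O K a * algebraMap O K b * (algebraMap O K p ^ n)⁻¹, A1, B1,
    mul_ne_zero (mul_ne_zero a0 b0) (inv_ne_zero (pow_ne_zero _ p0)), ?_, ?_, ?_⟩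
  · simp only [C_mul]
    linear_combination (-C (algebraMap O K p ^ n)⁻¹) * f1 - A1.map (algebraMap O K) * pn
  · simp only [C_mul]
    linear_combination (-C (algebraMap O K p ^ n)⁻¹) * f2 - B1.map (algebraMap O K) * pn
  · rw [ne_eq, ne_eq, c.map_eq_zero, c.map_eq_zero]; tauto

theorem num_den {F : Type} [Field F] (x : RatFunc F) :
    x * algebraMap F[X] (RatFunc F) x.denom = algebraMap F[X] (RatFunc F) x.num := by
  have := x.num_div_denom
  rw [div_eq_iff (by simpa using x.denom_ne_zero)] at this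
  exact this.symm

theorem Ctx.scale' (c : Ctx p O k) {x : RatFunc K} {A0 B0 : K[X]} (hB : B0 ≠ 0)
    (h : x * algebraMap K[X] (RatFunc K) B0 = algebraMap K[X] (RatFunc K) A0) :
    ∃ A B : O[X], B ≠ 0 ∧ x * io K B = io K A ∧ (A.map c.ρ ≠ 0 ∨ B.map c.ρ ≠ 0) ∧
      A.natDegree = A0.natDegree ∧ B.natDegree = B0.natDegree := by
  obtain ⟨e, A, B, h0, h1, h2, h3⟩ := c.scale A0 hB
  have inj := IsFractionRing.injective O K
  refine ⟨A, B, ?_, ?_, h3, ?_, ?_⟩
  · rintro rfl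
    exact mul_ne_zero (C_ne_zero.2 h0) hB (by rw [← h2, Polynomial.map_zero])
  · rw [io_apply, io_apply, h1, h2, map_mul, map_mul, ← h]; ring
  · rw [← natDegree_map_eq_of_injective inj, h1, natDegree_C_mul h0]
  · rw [← natDegree_map_eq_of_injective inj, h2, natDegree_C_mul h0]

variable (K)

noncomputable def Ctx.gauss (c : Ctx p O k) : Place (RatFunc K) (RatFunc k) :=
  mkPlace (io K) (io_inj K) ((algebraMap k[X] (RatFunc k)).comp (mapRingHom c.ρ)) (fun x => by
    obtain ⟨A, B, h0, h1, h2, -⟩ := c.scale' x.denom_ne_zero (num_den x)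
    exact ⟨A, B, h0, h1, by simpa using h2⟩)

noncomputable def atZero (k : Type) [Field k] : Place (RatFunc k) k :=
  mkPlace (algebraMap k[X] (RatFunc k)) (RatFunc.algebraMap_injective k) (evalRingHom 0)
    (fun x => by
      refine ⟨x.num, x.denom, x.denom_ne_zero, num_den x, ?_⟩
      obtain ⟨u, v, huv⟩ := x.isCoprime_num_denom
      by_contra hcon
      push Not at hcon
      have := congrArg (evalRingHom 0) huv
      rw [map_add, map_mul, map_mul, hcon.1, hcon.2] at this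
      simp at this)

noncomputable def Ctx.place (c : Ctx p O k) : Place (RatFunc K) k := (c.gauss K).comp (atZero k)

theorem Ctx.place_poly (c : Ctx p O k) (F : O[X]) :
    (c.place K).R (io K F) (c.ρ (F.coeff 0)) :=
  ⟨algebraMap k[X] (RatFunc k) (F.map c.ρ), ⟨F, 1, by simp, by simp, by simp⟩,
    ⟨F.map c.ρ, 1, by simp, by simp, by simp [← coeff_zero_eq_eval_zero]⟩⟩

variable {K}

theorem Ctx.place_elim (c : Ctx p O k) {x : RatFunc K} {a : k} (h : (c.place K).R x a)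
    {A B : O[X]} (e : x * io K B = io K A) (h0 : A.map c.ρ ≠ 0 ∨ B.map c.ρ ≠ 0) :
    B.map c.ρ ≠ 0 ∧ ∃ A2 B2 : k[X], B2.coeff 0 ≠ 0 ∧ A2.coeff 0 = a * B2.coeff 0 ∧
      A.map c.ρ * B2 = A2 * B.map c.ρ := by
  obtain ⟨y, ⟨A', B', h1, h2, h3⟩, A2, B2, k1, k2, k3⟩ := h
  have inj := RatFunc.algebraMap_injective k
  have e1 : A * B' = A' * B := io_inj K (by simp only [map_mul]; rw [← h2, ← e]; ring)
  have e2 := congrArg (Polynomial.map c.ρ) e1
  simp only [Polynomial.map_mul] at e2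
  simp only [RingHom.comp_apply, coe_mapRingHom] at h1 h3
  have b' : B'.map c.ρ ≠ 0 := fun h => h1 (by rw [h, map_zero])
  refine ⟨fun hB => ?_, A2, B2, ?_, ?_, ?_⟩
  · rw [hB, mul_zero] at e2
    exact mul_ne_zero (h0.resolve_right (not_not.2 hB)) b' e2
  · rwa [coeff_zero_eq_eval_zero]
  · rw [coeff_zero_eq_eval_zero, coeff_zero_eq_eval_zero]; exact k3.symm
  · apply mul_right_cancel₀ b'
    apply inj
    have e3 := congrArg (algebraMap k[X] (RatFunc k)) e2
    simp only [map_mul] at e3 ⊢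
    rw [← k2]
    linear_combination (algebraMap k[X] (RatFunc k) B2) * e3 -
      (algebraMap k[X] (RatFunc k) B2 * algebraMap k[X] (RatFunc k) (B.map c.ρ)) * h3

end Pool.Agent.Lib.MP_2eac29_nt
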