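import Pool.Agent.Lib.MP_2eac29_nt.Curve

/-!
Places of a field and reduction of points.
-/

namespace Pool.Agent.Lib.MP_2eac29_nt

structure Place (L k : Type) [Field L] [Field k] where
  R : L → k → Prop
  one : R 1 1
  add : ∀ {x y a b}, R x a → R y b → R (x + y) (a + b)
  mul : ∀ {x y a b}, R x a → R y b → R (x * y) (a * b)
  neg : ∀ {x a}, R x a → R (-x) (-a)
  uniq : ∀ {x a b}, R x a → R x b → a = b
  total : ∀ x, (∃ a, R x a) ∨ R x⁻¹ 0

variable {L k : Type} [Field L] [Field k]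

namespace Place

variable (π : Place L k)

theorem zero : π.R 0 0 := by simpa using π.add π.one (π.neg π.one)

def Big (x : L) : Prop := x ≠ 0 ∧ π.R x⁻¹ 0

variable {π}

theorem sub {x y : L} {a b : k} (h1 : π.R x a) (h2 : π.R y b) : π.R (x - y) (a - b) := by
  simpa [sub_eq_add_neg] using π.add h1 (π.neg h2)

theorem pow {x : L} {a : k} (h : π.R x a) (n : ℕ) : π.R (x ^ n) (a ^ n) := by
  induction n with
  | zero => simpa using π.one
  | succ n ih => simpa [pow_succ] using π.mul ih h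

theorem two : π.R 2 2 := by simpa [one_add_one_eq_two] using π.add π.one π.one

theorem of_eq {x y : L} {a b : k} (h : π.R x a) (e1 : x = y) (e2 : a = b) : π.R y b :=
  e1 ▸ e2 ▸ h

theorem Big.not {x : L} {a : k} (h : π.Big x) (h' : π.R x a) : False := by
  have := π.mul h' h.2
  rw [mul_inv_cancel₀ h.1, mul_zero] at this
  exact one_ne_zero (π.uniq π.one this)

theorem cases (x : L) : (∃ a, π.R x a) ∨ π.Big x := by
  by_cases hx : x = 0
  · exact Or.inl ⟨0, hx ▸ π.zero⟩
  · exact (π.total x).imp id fun h => ⟨hx, h⟩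

theorem ne_zero {x : L} {a : k} (h : π.R x a) (ha : a ≠ 0) : x ≠ 0 := by
  rintro rfl
  exact ha (π.uniq h π.zero)

theorem inv {x : L} {a : k} (h : π.R x a) (ha : a ≠ 0) : π.R x⁻¹ a⁻¹ := by
  rcases π.total x⁻¹ with ⟨b, hb⟩ | h0
  · have := π.mul h hb
    rw [mul_inv_cancel₀ (ne_zero h ha)] at this
    have e := π.uniq π.one this
    rwa [eq_inv_of_mul_eq_one_right e.symm] at hb
  · rw [inv_inv] at h0
    exact absurd (π.uniq h h0) ha

end Place

open Par

structure Good (π : Place L k) (E : Par L) (F : Par k) : Prop where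
  d : π.R E.d F.d
  g : π.R E.g F.g

variable {π : Place L k} {E : Par L} {F : Par k}

namespace Good

theorem on (G : Good π E F) {r s : L} {a b : k} (h : E.On r s) (h1 : π.R r a) (h2 : π.R s b) :
    F.On a b :=
  π.uniq (π.mul G.d (Place.pow h2 2))
    (Place.of_eq (π.add (π.mul G.g (Place.pow h1 3)) (Place.pow (Place.sub π.one h1) 2))
      (Eq.symm h) rfl)

theorem int_s (G : Good π E F) {r s : L} {a : k} (h : E.On r s) (h1 : π.R r a) :
    ∃ b, π.R s b := by
  refine (Place.cases s).resolve_right fun hb => F.hd ?_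
  have := π.mul (π.add (π.mul G.g (Place.pow h1 3)) (Place.pow (Place.sub π.one h1) 2))
    (Place.pow hb.2 2)
  refine π.uniq G.d (Place.of_eq this ?_ (by ring))
  have h0 := hb.1
  rw [← h]
  field_simp

theorem slope_big (G : Good π E F) {l n a b : L} {a' s' : k} (ha : π.R a a')
    (hs : π.R (l * a + n) s') (hb : π.Big b) (ob : E.On b (l * b + n)) :
    π.Big (b - a) ∧ π.Big l ∧ π.R (l ^ 2 * (b - a)⁻¹) (F.g / F.d) := by
  have hu : π.Big (b - a) := by
    refine (Place.cases _).resolve_left ?_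
    rintro ⟨c, hc⟩
    exact hb.not (Place.of_eq (π.add hc ha) (by ring) rfl)
  have u0 := hu.1
  have hτ := hu.2
  set τ := (b - a)⁻¹ with hτ'
  have key : π.R (E.d * ((l * a + n) * τ + l) ^ 2 * τ) F.g := by
    have := π.add (π.mul G.g (Place.pow (π.add (π.mul ha hτ) π.one) 3))
      (π.mul hτ (Place.pow (Place.sub (Place.sub hτ (π.mul ha hτ)) π.one) 2))
    refine Place.of_eq this ?_ (by ring)
    simp only [On] at ob
    rw [hτ']
    field_simp
    linear_combination -ob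
  have hl : π.Big l := by
    refine (Place.cases _).resolve_left ?_
    rintro ⟨c, hc⟩
    have := π.mul (π.mul G.d (Place.pow (π.add (π.mul hs hτ) hc) 2)) hτ
    exact F.hg (by simpa using π.uniq key this)
  refine ⟨hu, hl, ?_⟩
  have hw : π.R ((l * a + n) * τ * l⁻¹ + 1) 1 :=
    Place.of_eq (π.add (π.mul (π.mul hs hτ) hl.2) π.one) rfl (by ring)
  have w0 := Place.ne_zero hw one_ne_zero
  have := π.mul (π.mul key (Place.inv G.d F.hd)) (Place.pow (Place.inv hw one_ne_zero) 2)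
  refine Place.of_eq this ?_ (by rw [inv_one, one_pow, mul_one, div_eq_mul_inv])
  have l0 := hl.1
  have d0 := E.hd
  have e : (l * a + n) * τ + l = l * ((l * a + n) * τ * l⁻¹ + 1) := by field_simp
  rw [e]
  generalize (l * a + n) * τ * l⁻¹ + 1 = w at w0
  field_simp

theorem no_two_big (G : Good π E F) {l n a b c : L} {a' : k} (h : E.Col l n a b c)
    (ha : π.R a a') (hb : π.Big b) (hc : π.Big c) : False := by
  obtain ⟨s', hs⟩ := G.int_s h.on ha
  obtain ⟨b1, b2, b3⟩ := G.slope_big ha hs hb h.swap12.on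
  obtain ⟨c1, -, -⟩ := G.slope_big ha hs hc h.swap23.swap12.on
  have three : π.R 3 3 := Place.of_eq (π.add Place.two π.one) (by norm_num) (by norm_num)
  have := Place.sub (π.mul (π.mul (Place.sub (π.add (π.mul (π.mul three G.g) (Place.pow ha 2))
    (π.mul Place.two ha)) Place.two) b1.2) c1.2)
    (π.mul (π.mul (π.mul (π.mul (π.mul Place.two G.d) hs) b3) b2.2) c1.2)
  refine F.hg (π.uniq G.g (Place.of_eq this ?_ (by ring)))
  have e := h.der
  have := b1.1
  have := c1.1
  have := b2.1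
  field_simp
  linear_combination e

theorem opp (G : Good π E F) {l n a b c : L} {a' b' s' t' : k} (h : E.Col l n a b c)
    (ha : π.R a a') (hb : π.R b b') (hs : π.R (l * a + n) s') (ht : π.R (l * b + n) t')
    (hl : π.Big l) : a' = b' ∧ s' = -t' := by
  have l0 := hl.1
  have d0 := E.hd
  constructor
  · have := π.uniq (Place.sub ha hb) (Place.of_eq (π.mul hl.2 (Place.sub hs ht))
      (by field_simp; ring) rfl)
    linear_combination this
  · have h1 := π.mul (π.mul (Place.sub (π.add (π.add (π.mul G.g (π.add (π.add (Place.pow ha 2)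
      (π.mul ha hb)) (Place.pow hb 2))) ha) hb) Place.two) hl.2) (Place.inv G.d F.hd)
    have := π.uniq (π.add hs ht) (Place.of_eq h1 (by
      field_simp
      linear_combination (a + b) * h.e1 - h.e2) rfl)
    linear_combination this

end Good

def Red (π : Place L k) (E : Par L) (F : Par k) (P : E.Pt) (Q : F.Pt) : Prop :=
  (P = 0 ∧ Q = 0) ∨ (∃ r s a b, E.Is P r s ∧ π.R r a ∧ π.R s b ∧ F.Is Q a b) ∨
    (∃ r s, E.Is P r s ∧ π.Big r ∧ Q = 0)

theorem Red.neg {P : E.Pt} {Q : F.Pt} (h : Red π E F P Q) : Red π E F (-P) (-Q) := by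
  rcases h with ⟨rfl, rfl⟩ | ⟨r, s, a, b, h1, h2, h3, h4⟩ | ⟨r, s, h1, h2, rfl⟩
  · exact Or.inl ⟨neg_zero, neg_zero⟩
  · exact Or.inr (Or.inl ⟨r, -s, a, -b, h1.neg, h2, π.neg h3, h4.neg⟩)
  · exact Or.inr (Or.inr ⟨r, -s, h1.neg, h2, neg_zero⟩)

theorem Red.add_mixed (G : Good π E F) {P1 P2 : E.Pt} {Q : F.Pt} {r1 s1 r2 s2 : L} {a b : k}
    (h1 : E.Is P1 r1 s1) (ha : π.R r1 a) (hb : π.R s1 b) (hq : F.Is Q a b)
    (h2 : E.Is P2 r2 s2) (hB : π.Big r2) : Red π E F (P1 + P2) Q := by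
  obtain ⟨l, n, r3, c, rfl, rfl, h3⟩ := add_col h1 h2 (fun h => hB.not (h.1 ▸ ha))
  rcases Place.cases (π := π) r3 with ⟨a3, h4⟩ | h4
  · obtain ⟨b3, h5⟩ := G.int_s c.swap23.swap12.on h4
    obtain ⟨e1, e2⟩ := G.opp c.swap23 ha h4 hb h5 (G.slope_big ha hb hB h2.on).2.1
    exact Or.inr (Or.inl ⟨_, _, a, b, h3, e1 ▸ h4, e2 ▸ π.neg h5, hq⟩)
  · exact (G.no_two_big c ha hB h4).elim

theorem Red.add (G : Good π E F) {P1 P2 : E.Pt} {Q1 Q2 : F.Pt} (h1 : Red π E F P1 Q1)
    (h2 : Red π E F P2 Q2) : Red π E F (P1 + P2) (Q1 + Q2) := by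
  rcases h1 with ⟨rfl, rfl⟩ | h1
  · simpa using h2
  rcases h2 with ⟨rfl, rfl⟩ | h2
  · rw [add_zero, add_zero]; exact Or.inr h1
  rcases h1 with ⟨r1, s1, a1, b1, p1, p2, p3, p4⟩ | ⟨r1, s1, p1, p2, rfl⟩ <;>
    rcases h2 with ⟨r2, s2, a2, b2, q1, q2, q3, q4⟩ | ⟨r2, s2, q1, q2, rfl⟩
  · by_cases hne : r1 = r2 ∧ s1 = -s2
    · obtain ⟨rfl, rfl⟩ := hne
      refine Or.inl ⟨by rw [add_comm]; exact q1.add_eq_zero p1, ?_⟩
      have e1 := π.uniq p2 q2
      have e2 := π.uniq p3 (π.neg q3)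
      subst e1 e2
      rw [add_comm]; exact q4.add_eq_zero p4
    obtain ⟨l, n, r3, c, rfl, rfl, h3⟩ := add_col p1 q1 hne
    rcases Place.cases (π := π) l with ⟨l', hl⟩ | hl
    · have hn : π.R n (b1 - l' * a1) := Place.of_eq (Place.sub p3 (π.mul hl p2)) (by ring) rfl
      have hr : π.R r3 ((F.d * l' ^ 2 - 1) * F.g⁻¹ - a1 - a2) := by
        refine Place.of_eq (Place.sub (Place.sub (π.mul (Place.sub (π.mul G.d (Place.pow hl 2))
          π.one) (Place.inv G.g F.hg)) p2) q2) ?_ rfl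
        have := E.hg
        field_simp
        linear_combination -c.e1
      generalize (F.d * l' ^ 2 - 1) * F.g⁻¹ - a1 - a2 = a3 at hr
      generalize b1 - l' * a1 = n' at hn
      have c' : F.Col l' n' a1 a2 a3 := by
        refine ⟨?_, ?_, ?_⟩
        · exact π.uniq (π.mul G.g (π.add (π.add p2 q2) hr))
            (Place.of_eq (Place.sub (π.mul G.d (Place.pow hl 2)) π.one) c.e1.symm rfl)
        · exact π.uniq (π.mul G.g (π.add (π.add (π.mul p2 q2) (π.mul p2 hr)) (π.mul q2 hr)))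
            (Place.of_eq (Place.sub (π.neg Place.two)
              (π.mul (π.mul (π.mul Place.two G.d) hl) hn)) c.e2.symm rfl)
        · exact π.uniq (π.mul G.g (π.mul (π.mul p2 q2) hr))
            (Place.of_eq (Place.sub (π.mul G.d (Place.pow hn 2)) π.one) c.e3.symm rfl)
      have e1 := π.uniq p3 (π.add (π.mul hl p2) hn)
      have e2 := π.uniq q3 (π.add (π.mul hl q2) hn)
      subst e1 e2
      exact Or.inr (Or.inl ⟨_, _, _, _, h3, hr, π.neg (π.add (π.mul hl hr) hn),
        col_add c' p4 q4⟩)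
    · obtain ⟨rfl, rfl⟩ := G.opp c p2 q2 p3 q3 hl
      refine Or.inr (Or.inr ⟨_, _, h3, ?_, by rw [add_comm]; exact q4.add_eq_zero p4⟩)
      refine (Place.cases _).resolve_left ?_
      rintro ⟨a3, hr⟩
      have := π.mul (π.add (π.mul G.g (π.add (π.add p2 q2) hr)) π.one) (Place.pow hl.2 2)
      refine F.hd (π.uniq G.d (Place.of_eq this ?_ (by ring)))
      have := hl.1
      field_simp
      linear_combination c.e1
  · rw [add_zero]; exact Red.add_mixed G p1 p2 p3 p4 q1 q2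
  · rw [zero_add, add_comm]; exact Red.add_mixed G q1 q2 q3 q4 p1 p2
  · rw [add_zero]
    by_cases hne : r1 = r2 ∧ s1 = -s2
    · obtain ⟨rfl, rfl⟩ := hne
      exact Or.inl ⟨by rw [add_comm]; exact q1.add_eq_zero p1, rfl⟩
    obtain ⟨l, n, r3, c, rfl, rfl, h3⟩ := add_col p1 q1 hne
    refine Or.inr (Or.inr ⟨_, _, h3, ?_, rfl⟩)
    refine (Place.cases _).resolve_left ?_
    rintro ⟨a3, hr⟩
    exact G.no_two_big c.swap23.swap12 hr p2 q2

theorem Red.zsmul (G : Good π E F) {P : E.Pt} {Q : F.Pt} (h : Red π E F P Q) (n : ℤ) :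
    Red π E F (n • P) (n • Q) := by
  induction n using Int.induction_on with
  | zero => exact Or.inl ⟨zero_smul _ _, zero_smul _ _⟩
  | succ n ih => rw [add_smul, add_smul, one_smul, one_smul]; exact ih.add G h
  | pred n ih =>
    rw [sub_smul, sub_smul, one_smul, one_smul, sub_eq_add_neg, sub_eq_add_neg]
    exact ih.add G h.neg

/-- the place attached to a ring homomorphism on a subring -/
noncomputable def mkPlace {S : Type} [CommRing S] (ι : S →+* L) (hι : Function.Injective ι)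
    (ρ : S →+* k) (H : ∀ x : L, ∃ A B : S, B ≠ 0 ∧ x * ι B = ι A ∧ (ρ A ≠ 0 ∨ ρ B ≠ 0)) :
    Place L k where
  R x a := ∃ A B : S, ρ B ≠ 0 ∧ x * ι B = ι A ∧ a * ρ B = ρ A
  one := ⟨1, 1, by simp, by simp, by simp⟩
  add := by
    rintro x y a b ⟨A, B, h1, h2, h3⟩ ⟨A', B', k1, k2, k3⟩
    refine ⟨A * B' + A' * B, B * B', by simp [h1, k1], ?_, ?_⟩
    · simp only [map_add, map_mul]; linear_combination ι B' * h2 + ι B * k2
    · simp only [map_add, map_mul]; linear_combination ρ B' * h3 + ρ B * k3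
  mul := by
    rintro x y a b ⟨A, B, h1, h2, h3⟩ ⟨A', B', k1, k2, k3⟩
    refine ⟨A * A', B * B', by simp [h1, k1], ?_, ?_⟩
    · simp only [map_mul]; rw [← h2, ← k2]; ring
    · simp only [map_mul]; rw [← h3, ← k3]; ring
  neg := by
    rintro x a ⟨A, B, h1, h2, h3⟩
    exact ⟨-A, B, h1, by simp [← h2], by simp [← h3]⟩
  uniq := by
    rintro x a b ⟨A, B, h1, h2, h3⟩ ⟨A', B', k1, k2, k3⟩
    have e : A * B' = A' * B := hι (by simp only [map_mul]; rw [← h2, ← k2]; ring)
    have e' := congrArg ρ e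
    simp only [map_mul] at e'
    apply mul_right_cancel₀ (mul_ne_zero h1 k1)
    linear_combination ρ B' * h3 - ρ B * k3 + e'
  total := by
    intro x
    obtain ⟨A, B, h0, h1, h2⟩ := H x
    by_cases hB : ρ B = 0
    · have hA := h2.resolve_right (not_not.2 hB)
      have hA0 : ι A ≠ 0 := fun h => hA (by rw [hι (h.trans (map_zero ι).symm), map_zero])
      have hx : x ≠ 0 := by rintro rfl; exact hA0 (by rw [← h1, zero_mul])
      exact Or.inr ⟨B, A, hA, by rw [← h1]; field_simp, by rw [hB, zero_mul]⟩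
    · exact Or.inl ⟨ρ A / ρ B, A, B, hB, h1, by field_simp⟩

end Pool.Agent.Lib.MP_2eac29_nt
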