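import Pool.Agent.Lib.MP_2eac29_nt.Curve

/-!
Additivity of multipliers and quasi-multipliers along the group law.
-/

namespace Pool.Agent.Lib.MP_2eac29_nt

open Par

variable {L : Type} [Field L]

structure Der (L : Type) [Field L] where
  f : L → L
  add : ∀ x y, f (x + y) = f x + f y
  mul : ∀ x y, f (x * y) = x * f y + f x * y

namespace Der

variable (δ : Der L)

theorem zero : δ.f 0 = 0 := by
  have := δ.add 0 0
  rw [add_zero] at this
  linear_combination -this

theorem one : δ.f 1 = 0 := by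
  have := δ.mul 1 1
  rw [mul_one] at this
  linear_combination -this

theorem neg (x : L) : δ.f (-x) = -δ.f x := by
  have := δ.add x (-x)
  rw [add_neg_cancel, δ.zero] at this
  linear_combination -this

theorem sub (x y : L) : δ.f (x - y) = δ.f x - δ.f y := by
  rw [sub_eq_add_neg, δ.add, δ.neg]; ring

theorem sq (x : L) : δ.f (x ^ 2) = 2 * x * δ.f x := by rw [pow_two, δ.mul]; ring

theorem cube (x : L) : δ.f (x ^ 3) = 3 * x ^ 2 * δ.f x := by
  rw [pow_succ, δ.mul, δ.sq]; ring

theorem two : δ.f 2 = 0 := by rw [← one_add_one_eq_two, δ.add, δ.one, add_zero]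

theorem three : δ.f 3 = 0 := by
  rw [show (3 : L) = 2 + 1 by norm_num, δ.add, δ.one, δ.two, add_zero]

end Der

/-- twice the operator `q ↦ d q' + d' q / 2` -/
def op (δ : Der L) (E : Par L) (q : L) : L := 2 * E.d * δ.f q + δ.f E.d * q

theorem op_add (δ : Der L) (E : Par L) (q q' : L) :
    op δ E (q + q') = op δ E q + op δ E q' := by simp only [op, δ.add]; ring

theorem op_neg (δ : Der L) (E : Par L) (q : L) : op δ E (-q) = -op δ E q := by
  simp only [op, δ.neg]; ring

/-- `P` has multiplier `m` and quasi-period term `w` -/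
def QM (δ : Der L) (E : Par L) (P : E.Pt) (m w : L) : Prop :=
  (P = 0 ∧ m = 0 ∧ ∃ q, 2 * w + op δ E q = 0) ∨
    ∃ r s, E.Is P r s ∧ δ.f r = m * s ∧ op δ E s = (3 * E.g * r ^ 2 + 2 * r - 2) * m ∧
      ∃ q, 2 * (r * m) = 2 * w + op δ E q

variable {δ : Der L} {E : Par L}

theorem QM.neg {P : E.Pt} {m w : L} (h : QM δ E P m w) : QM δ E (-P) (-m) (-w) := by
  rcases h with ⟨rfl, rfl, q, h⟩ | ⟨r, s, h1, h2, h3, q, h4⟩
  · exact Or.inl ⟨neg_zero, neg_zero, -q, by rw [op_neg]; linear_combination -h⟩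
  · exact Or.inr ⟨r, -s, h1.neg, by rw [h2]; ring, by rw [op_neg, h3]; ring, -q,
      by rw [op_neg]; linear_combination -h4⟩

theorem mult_unique {r s m m' : L} (h : E.On r s) (h1 : δ.f r = m * s) (h1' : δ.f r = m' * s)
    (h2 : op δ E s = (3 * E.g * r ^ 2 + 2 * r - 2) * m)
    (h2' : op δ E s = (3 * E.g * r ^ 2 + 2 * r - 2) * m') : m = m' := by
  by_cases hs : s = 0
  · exact mul_left_cancel₀ (On.nonsing (hs ▸ h)) (h2.symm.trans h2')
  · exact mul_right_cancel₀ hs (h1.symm.trans h1')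

theorem QM.add (hg : δ.f E.g = 0) {P Q : E.Pt} {m w m' w' : L} (h : QM δ E P m w)
    (h' : QM δ E Q m' w') : QM δ E (P + Q) (m + m') (w + w') := by
  rcases h with ⟨rfl, rfl, q, h⟩ | ⟨r1, s1, p1, p2, p3, q1, p4⟩
  · rw [zero_add, zero_add]
    rcases h' with ⟨rfl, rfl, q', h'⟩ | ⟨r, s, h1, h2, h3, q', h4⟩
    · exact Or.inl ⟨rfl, rfl, q + q', by rw [op_add]; linear_combination h + h'⟩
    · exact Or.inr ⟨r, s, h1, h2, h3, q + q', by rw [op_add]; linear_combination h4 - h⟩
  rcases h' with ⟨rfl, rfl, q', h'⟩ | ⟨r2, s2, k1, k2, k3, q2, k4⟩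
  · rw [add_zero, add_zero]
    exact Or.inr ⟨r1, s1, p1, p2, p3, q1 + q', by rw [op_add]; linear_combination p4 - h'⟩
  by_cases hne : r1 = r2 ∧ s1 = -s2
  · obtain ⟨rfl, rfl⟩ := hne
    have e : m = -m' := mult_unique p1.on p2 (by rw [k2]; ring) p3 (by rw [op_neg, k3]; ring)
    subst e
    exact Or.inl ⟨by rw [add_comm]; exact k1.add_eq_zero p1, by ring, q1 + q2,
      by rw [op_add]; linear_combination -p4 - k4⟩
  obtain ⟨l, n, r3, c, rfl, rfl, h3⟩ := add_col p1 k1 hne
  have d1 := c.der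
  have d2 := c.swap12.der
  have d3 := c.swap23.swap12.der
  have o : ∀ r, op δ E (l * r + n) = op δ E l * r + op δ E n + 2 * E.d * l * δ.f r := by
    intro r; simp only [op, δ.add, δ.mul]; ring
  rw [o, p2] at p3
  rw [o, k2] at k3
  have a1 : op δ E l * r1 + op δ E n = m * E.g * (r1 - r2) * (r1 - r3) := by
    linear_combination p3 + m * d1
  have a2 : op δ E l * r2 + op δ E n = m' * E.g * (r2 - r1) * (r2 - r3) := by
    linear_combination k3 + m' * d2
  have key : op δ E l = E.g * (m * (r1 - r3) + m' * (r2 - r3)) := by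
    by_cases hr : r1 = r2
    · subst hr
      have hs : l * r1 + n ≠ 0 := fun h => hne ⟨rfl, by rw [h, neg_zero]⟩
      have e : m = m' := mul_right_cancel₀ hs (p2.symm.trans k2)
      subst e
      have d0 : 3 * E.g * r1 ^ 2 + 2 * r1 - 2 = 2 * E.d * l * (l * r1 + n) := by
        linear_combination d1
      have dd := congrArg δ.f d0
      simp only [δ.sub, δ.add, δ.mul, δ.sq, δ.two, δ.three, hg, p2] at dd
      simp only [op] at a1 ⊢
      apply mul_left_cancel₀ hs
      linear_combination -dd - l * a1 + 2 * m * (l * r1 + n) * c.e1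
    · apply mul_left_cancel₀ (sub_ne_zero.2 hr)
      linear_combination a1 - a2
  have a3 : op δ E l * r3 + op δ E n = -(m + m') * E.g * (r3 - r1) * (r3 - r2) := by
    linear_combination a1 + (r3 - r1) * key
  have b3 : δ.f r3 = -(m + m') * (l * r3 + n) := by
    have dd := congrArg δ.f c.e1
    simp only [δ.sub, δ.add, δ.mul, δ.sq, δ.one, hg, p2, k2] at dd
    simp only [op] at key
    apply mul_left_cancel₀ E.hg
    linear_combination dd + l * key
  refine Or.inr ⟨r3, _, h3, by rw [b3]; ring, ?_, q1 + q2 + -(2 * l * E.g⁻¹), ?_⟩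
  · rw [op_neg, o, b3]
    linear_combination -a3 - (m + m') * d3
  · have g0 := E.hg
    have gi : δ.f E.g⁻¹ = 0 := by
      have := δ.mul E.g E.g⁻¹
      rw [mul_inv_cancel₀ g0, δ.one, hg, zero_mul, add_zero] at this
      exact (mul_eq_zero.1 this.symm).resolve_left g0
    have : op δ E (2 * l * E.g⁻¹) = 2 * E.g⁻¹ * op δ E l := by
      simp only [op, δ.mul, δ.two, gi]; ring
    rw [op_add, op_add, op_neg, this, key]
    have gg := inv_mul_cancel₀ g0
    linear_combination p4 + k4 + 2 * (m * (r1 - r3) + m' * (r2 - r3)) * gg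

theorem QM.zsmul (hg : δ.f E.g = 0) {P : E.Pt} {m w : L} (h : QM δ E P m w) (n : ℤ) :
    QM δ E (n • P) (n * m) (n * w) := by
  induction n using Int.induction_on with
  | zero => exact Or.inl ⟨zero_smul _ _, by simp, 0, by simp [op, δ.zero]⟩
  | succ n ih =>
    have := ih.add hg h
    rw [add_smul, one_smul]
    push_cast at this ⊢
    rwa [add_mul, add_mul, one_mul, one_mul]
  | pred n ih =>
    have := ih.add hg h.neg
    rw [sub_smul, one_smul, sub_eq_add_neg]
    push_cast at this ⊢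
    rwa [sub_mul, sub_mul, one_mul, one_mul, sub_eq_add_neg, sub_eq_add_neg]

theorem QM.mk' (hg : δ.f E.g = 0) {P : E.Pt} {r s m w q : L} (h : E.Is P r s) (hs : s ≠ 0)
    (h1 : δ.f r = m * s) (h2 : 2 * (r * m) = 2 * w + op δ E q) : QM δ E P m w := by
  refine Or.inr ⟨r, s, h, h1, ?_, q, h2⟩
  have dd := congrArg δ.f h.on
  simp only [δ.sub, δ.add, δ.mul, δ.sq, δ.cube, δ.one, hg, h1] at dd
  apply mul_left_cancel₀ hs
  simp only [op]
  linear_combination dd

open Polynomial in
/-- the derivative of rational functions -/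
theorem exists_der (K : Type) [Field K] : ∃ δ : Der (RatFunc K),
    ∀ p : K[X], δ.f (algebraMap K[X] (RatFunc K) p) =
      algebraMap K[X] (RatFunc K) (derivative p) := by
  let ι := algebraMap K[X] (RatFunc K)
  let φ : K[X] →+* TrivSqZeroExt (RatFunc K) (RatFunc K) :=
    { toFun := fun p => TrivSqZeroExt.inl (ι p) + TrivSqZeroExt.inr (ι (derivative p))
      map_one' := by ext <;> simp
      map_mul' := fun p q => by ext <;> simp [mul_comm, add_comm]
      map_zero' := by ext <;> simp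
      map_add' := fun p q => by ext <;> simp }
  have hu : ∀ y : nonZeroDivisors K[X], IsUnit (φ y) := by
    intro y
    rw [TrivSqZeroExt.isUnit_iff_isUnit_fst]
    have : ι y ≠ 0 := by simp [ι]
    simpa [φ] using this
  let ψ : RatFunc K →+* TrivSqZeroExt (RatFunc K) (RatFunc K) := IsLocalization.lift hu
  have hψ : ∀ p, ψ (ι p) = φ p := fun p => IsLocalization.lift_eq hu p
  have hf : ∀ x, (ψ x).fst = x := by
    have : (TrivSqZeroExt.fstHom (RatFunc K) (RatFunc K) (RatFunc K)).toRingHom.comp ψ =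
        RingHom.id _ := by
      refine IsLocalization.ringHom_ext (nonZeroDivisors K[X]) (RingHom.ext fun p => ?_)
      show (ψ (ι p)).fst = ι p
      rw [hψ]; simp [φ]
    exact fun x => RingHom.congr_fun this x
  refine ⟨⟨fun x => (ψ x).snd, fun x y => by simp, fun x y => ?_⟩, fun p => ?_⟩
  · show (ψ (x * y)).snd = x * (ψ y).snd + (ψ x).snd * y
    rw [map_mul, TrivSqZeroExt.snd_mul, hf, hf, smul_eq_mul, op_smul_eq_mul]
  · show (ψ (ι p)).snd = _
    rw [hψ]
    show (TrivSqZeroExt.inl (ι p) + TrivSqZeroExt.inr (ι (derivative p)) :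
      TrivSqZeroExt (RatFunc K) (RatFunc K)).snd = _
    rw [TrivSqZeroExt.snd_add, TrivSqZeroExt.snd_inl, TrivSqZeroExt.snd_inr, zero_add]

end Pool.Agent.Lib.MP_2eac29_nt
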