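import Pool.Agent.Lib.MP_2eac29_nt.Binom
import Pool.Agent.Lib.MP_2eac29_nt.Frob

/-!
Comparison of coefficients at `X^(p-1)` and `X^(2p-1)`.
-/

namespace Pool.Agent.Lib.MP_2eac29_nt

open PowerSeries

variable {p : ℕ} {O k : Type} [CommRing O] [Field k]

theorem Lam_two (F : O⟦X⟧) : Lam p (2 * F) = 2 * Lam p F := by rw [two_mul, map_add, two_mul]

theorem geo (hp : 0 < p) {F W : O⟦X⟧} (h : F * (1 - X ^ p) = W) :
    coeff (2 * p) F - coeff p F = coeff (2 * p) W ∧ coeff (p - 1) F = coeff (p - 1) W ∧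
      coeff p F - coeff 0 F = coeff p W ∧ coeff 0 F = coeff 0 W := by
  rw [← h, mul_sub, mul_one, mul_comm F]
  simp only [map_sub, coeff_X_pow_mul']
  rw [if_pos (by omega), if_neg (by omega), if_pos le_rfl, if_neg (by omega),
    show 2 * p - p = p by omega, Nat.sub_self]
  simp

theorem ser_core [IsDomain O] (c : Ctx p O k) (hp : 0 < p) (h2 : (2 : k) ≠ 0) {g g' u v n e : O}
    (huv : u * v = 1) {D E θ r s q Z : O⟦X⟧} (hD : D = C g * X ^ 3 + (1 - X) ^ 2)
    (hE : E ^ 2 * D = 1) (E0 : constantCoeff E = 1) (hθ : 2 * D * θ = -C g * X ^ 3 * E)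
    (hr : r = X ^ p + C (p : O) * Z) (hZ : (p : O) ∣ coeff (2 * p) Z)
    (hs : derivative O r = C (p * v) * s) (hc : D * s ^ 2 = C g' * r ^ 3 + (1 - r) ^ 2)
    (s0 : c.ρ (constantCoeff s) = 1)
    (hq : 2 * C (p * v) * r = 2 * (C n * X + C e) +
      (2 * D * derivative O q + derivative O D * q))
    (hH1 : (p : O) ∣ coeff (2 * p) ((2 + (9 * C g - 2) * X - 6 * C g * X ^ 2) * s))
    (hH2 : (p : O) ∣ coeff (2 * p) (q * D * s) - 2) (hn : n * g' = u * g) :
    (p : O) ^ 2 ∣ Lam p E - u ∧
      (p : O) ^ 2 ∣ (27 * g + 4) * Lam p θ - (3 * g' * (3 * (p * v) - e) - 9 * g * u) := by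
  have cancel : ∀ x : O, (p : O) ^ 2 ∣ 2 * x → (p : O) ^ 2 ∣ x := fun x hx =>
    (c.unit 2 (by rwa [map_ofNat])).dvd_mul_left.1 hx
  have P0 : C (p : O) ≠ 0 := fun h => c.p0 (C_injective (h.trans (map_zero C).symm))
  have dx : derivative O (X ^ p) = C (p : O) * X ^ (p - 1) := by
    rw [derivative_pow, derivative_X, mul_one, map_natCast]
  have dC : ∀ (a : O) (F : O⟦X⟧), derivative O (C a * F) = C a * derivative O F := by
    intro a F; rw [Derivation.leibniz, derivative_C]; simp
  have dM : ∀ F G : O⟦X⟧, derivative O (F * G) = F * derivative O G + G * derivative O F := by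
    intro F G; rw [Derivation.leibniz]; simp
  have uv : C u * C v = (1 : O⟦X⟧) := by rw [← map_mul, huv, map_one]
  have es : s = C u * (X ^ (p - 1) + derivative O Z) := by
    rw [hr, map_add, dx, dC, map_mul, mul_assoc, ← mul_add] at hs
    have := mul_left_cancel₀ P0 hs
    rw [this, ← mul_assoc, uv, one_mul]
  obtain ⟨Ui, hU⟩ : ∃ Ui, Ui * (D * E * s + 1 - r) = 1 := by
    refine IsUnit.exists_left_inv (isUnit_iff_constantCoeff.2 (c.unit _ ?_))
    simp only [hD, hr, map_add, map_sub, map_mul, map_pow, E0, constantCoeff_X, constantCoeff_C,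
      map_one, s0, c.rp, zero_pow hp.ne', map_zero]
    norm_num
    exact fun h => h2 (by linear_combination h)
  have y1 : (D * E * s) ^ 2 - (1 - r) ^ 2 = C g' * r ^ 3 := by
    linear_combination D * s ^ 2 * hE + hc
  have y2 : D * E * s - (1 - r) = Ui * C g' * r ^ 3 := by
    linear_combination Ui * y1 - (D * E * s - (1 - r)) * hU
  have star : E * (1 - r) + (C g' * Ui * E) * r ^ 3 = s := by
    linear_combination -E * y2 + s * hE
  generalize C g' * Ui * E = κ at star
  obtain ⟨G, hG⟩ : ∃ G : O⟦X⟧, G * (1 - X ^ p) = 1 := by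
    refine IsUnit.exists_left_inv (isUnit_iff_constantCoeff.2 ?_)
    simp [hp.ne']
  have dG : derivative O G = C (p : O) * X ^ (p - 1) * G ^ 2 := by
    have := congrArg (derivative O) hG
    rw [dM, map_sub, derivative_one, dx] at this
    linear_combination G * this - derivative O G * hG
  have x2 : (X : O⟦X⟧) ^ (2 * p) = (X ^ p) ^ 2 := by ring
  have x3 : (X : O⟦X⟧) ^ (3 * p) = (X ^ p) ^ 3 := by ring
  obtain ⟨U1, V1, eA⟩ : ∃ U1 V1, 2 * E = C u * (2 * (X ^ (p - 1) * G) +
      2 * derivative O (Z * G) + C (p : O) * derivative O ((Z * G) * (Z * G))) +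
      C ((p : O) ^ 2) * U1 + X ^ (2 * p) * V1 := by
    refine ⟨-2 * C u * X ^ (p - 1) * Z ^ 2 * G ^ 3 + 2 * Z ^ 2 * G ^ 2 * E -
        2 * κ * G * (1 + C (p : O) * Z * G) * (3 * X ^ p * Z ^ 2 + C (p : O) * Z ^ 3),
      -2 * κ * G * (1 + C (p : O) * Z * G) * (X ^ p + 3 * C (p : O) * Z), ?_⟩
    rw [es, hr] at star
    simp only [dM, dG, map_pow, x2]
    linear_combination 2 * G * (1 + C (p : O) * Z * G) * star -
      2 * E * (1 + C (p : O) * Z * G) * hG
  have gG := geo hp hG
  have G0 : coeff 0 G = 1 := by rw [gG.2.2.2]; simp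
  have G1 : coeff p G = 1 := by
    have := gG.2.2.1
    rw [coeff_one, if_neg hp.ne', G0] at this
    linear_combination this
  have l1 : Lam p (X ^ (p - 1) * G) = 1 := by
    rw [Lam_apply, coeff_X_pow_mul', coeff_X_pow_mul', if_pos le_rfl, if_pos (by omega),
      Nat.sub_self, show 2 * p - 1 - (p - 1) = p by omega, G0, G1]
    ring
  have gZ := (geo hp (F := Z * G) (W := Z) (by rw [mul_assoc, hG, mul_one])).1
  obtain ⟨z, hz⟩ := hZ
  have rA : (p : O) ^ 2 ∣ Lam p E - u := by
    apply cancel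
    have := congrArg (Lam p) eA
    rw [Lam_two, map_add, map_add, Lam_X_pow hp, Lam_C_mul, Lam_C_mul, map_add, map_add, Lam_two,
      Lam_two, Lam_C_mul, l1, Lam_der hp, Lam_der hp] at this
    exact ⟨-4 * u * z + 2 * u * (coeff p (Z * G * (Z * G)) - coeff (2 * p) (Z * G * (Z * G))) +
      Lam p U1, by linear_combination this - 4 * u * p * gZ - 4 * u * p * hz⟩
  refine ⟨rA, ?_⟩
  obtain ⟨U2, eB⟩ : ∃ U2, E * (1 - X ^ p) = s + C (p : O) * U2 - X ^ (3 * p) * κ :=
    ⟨Z * E - κ * (3 * (X ^ p) ^ 2 * Z + 3 * X ^ p * C (p : O) * Z ^ 2 + C (p : O) ^ 2 * Z ^ 3), by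
      rw [hr] at star
      rw [x3]
      linear_combination star⟩
  have hB : ∀ Q : O⟦X⟧, Lam p (derivative O (Q * E)) =
      -2 * p * (coeff (2 * p) (Q * s) + p * coeff (2 * p) (Q * U2)) := by
    intro Q
    have := (geo hp (F := Q * E) (W := Q * s + C (p : O) * (Q * U2) - X ^ (3 * p) * (Q * κ))
      (by linear_combination Q * eB)).1
    rw [map_sub, map_add, coeff_C_mul, coeff_X_pow_mul', if_neg (by omega)] at this
    rw [Lam_der hp]
    linear_combination -2 * p * this
  have hE1 : coeff (p - 1) E = u + p * (u * coeff p Z + coeff (p - 1) U2) := by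
    rw [(geo hp eB).2.1, map_sub, map_add, coeff_C_mul, coeff_X_pow_mul', if_neg (by omega), es,
      coeff_C_mul, map_add, coeff_X_pow, if_pos rfl, coeff_derivative,
      show p - 1 + 1 = p by omega, ← Nat.cast_succ, show (p - 1).succ = p by omega]
    ring
  have dE : 2 * D * derivative O E + derivative O D * E = 0 := by
    have := congrArg (derivative O) hE
    rw [pow_two, dM, dM, derivative_one] at this
    linear_combination E * D * this - (2 * D * derivative O E + derivative O D * E) * hE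
  have k2 : 2 * (C (p * v) * (X ^ p * E + C (p : O) * (Z * E))) =
      2 * (C n * (X * E) + C e * E + derivative O (q * D * E)) := by
    rw [dM, dM]
    rw [hr] at hq
    linear_combination E * hq - q * dE
  have l2 : Lam p (X ^ p * E) = -coeff (p - 1) E := by
    rw [Lam_apply, coeff_X_pow_mul', coeff_X_pow_mul', if_neg (by omega), if_pos (by omega),
      show 2 * p - 1 - p = p - 1 by omega]
    ring
  have k3 := congrArg (Lam p) k2
  rw [Lam_two, Lam_two, Lam_C_mul, map_add, map_add, map_add, Lam_C_mul, Lam_C_mul, Lam_C_mul,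
    hB, l2, hE1] at k3
  have dD : derivative O D = 3 * C g * X ^ 2 + 2 * X - 2 := by
    rw [hD, map_add, dC, derivative_pow, derivative_pow, map_sub, derivative_one, derivative_X]
    push_cast; ring
  set Q : O⟦X⟧ := 2 + (9 * C g - 2) * X - 6 * C g * X ^ 2 with hQ
  have dQ : derivative O Q = 9 * C g - 2 - 12 * C g * X := by
    have : Q = C 2 + C (9 * g - 2) * X - C (6 * g) * X ^ 2 := by
      simp only [hQ, map_sub, map_mul, map_ofNat]
    rw [this, map_sub, map_add, derivative_C, dC, dC, derivative_pow, derivative_X]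
    simp only [map_sub, map_mul, map_ofNat]
    push_cast; ring
  have gm : 2 * (C (27 * g + 4) * θ) =
      2 * (C (3 * g) * (X * E) - C (9 * g) * E + derivative O (Q * E)) := by
    have D0 : D ≠ 0 := by rintro rfl; simp at hE
    apply mul_left_cancel₀ D0
    rw [dM, dQ]
    rw [dD] at dE
    simp only [map_add, map_mul, map_ofNat]
    linear_combination (27 * C g + 4) * hθ - Q * dE -
      (6 * C g * (X - 3) + 2 * (9 * C g - 2 - 12 * C g * X)) * E * hD
  have k4 := congrArg (Lam p) gm
  rw [Lam_two, Lam_two, Lam_C_mul, map_add, map_sub, Lam_C_mul, Lam_C_mul, hB] at k4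
  obtain ⟨a1, ha1⟩ := hH1
  obtain ⟨a2, ha2⟩ := hH2
  obtain ⟨a3, ha3⟩ := rA
  apply cancel
  generalize Lam p θ = lθ at *
  generalize Lam p E = lE at *
  generalize Lam p (X * E) = lX at *
  generalize Lam p (Z * E) = lZ at *
  generalize coeff (2 * p) (Q * s) = b1 at *
  generalize coeff (2 * p) (Q * U2) = b2 at *
  generalize coeff (2 * p) (q * D * s) = b3 at *
  generalize coeff (2 * p) (q * D * U2) = b4 at *
  generalize u * coeff p Z + coeff (p - 1) U2 = b5 at *
  have f1 : lE = u + p ^ 2 * a3 := by linear_combination ha3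
  have f2 : b3 = 2 + p * a2 := by linear_combination ha2
  subst f1 f2 ha1
  have gv : g = v * n * g' := by linear_combination -v * hn - g * huv
  refine ⟨-18 * g * a3 - 4 * (a1 + b2) + 3 * g' * v * (2 * v * (lZ - b5) - 2 * e * a3 +
    4 * (a2 + b4)), ?_⟩
  linear_combination k4 - 3 * g' * v * k3 + 6 * lX * gv - 6 * g' * (p * v + e) * huv

theorem ser_poly [IsDomain O] [CharZero O] (c : Ctx p O k) (hp : p.Prime) {h : ℕ}
    (hh : p = 2 * h + 1) (h1 : 1 ≤ h) (h2 : (2 : k) ≠ 0) {t g' u v n e : O} (huv : u * v = 1)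
    {A B S N : Polynomial O} (dA : A.natDegree ≤ p) (dB : B.natDegree + 1 ≤ p)
    (fA : A.map c.ρ = Polynomial.X ^ p) (fB : B.map c.ρ = 1)
    (fS : S.map c.ρ = DD (c.ρ (-4 * t)) ^ h)
    (eW : Polynomial.derivative A * B - A * Polynomial.derivative B = Polynomial.C (p * v) * S)
    (eD : DD (-4 * t) * S ^ 2 = B * (Polynomial.C g' * A ^ 3 + B * (B - A) ^ 2))
    (eN : 2 * Polynomial.C (p * v) * A * B =
      2 * (Polynomial.C n * Polynomial.X + Polynomial.C e) * B ^ 2 +
      (2 * DD (-4 * t) * (Polynomial.derivative N * B - N * Polynomial.derivative B) +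
        Polynomial.derivative (DD (-4 * t)) * N * B))
    (cN : (DD (c.ρ (-4 * t)) ^ (h + 1) * N.map c.ρ).coeff (2 * p) = 2)
    (hn : n * g' = u * (-4 * t)) :
    (p : O) ^ 2 ∣ ∑ j ∈ Finset.range p, (((2 * j).choose j * (3 * j).choose j : ℕ) : O) * t ^ j
      - u ∧
    (p : O) ^ 2 ∣ (27 * (-4 * t) + 4) *
      ∑ j ∈ Finset.range p, (j : O) * (((2 * j).choose j * (3 * j).choose j : ℕ) : O) * t ^ j -
      (3 * g' * (3 * (p * v) - e) - 9 * (-4 * t) * u) := by
  obtain ⟨E, θ, hE, E0, hθ, s1, s2⟩ := exists_series (O := O) hp t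
  generalize hg : -4 * t = g at *
  obtain ⟨τ, hτ⟩ : ∃ τ : Polynomial O →+* O⟦X⟧, ∀ F, τ F = (F : O⟦X⟧) :=
    ⟨Polynomial.coeToPowerSeries.ringHom, fun _ => rfl⟩
  have τC : ∀ a, τ (Polynomial.C a) = C a := fun a => by rw [hτ, Polynomial.coe_C]
  have τX : τ Polynomial.X = X := by rw [hτ, Polynomial.coe_X]
  have τd : ∀ F, τ (Polynomial.derivative F) = derivative O (τ F) := fun F => by
    rw [hτ, hτ, derivative_coe]
  have τm : ∀ F i, c.ρ (coeff i (τ F)) = (F.map c.ρ).coeff i := fun F i => by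
    rw [hτ, Polynomial.coeff_coe, Polynomial.coeff_map]
  have τD : τ (DD g) = C g * X ^ 3 + (1 - X) ^ 2 := by
    simp only [DD, map_add, map_mul, map_pow, map_sub, map_one, τC, τX]
  obtain ⟨A3, hA3⟩ := c.lift (F := A) (G := Polynomial.X ^ p) (by rw [fA]; simp)
  obtain ⟨B3, hB3⟩ := c.lift (F := B) (G := 1) (by rw [fB]; simp)
  obtain ⟨Bi, hBi⟩ : ∃ Bi, Bi * τ B = 1 := by
    refine IsUnit.exists_left_inv (isUnit_iff_constantCoeff.2 (c.unit _ ?_))
    rw [← coeff_zero_eq_constantCoeff_apply, τm, fB]; simp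
  have dM : ∀ F G : O⟦X⟧, derivative O (F * G) = F * derivative O G + G * derivative O F := by
    intro F G; rw [Derivation.leibniz]; simp
  have dBi : derivative O Bi = -Bi ^ 2 * derivative O (τ B) := by
    have := congrArg (derivative O) hBi
    rw [dM, derivative_one] at this
    linear_combination Bi * this - derivative O Bi * hBi
  have tB := congrArg τ hB3
  have tA := congrArg τ hA3
  simp only [map_add, map_mul, map_one, map_pow, τC, τX] at tA tB
  have red : ∀ (F : Polynomial O) (j i : ℕ), c.ρ (coeff i (τ F * Bi ^ j)) = (F.map c.ρ).coeff i := by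
    intro F j
    induction j with
    | zero => intro i; rw [pow_zero, mul_one, τm]
    | succ j ih =>
      intro i
      rw [show τ F * Bi ^ (j + 1) = τ F * Bi ^ j - C (p : O) * (τ F * Bi ^ (j + 1) * τ B3) by
        linear_combination τ F * Bi ^ j * hBi - τ F * Bi ^ (j + 1) * tB, map_sub, map_sub, ih,
        coeff_C_mul, map_mul, c.rp, zero_mul, sub_zero]
  have tW := congrArg τ eW
  have tD := congrArg τ eD
  have tN := congrArg τ eN
  simp only [map_add, map_mul τ, map_sub, map_pow, τC, τX, τd, map_ofNat] at tW tD tN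
  have main := ser_core c hp.pos h2 (g := g) (g' := g') huv (n := n) (e := e) τD (τD ▸ hE) E0
    (θ := θ) (by
      rw [τD, mul_assoc, hθ, ← hg]
      simp only [map_mul, map_neg, map_ofNat]; ring)
    (r := τ A * Bi) (s := τ S * Bi ^ 2) (q := τ N * Bi)
    (Z := τ (A3 - Polynomial.X ^ p * B3) * Bi ^ 1) (by
      simp only [map_sub, map_mul, map_pow, τX]
      linear_combination Bi * tA - X ^ p * Bi * tB + X ^ p * hBi) (by
      rw [← c.ker, red, Polynomial.coeff_map, Polynomial.coeff_sub, Polynomial.coeff_X_pow_mul',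
        if_pos (by omega), show 2 * p - p = p by omega]
      have a1 := congrArg (fun F => Polynomial.coeff F (2 * p)) hA3
      have a2 := congrArg (fun F => Polynomial.coeff F p) hB3
      simp only [Polynomial.coeff_add, Polynomial.coeff_C_mul, Polynomial.coeff_X_pow,
        Polynomial.coeff_one] at a1 a2
      rw [Polynomial.coeff_eq_zero_of_natDegree_lt (by omega), if_neg (by omega), zero_add] at a1 a2
      rw [(mul_eq_zero.1 a1.symm).resolve_left c.p0, (mul_eq_zero.1 a2.symm).resolve_left c.p0,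
        sub_zero, map_zero]) (by
      rw [dM, dBi]
      linear_combination Bi ^ 2 * tW - Bi * derivative O (τ A) * hBi) (by
      linear_combination Bi ^ 4 * tD + (C g' * τ A ^ 3 * Bi ^ 3 +
        (Bi * τ B + 1) * (Bi * τ B - Bi * τ A) ^ 2 + (Bi * τ B + 1 - 2 * Bi * τ A)) * hBi) (by
      rw [← coeff_zero_eq_constantCoeff_apply, red, fS, Polynomial.coeff_zero_eq_eval_zero,
        Polynomial.eval_pow, ← Polynomial.coeff_zero_eq_eval_zero, DD_c0, one_pow]) (by
      rw [dM, dBi]
      linear_combination Bi ^ 2 * tN + (2 * (C n * X + C e) * (Bi * τ B + 1) +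
        2 * τ (DD g) * derivative O (τ N) * Bi + derivative O (τ (DD g)) * τ N * Bi -
        2 * C (p * v) * τ A * Bi) * hBi) (by
      rw [← c.ker, show (2 + (9 * C g - 2) * X - 6 * C g * X ^ 2) * (τ S * Bi ^ 2) =
        τ ((2 + (9 * Polynomial.C g - 2) * Polynomial.X - 6 * Polynomial.C g * Polynomial.X ^ 2) *
          S) * Bi ^ 2 by
        simp only [map_add, map_mul, map_sub, map_pow, map_ofNat, τC, τX]; ring, red,
        Polynomial.map_mul, fS]
      refine Polynomial.coeff_eq_zero_of_natDegree_lt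
        (lt_of_le_of_lt Polynomial.natDegree_mul_le ?_)
      have a1 : (DD (c.ρ g) ^ h).natDegree ≤ h * 3 :=
        Polynomial.natDegree_pow_le.trans (Nat.mul_le_mul_left _ (DD_deg_le _))
      have a2 : (2 + (9 * Polynomial.C g - 2) * Polynomial.X -
          6 * Polynomial.C g * Polynomial.X ^ 2).natDegree ≤ 2 := by compute_degree
      have := (Polynomial.natDegree_map_le (f := c.ρ)).trans a2
      omega) (by
      rw [← c.ker, show τ N * Bi * τ (DD g) * (τ S * Bi ^ 2) = τ (S * DD g * N) * Bi ^ 3 by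
        simp only [map_mul]; ring, map_sub, red, Polynomial.map_mul, Polynomial.map_mul, fS,
        DD_map, ← pow_succ, cN, map_ofNat, sub_self]) hn
  refine ⟨?_, ?_⟩
  · exact (dvd_sub main.1 s1).trans (dvd_of_eq (by ring))
  · exact (dvd_sub main.2 (s2.mul_left (27 * g + 4))).trans (dvd_of_eq (by ring))

end Pool.Agent.Lib.MP_2eac29_nt
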