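import Pool.Agent.Lib.MP_2eac29_nt.Explicit

/-!
The congruences in an unramified extension of the `p`-adic integers.
-/

namespace Pool.Agent.Lib.MP_2eac29_nt

open Polynomial

variable {p : ℕ} {O k : Type} [CommRing O] [Field k]

noncomputable def PP (p : ℕ) (t : O) : O :=
  ∑ j ∈ Finset.range p, (((2 * j).choose j * (3 * j).choose j : ℕ) : O) * t ^ j

noncomputable def TT (p : ℕ) (t : O) : O :=
  ∑ j ∈ Finset.range p, (j : O) * (((2 * j).choose j * (3 * j).choose j : ℕ) : O) * t ^ j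

theorem ne30 [hp : Fact p.Prime] [CharP k p] (p5 : 5 < p) : (30 : k) ≠ 0 := fun h => by
  have h1 : p ∣ 2 * (3 * 5) := (CharP.cast_eq_zero_iff k p 30).1 (by exact_mod_cast h)
  rcases (hp.out.dvd_mul).1 h1 with h2 | h2
  · have := Nat.le_of_dvd (by norm_num) h2; omega
  rcases (hp.out.dvd_mul).1 h2 with h2 | h2 <;> (have := Nat.le_of_dvd (by norm_num) h2; omega)

theorem Ctx.charZero [IsDomain O] [hp : Fact p.Prime] [CharP k p] (c : Ctx p O k) : CharZero O := by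
  refine charZero_of_inj_zero fun n => ?_
  induction n using Nat.strong_induction_on with
  | _ n ih =>
    intro h
    have h1 : p ∣ n := (CharP.cast_eq_zero_iff k p n).1 (by rw [← map_natCast c.ρ, h, map_zero])
    obtain ⟨m, rfl⟩ := h1
    rw [Nat.cast_mul] at h
    by_contra h0
    have hm : m ≠ 0 := by rintro rfl; exact h0 rfl
    have := hp.out.one_lt
    exact hm (ih m (by nlinarith [Nat.pos_of_ne_zero hm]) ((mul_eq_zero.1 h).resolve_left c.p0))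

theorem Ctx.split [IsDomain O] (c : Ctx p O k) {u m : O} (h : u * m = p) (hm : c.ρ m = 0) :
    ∃ v, u * v = 1 ∧ m = p * v := by
  obtain ⟨v, hv⟩ := (c.ker _).1 hm
  refine ⟨v, mul_left_cancel₀ c.p0 ?_, hv⟩
  rw [hv] at h
  linear_combination h

theorem Ctx.num_dvd [IsDomain O] [CharP k p] (c : Ctx p O k)
    {K : Type} [Field K] [CharZero K] [Algebra O K] [IsFractionRing O K] (q : ℚ) {d w : O}
    (hd : c.ρ d ≠ 0) (hw : (p : O) ^ 2 ∣ w) (h : (q : K) * algebraMap O K d = algebraMap O K w) :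
    (p : ℤ) ^ 2 ∣ q.num := by
  have e : (q.num : O) * d = w * q.den := by
    apply IsFractionRing.injective O K
    have : (q.den : K) ≠ 0 := Nat.cast_ne_zero.2 q.den_nz
    rw [map_mul, map_mul, map_intCast, map_natCast, ← h, Rat.cast_def]
    field_simp
  have h1 : (p : O) ^ 2 ∣ (q.num : O) :=
    (c.unit d hd).dvd_mul_right.1 (e ▸ hw.mul_right _)
  have aux : ∀ n : ℤ, (p : O) ∣ (n : O) → (p : ℤ) ∣ n := fun n hn =>
    (CharP.intCast_eq_zero_iff k p n).1 (by rw [← map_intCast c.ρ]; exact (c.ker _).2 hn)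
  obtain ⟨n, hn⟩ := aux _ ((dvd_pow_self _ two_ne_zero).trans h1)
  rw [hn, pow_two, Int.cast_mul, Int.cast_natCast, mul_dvd_mul_iff_left c.p0] at h1
  rw [hn, pow_two]
  exact mul_dvd_mul_left _ (aux n h1)

theorem exists_ctx (p : ℕ) [hp : Fact p.Prime] (p5 : 5 < p) :
    ∃ (_ : Ctx p (WittVector p (AlgebraicClosure (ZMod p))) (AlgebraicClosure (ZMod p)))
      (μ : WittVector p (AlgebraicClosure (ZMod p))), μ ^ 4 - μ ^ 2 + 4 = 0 := by
  set k := AlgebraicClosure (ZMod p)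
  let c : Ctx p (WittVector p k) k := ⟨WittVector.constantCoeff, fun x => by
    rw [← RingHom.mem_ker, WittVector.ker_constantCoeff, Ideal.mem_span_singleton],
    fun x hx => WittVector.isUnit_of_coeff_zero_ne_zero x hx, WittVector.p_nonzero p k⟩
  have h30 := ne30 (k := k) p5
  obtain ⟨a, ha⟩ := IsAlgClosed.exists_root (X ^ 4 - X ^ 2 + 4 : k[X]) (by
    rw [show (X ^ 4 - X ^ 2 + 4 : k[X]).degree = 4 by compute_degree!]; norm_num)
  simp only [IsRoot, eval_add, eval_sub, eval_pow, eval_X, eval_ofNat] at ha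
  obtain ⟨b, hb⟩ := WittVector.constantCoeff_surjective p a
  have hb' : c.ρ b = a := hb
  obtain ⟨μ, hμ, -⟩ := HenselianRing.is_henselian (I := Ideal.span {(p : WittVector p k)})
    (X ^ 4 - X ^ 2 + 4 : (WittVector p k)[X]) (by monicity!) b (by
      rw [Ideal.mem_span_singleton, ← c.ker]
      simpa only [eval_add, eval_sub, eval_pow, eval_X, eval_ofNat, map_add, map_sub, map_pow,
        map_ofNat, hb'] using ha) (by
      refine (c.unit _ ?_).map _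
      simp only [derivative_X_pow, derivative_ofNat, eval_add, eval_natCast,
        eval_sub, eval_mul, eval_pow, eval_X, eval_zero, map_add, map_sub, map_mul, map_pow,
        map_natCast, map_zero, hb']
      intro h
      apply pow_ne_zero 3 h30
      push_cast at h
      linear_combination -225 * (2 * a ^ 2 - 1) * (a - a ^ 3) * h +
        225 * (62 - 8 * (a ^ 4 - a ^ 2 + 4)) * ha)
  exact ⟨c, μ, by simpa only [IsRoot, eval_add, eval_sub, eval_pow, eval_X, eval_ofNat] using hμ⟩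

variable [IsDomain O] [IsNoetherianRing O] [CharZero O] [hp : Fact p.Prime] [CharP k p]
  [PerfectRing k p]

omit [IsDomain O] [IsNoetherianRing O] [CharZero O] [PerfectRing k p] in
theorem good_g (c : Ctx p O k) (p5 : 5 < p) {μ g : O} (hμ : μ ^ 4 - μ ^ 2 + 4 = 0)
    (hg : 27 * g = -2 - 3 * μ + μ ^ 3) : c.ρ g ≠ 0 ∧ 27 * c.ρ g + 4 ≠ 0 := by
  have h30 := ne30 (k := k) p5
  have e1 := congrArg c.ρ hμ
  have e2 := congrArg c.ρ hg
  simp only [map_add, map_sub, map_pow, map_mul, map_neg, map_ofNat, map_zero] at e1 e2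
  generalize c.ρ μ = a at e1 e2
  constructor
  · intro h
    apply pow_ne_zero 4 h30
    linear_combination 50625 * (27 * (2 - 3 * a + a ^ 3) * h - (2 - 3 * a + a ^ 3) * e2 +
      (5 - a ^ 2) * e1)
  · intro h
    apply pow_ne_zero 4 h30
    linear_combination 50625 * (-(2 + 3 * a - a ^ 3) * h + (2 + 3 * a - a ^ 3) * e2 +
      (5 - a ^ 2) * e1)

theorem q1_O (c : Ctx p O k) (p5 : 5 < p) {μ t : O} (hμ : μ ^ 4 - μ ^ 2 + 4 = 0)
    (ht : 108 * t = 2 + 3 * μ - μ ^ 3) {x y : ℤ} (hxy : (p : ℤ) = x ^ 2 + 15 * y ^ 2)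
    (hx : x % 3 = 1) (hm : c.ρ (x - y * (2 * μ ^ 2 - 1)) = 0) :
    (p : O) ^ 2 ∣ PP p t - (x + y * (2 * μ ^ 2 - 1)) ∧
      (p : O) ^ 2 ∣ 15 * TT p t + y * (2 * μ ^ 2 - 1) * (10 + 3 * μ - μ ^ 3) := by
  have h30 := ne30 (k := k) p5
  have h6 : (6 : k) ≠ 0 := fun h => h30 (by linear_combination 5 * h)
  have hg : 27 * (-4 * t) = -2 - 3 * μ + μ ^ 3 := by linear_combination -ht
  obtain ⟨i, hi⟩ := (c.unit 2 (by
    rw [map_ofNat]; exact fun h => h30 (by linear_combination 15 * h))).exists_left_inv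
  have hxy' : (p : O) = x ^ 2 + 15 * y ^ 2 := by exact_mod_cast congrArg (Int.cast : ℤ → O) hxy
  obtain ⟨v, huv, hv⟩ := c.split (u := x + y * (2 * μ ^ 2 - 1))
    (by linear_combination -hxy' - 4 * y ^ 2 * hμ) hm
  have gg := good_g c p5 hμ hg
  have := core c p5 gg.1 gg.2 gg.1 gg.2 (gen_id c _) (gen_alpha c h6 hμ hg (m := μ ^ 2) rfl
    (n := 1 - μ ^ 2) (by ring) (e := i * (3 * μ + 3 * μ ^ 3))
    (by linear_combination (6 * μ + 6 * μ ^ 3) * hi)) (diff_one_ne hμ) (d1_cop hμ)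
    (diff_one hμ hg) (a := x + y) (b := -2 * y) (by push_cast; linear_combination -hxy) (by omega)
    huv (by push_cast; linear_combination hv) (by push_cast; ring)
  refine ⟨this.1, ?_⟩
  obtain ⟨z, hz⟩ := this.2
  refine (c.unit 144 (by
    rw [map_ofNat]; exact fun h => pow_ne_zero 4 h6 (by linear_combination 9 * h))).dvd_mul_left.1
    ⟨-135 * (2 + 3 * μ - μ ^ 3) * z, ?_⟩
  rw [← TT, ← hv] at hz
  push_cast at hz
  linear_combination -135 * (2 + 3 * μ - μ ^ 3) * hz +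
    (2 + 3 * μ - μ ^ 3) * (135 * TT p t - 15 * (3 * (x - y * (2 * μ ^ 2 - 1)) +
      2 * y * (i * (3 * μ + 3 * μ ^ 3))) + 45 * (x + y * (2 * μ ^ 2 - 1))) * hg +
    15 * (2 + 3 * μ - μ ^ 3) ^ 2 * y * (3 * μ + 3 * μ ^ 3) * hi + (135 * (5 - μ ^ 2) * TT p t +
      y * (-270 + 207 * μ + 810 * μ ^ 2 - 180 * μ ^ 3 - 180 * μ ^ 4 + 45 * μ ^ 5)) * hμ

theorem q2_O (c : Ctx p O k) (p5 : 5 < p) {μ w t t' : O} (hμ : μ ^ 4 - μ ^ 2 + 4 = 0)
    (hw : 2 * w = μ - μ ^ 3) (ht : 108 * t = 2 + 3 * μ - μ ^ 3)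
    (ht' : 108 * t' = 2 - 3 * μ + μ ^ 3) {x y : ℤ} (hxy : (p : ℤ) = 3 * x ^ 2 + 5 * y ^ 2)
    (hy : y % 3 = 1) (hm : c.ρ (-(y * (μ + w) + x * (μ - w))) = 0) :
    (p : O) ^ 2 ∣ PP p t + (y * (μ + w) - x * (μ - w)) ∧
      (p : O) ^ 2 ∣ 3 * TT p t - y * (2 + 3 * μ - μ ^ 3) := by
  have h30 := ne30 (k := k) p5
  have h6 : (6 : k) ≠ 0 := fun h => h30 (by linear_combination 5 * h)
  have hg : 27 * (-4 * t) = -2 - 3 * μ + μ ^ 3 := by linear_combination -ht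
  have hg' : 27 * (-4 * t') = -2 + 3 * μ - μ ^ 3 := by linear_combination -ht'
  obtain ⟨i, hi⟩ := (c.unit 4 (by
    rw [map_ofNat]
    exact fun h => pow_ne_zero 2 h6 (by linear_combination 9 * h))).exists_left_inv
  have hxy' : (p : O) = 3 * x ^ 2 + 5 * y ^ 2 := by
    exact_mod_cast congrArg (Int.cast : ℤ → O) hxy
  obtain ⟨v, huv, hv⟩ := c.split (u := -(y * (μ + w) - x * (μ - w))) (by
    apply mul_left_cancel₀ (by norm_num : (4 : O) ≠ 0)
    linear_combination -4 * hxy' + (y ^ 2 * (5 * μ + 2 * w - μ ^ 3) -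
      x ^ 2 * (2 * w - 3 * μ - μ ^ 3)) * hw +
      (y ^ 2 * (-5 + μ ^ 2) - x ^ 2 * (3 + μ ^ 2)) * hμ) hm
  have gg := good_g c p5 hμ hg
  have gg' := good_g c p5 (μ := -μ) (g := -4 * t') (by linear_combination hμ)
    (by linear_combination hg')
  have := core c p5 gg.1 gg.2 gg'.1 gg'.2 (gen_beta2 c h6 hμ hg hg' (m := μ) rfl
    (n := i * (-6 - 3 * μ + 2 * μ ^ 2 + 3 * μ ^ 3))
    (by linear_combination (-6 - 3 * μ + 2 * μ ^ 2 + 3 * μ ^ 3) * hi)
    (e := i * (6 + 3 * μ - 6 * μ ^ 2 - 3 * μ ^ 3))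
    (by linear_combination (6 + 3 * μ - 6 * μ ^ 2 - 3 * μ ^ 3) * hi))
    (gen_beta1 c h6 hμ hg hg' (m := w) (by linear_combination 2 * hw)
    (n := i * (-4 - 6 * μ - 2 * μ ^ 2)) (by linear_combination (-4 - 6 * μ - 2 * μ ^ 2) * hi)
    (e := i * (6 * μ + 6 * μ ^ 2)) (by linear_combination (6 * μ + 6 * μ ^ 2) * hi))
    (diff_two_ne hμ) (d2_cop hμ) (diff_two hμ hg hg') (a := -(y + x)) (b := -(y - x))
    (by push_cast; linear_combination -hxy) (by omega) huv (by push_cast; linear_combination hv) (by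
      push_cast
      apply mul_left_cancel₀ (by norm_num : (108 : O) ≠ 0)
      linear_combination 4 * i * (-(y + x) * (-6 - 3 * μ + 2 * μ ^ 2 + 3 * μ ^ 3) -
          (y - x) * (-4 - 6 * μ - 2 * μ ^ 2)) * hg' + 4 * (y * (μ + w) - x * (μ - w)) * hg +
        (-2 + 3 * μ - μ ^ 3) * (-(y + x) * (-6 - 3 * μ + 2 * μ ^ 2 + 3 * μ ^ 3) -
          (y - x) * (-4 - 6 * μ - 2 * μ ^ 2)) * hi + 2 * (y + x) * (-2 - 3 * μ + μ ^ 3) * hw +
        (x * (-1 + 4 * μ + μ ^ 2) + y * (-5 + μ ^ 2)) * hμ)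
  refine ⟨by rw [← sub_neg_eq_add]; exact this.1, ?_⟩
  obtain ⟨z, hz⟩ := this.2
  have hΨ : c.ρ (12 * (27 * (-4 * t) + 4)) ≠ 0 := by
    simp only [map_mul c.ρ 12, map_mul c.ρ 27, map_add, map_ofNat]
    exact mul_ne_zero (fun h => pow_ne_zero 2 h6 (by linear_combination 3 * h)) gg.2
  refine (c.unit _ hΨ).dvd_mul_left.1 ⟨36 * z, ?_⟩
  rw [← TT, ← hv] at hz
  push_cast at hz
  linear_combination 36 * hz + 4 * (-3 * (y * (μ + w) + x * (μ - w)) +
      (y + x) * (i * (6 + 3 * μ - 6 * μ ^ 2 - 3 * μ ^ 3)) + (y - x) * (i * (6 * μ + 6 * μ ^ 2))) *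
      hg' + (12 * (y * (μ + w) - x * (μ - w)) - 12 * y * (2 + 3 * μ - μ ^ 3)) * hg +
    (-2 + 3 * μ - μ ^ 3) * ((y + x) * (6 + 3 * μ - 6 * μ ^ 2 - 3 * μ ^ 3) +
      (y - x) * (6 * μ + 6 * μ ^ 2)) * hi +
    (6 * (y - x) * (2 - 3 * μ + μ ^ 3) - 6 * (y + x) * (2 + 3 * μ - μ ^ 3)) * hw +
    (x * (-3 + 12 * μ + 3 * μ ^ 2) + y * (-15 + 3 * μ ^ 2)) * hμ

end Pool.Agent.Lib.MP_2eac29_nt
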